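import Mathlib

/-!
The finite places of the rational numbers, and the choice of a rational number which is very divisible by the
primes of a given set, very small, and has only one further prime.
-/

namespace Pool.Agent.Lib.MP_17a322_nt.GQ

open NumberField IsDedekindDomain

/-- The prime number of a finite place of the rational numbers. -/
noncomputable def pr (v : FinitePlace ℚ) : ℕ := Rat.HeightOneSpectrum.natGenerator v.maximalIdeal

theorem pr_prime (v : FinitePlace ℚ) : (pr v).Prime := Rat.HeightOneSpectrum.prime_natGenerator _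

private theorem K1_mem (v : FinitePlace ℚ) (n : ℕ) :
    ((n : 𝓞 ℚ)) ∈ v.maximalIdeal.asIdeal ↔ pr v ∣ n := by
  rw [pr, Rat.HeightOneSpectrum.natGenerator_dvd_iff]
  have h := Ideal.apply_mem_of_equiv_iff (I := v.maximalIdeal.asIdeal)
    (f := Rat.IsIntegralClosure.intEquiv (𝓞 ℚ)) (x := (n : 𝓞 ℚ))
  rw [map_natCast] at h
  exact h.symm

theorem apply_lt_one_iff (v : FinitePlace ℚ) (n : ℕ) : v (n : ℚ) < 1 ↔ pr v ∣ n := by
  rw [← K1_mem]
  have h := FinitePlace.norm_lt_one_iff_mem (K := ℚ) v.maximalIdeal (n : 𝓞 ℚ)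
  have h2 := FinitePlace.norm_embedding_eq v (algebraMap (𝓞 ℚ) ℚ (n : 𝓞 ℚ))
  have h3 : algebraMap (𝓞 ℚ) ℚ (n : 𝓞 ℚ) = (n : ℚ) := map_natCast _ n
  rw [← h, h2, h3]

theorem apply_le_one (v : FinitePlace ℚ) (n : ℕ) : v (n : ℚ) ≤ 1 := by
  have h := FinitePlace.norm_le_one (K := ℚ) v.maximalIdeal (n : 𝓞 ℚ)
  have h2 := FinitePlace.norm_embedding_eq v (algebraMap (𝓞 ℚ) ℚ (n : 𝓞 ℚ))
  have h3 : algebraMap (𝓞 ℚ) ℚ (n : 𝓞 ℚ) = (n : ℚ) := map_natCast _ n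
  rw [h2, h3] at h
  exact h

theorem apply_eq_one (v : FinitePlace ℚ) (n : ℕ) (h : ¬ pr v ∣ n) : v (n : ℚ) = 1 :=
  le_antisymm (apply_le_one v n) (not_lt.1 fun h1 => h ((apply_lt_one_iff v n).1 h1))

theorem span_pr (v : FinitePlace ℚ) : v.maximalIdeal.asIdeal = Ideal.span {((pr v : ℕ) : 𝓞 ℚ)} := by
  have h1 := Rat.HeightOneSpectrum.span_natGenerator v.maximalIdeal
  have h2 := congrArg (Ideal.comap (Rat.IsIntegralClosure.intEquiv (𝓞 ℚ))) h1
  rw [Ideal.comap_map_of_bijective _ (Rat.IsIntegralClosure.intEquiv (𝓞 ℚ)).bijective] at h2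
  rw [← h2]
  ext x
  rw [Ideal.mem_comap, Ideal.mem_span_singleton, Ideal.mem_span_singleton]
  have h3 : ((pr v : ℕ) : ℤ) = Rat.IsIntegralClosure.intEquiv (𝓞 ℚ) ((pr v : ℕ) : 𝓞 ℚ) := by
    rw [map_natCast]
  change ((pr v : ℕ) : ℤ) ∣ _ ↔ _
  rw [h3]
  exact map_dvd_iff (Rat.IsIntegralClosure.intEquiv (𝓞 ℚ))

theorem absNorm_pr (v : FinitePlace ℚ) : Ideal.absNorm v.maximalIdeal.asIdeal = pr v := by
  rw [span_pr, Ideal.absNorm_span_singleton]
  have h : ((pr v : ℕ) : 𝓞 ℚ) = algebraMap ℤ (𝓞 ℚ) ((pr v : ℕ) : ℤ) := by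
    simp
  rw [h, Algebra.norm_algebraMap_of_basis (RingOfIntegers.basis ℚ)]
  simp [← Module.finrank_eq_card_basis (RingOfIntegers.basis ℚ), RingOfIntegers.rank]

theorem apply_pr (v : FinitePlace ℚ) : v ((pr v : ℕ) : ℚ) = ((pr v : ℕ) : ℝ)⁻¹ := by
  have hp : ((pr v : ℕ) : 𝓞 ℚ) ≠ 0 := Nat.cast_ne_zero.2 (pr_prime v).ne_zero
  have h1 := FinitePlace.apply_mul_absNorm_pow_eq_one v hp
  have h3 : algebraMap (𝓞 ℚ) ℚ ((pr v : ℕ) : 𝓞 ℚ) = ((pr v : ℕ) : ℚ) := map_natCast _ _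
  rw [← span_pr, multiplicity_self, pow_one, absNorm_pr] at h1
  rw [← h3]
  exact eq_inv_of_mul_eq_one_left h1

theorem pr_inj {v w : FinitePlace ℚ} (h : pr v = pr w) : v = w := by
  rw [← FinitePlace.maximalIdeal_inj]
  apply HeightOneSpectrum.ext
  rw [span_pr, span_pr, h]

theorem exists_pr {p : ℕ} (hp : p.Prime) : ∃ v : FinitePlace ℚ, pr v = p := by
  refine ⟨FinitePlace.mk (Rat.HeightOneSpectrum.primesEquiv.symm ⟨p, hp⟩), ?_⟩
  rw [pr, FinitePlace.maximalIdeal_mk]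
  have h := Rat.HeightOneSpectrum.primesEquiv (R := 𝓞 ℚ) |>.apply_symm_apply ⟨p, hp⟩
  exact congrArg Subtype.val h

end Pool.Agent.Lib.MP_17a322_nt.GQ
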