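import Pool.Agent.Lib.MP_17a322_nt.GQ.Defs
import Pool.Agent.Lib.MP_17a322_nt.ABN.A1
import Pool.Agent.Lib.MP_17a322_nt.ABN.A2a
import Pool.Agent.Lib.MP_17a322_nt.ABN.A2b
import Pool.Agent.Lib.MP_17a322_nt.ABN.A4
import Pool.Agent.Lib.MP_17a322_nt.ABN.N7
import Pool.Agent.Lib.MP_17a322_nt.ABN.N17
import Pool.Agent.Lib.MP_17a322_nt.ABN.N18
import Pool.Agent.Lib.MP_17a322_nt.JAC.B5c

universe u

namespace Pool.Agent.Lib.MP_17a322_nt.GQ

open MvPolynomial hiding psum
open Height NumberField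
open Pool.Agent.Lib.MP_17a322_nt.EQ
open Pool.Agent.Lib.MP_17a322_nt.JAC
open Pool.Agent.Lib.MP_17a322_nt.ABN

/-- The determinant with the rows `z (s ·)`, `δ l (z (s ·))` for the coordinates `1` and `x l`. -/
private theorem C2_NZ_ne {F ι α : Type*} [Field F] [Fintype α] [DecidableEq α] {k : Type*} [Field k] [Algebra k F]
    (δ : α → Derivation k F F) (z : ι → F) (i₀ : ι) (h0 : z i₀ = 1) (x : α → ι)
    (hδ : ∀ l l', δ l (z (x l')) = if l = l' then 1 else 0) :
    ∃ s : Option α → ι, NZ (fun l => δ l) z s ≠ 0 := by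
  refine ⟨fun o => o.elim i₀ x, ?_⟩
  have h1 : NZ (fun l => δ l) z (fun o => o.elim i₀ x) = 1 := by
    let E : Option α ≃ α ⊕ PUnit.{1} := Equiv.optionEquivSumPUnit α
    rw [NZ, ← Matrix.det_submatrix_equiv_self E.symm]
    have h2 : (Matrix.of fun a b : Option α => a.elim (z ((fun o : Option α => o.elim i₀ x) b))
        fun l => δ l (z ((fun o : Option α => o.elim i₀ x) b))).submatrix
        E.symm E.symm =
        Matrix.fromBlocks (1 : Matrix α α F) 0 (Matrix.of fun _ l => z (x l)) (1 : Matrix PUnit.{1} PUnit.{1} F) := by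
      ext a b
      rcases a with a | a <;> rcases b with b | b
      · simp [E, Matrix.one_apply, hδ]
      · simp [E, h0]
      · simp [E]
      · simp [E, h0]
    rw [h2, Matrix.det_fromBlocks_zero₁₂, Matrix.det_one, Matrix.det_one, one_mul]
  rw [h1]
  exact one_ne_zero

/-- The value of `GG` for the variables. -/
private theorem C2_GG_X {K : Type*} [Field K] {ι α : Type} [Fintype α] [DecidableEq α] (P : Finset (MvPolynomial α K))
    (hX : ∀ l, (X l : MvPolynomial α K) ∈ P) (x : α → ι) (z : ι → K) (hz : ∀ l, z (x l) ≠ 0) :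
    GGz P x z (fun l => ⟨X l, hX l⟩) ≠ 0 := by
  have h1 : (Matrix.of fun k l : α => eval (fun l => z (x l)) (pderiv l (X k : MvPolynomial α K)) /
      eval (fun l => z (x l)) (X k : MvPolynomial α K)) = Matrix.diagonal fun k => (z (x k))⁻¹ := by
    ext k l
    rw [Matrix.of_apply, pderiv_X, eval_X]
    by_cases h : k = l
    · subst h
      simp
    · rw [Matrix.diagonal_apply_ne _ h, Pi.single_eq_of_ne h]
      simp
  rw [GGz]
  change (Matrix.of fun k l : α => eval (fun l => z (x l)) (pderiv l (X k : MvPolynomial α K)) /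
      eval (fun l => z (x l)) (X k : MvPolynomial α K)).det ≠ 0
  rw [h1, Matrix.det_diagonal]
  exact Finset.prod_ne_zero_iff.2 fun l _ => inv_ne_zero (hz l)

/-- The vector `NZz` up to a factor. -/
private theorem C2_NZz {K : Type*} [Field K] {ι α : Type} [Fintype α] [DecidableEq α] (B : MvPolynomial ι K)
    (N : α → ι → MvPolynomial ι K) (z : ι → K) (hB : eval z B ≠ 0) :
    (fun s : Option α → ι => (Matrix.of fun a b : Option α => a.elim (z (s b)) fun l => eval z (N l (s b))).det) =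
      (eval z B) ^ Fintype.card α • NZz B N z := by
  funext s
  rw [Pi.smul_apply, smul_eq_mul, NZz]
  have h1 : (Matrix.of fun a b : Option α => a.elim (z (s b)) fun l => eval z (N l (s b))) =
      Matrix.of fun a b : Option α => (fun o : Option α => o.elim 1 fun _ => eval z B) a *
        (Matrix.of fun a b : Option α => a.elim (z (s b)) fun l => eval z (N l (s b)) / eval z B) a b := by
    ext a b
    rcases a with _ | l
    · simp
    · simp only [Matrix.of_apply, Option.elim_some]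
      rw [mul_div_cancel₀ _ hB]
  rw [h1, Matrix.det_mul_column, Fintype.prod_option]
  simp only [Option.elim_none, Option.elim_some, one_mul, Finset.prod_const, Finset.card_univ]

/-- The local heights do not change if the point is multiplied by a number. -/
private theorem C2_lam {K : Type u} [Field K] {ι κ : Type} [Fintype ι] [Finite κ] (v : AbsoluteValue K ℝ) (e : ℕ)
    (g : κ → MvPolynomial ι K) (hg : ∀ j, (g j).IsHomogeneous e) {c : K} (hc : c ≠ 0) (z : ι → K) (hz : z ≠ 0)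
    (hgz : (fun j => eval z (g j)) ≠ 0) : lam v e g (c • z) = lam v e g z := by
  have hev : ∀ j, eval (c • z) (g j) = c ^ e * eval z (g j) := fun j => by
    have h := B3_aeval_mul (L := K) (hg j) c z
    rw [MvPolynomial.aeval_eq_eval, MvPolynomial.aeval_eq_eval] at h
    exact h
  have hvc : 0 < v c := v.pos hc
  have h1 : (⨆ i, v ((c • z) i)) = v c * ⨆ i, v (z i) := by
    rw [Real.mul_iSup_of_nonneg hvc.le]
    refine iSup_congr fun i => ?_
    rw [Pi.smul_apply, smul_eq_mul, map_mul]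
  have h2 : (⨆ j, v (eval (c • z) (g j))) = v c ^ e * ⨆ j, v (eval z (g j)) := by
    rw [Real.mul_iSup_of_nonneg (pow_nonneg hvc.le e)]
    refine iSup_congr fun j => ?_
    rw [hev, map_mul, map_pow]
  have h3 := hl_pos v hz
  have h4 := hl_pos v hgz
  rw [lam, lam, h1, h2, Real.log_mul hvc.ne' h3.ne', Real.log_mul (pow_ne_zero _ hvc.ne') h4.ne', Real.log_pow]
  ring

/-- The main inequality for a variety with a frame: the abc inequality for forms gives the inequality of the truncated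
Vojta conjecture outside a hypersurface. -/
theorem poly_core {K : Type u} [Field K] [NumberField K] {ι : Type} [Fintype ι] (J : Ideal (MvPolynomial ι K)) [J.IsPrime]
    (hJ : ∀ F ∈ J, ∀ i, homogeneousComponent i F ∈ J) (i₀ : ι) (hi : X i₀ ∉ J) {α : Type} [Fintype α] [DecidableEq α] (n : ℕ)
    (hn : Fintype.card α = n) (habc : PolyABC K n) (x : α → ι) (δ : α → Derivation K (FF (dh J i₀)) (FF (dh J i₀)))
    (hx : AlgebraicIndependent K fun l => gn (dh J i₀) (x l))
    (hfin : FiniteDimensional (F0 K fun l => gn (dh J i₀) (x l)) (FF (dh J i₀)))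
    (hδ : ∀ l l', δ l (gn (dh J i₀) (x l')) = if l = l' then 1 else 0)
    (hu : ∀ (d : Derivation K (FF (dh J i₀)) (FF (dh J i₀))) (f : FF (dh J i₀)),
      d f = ∑ l, d (gn (dh J i₀) (x l)) * δ l f)
    {β κ : Type} [Fintype β] [Fintype κ] [Nonempty κ] (e : ℕ) (f : β → κ → MvPolynomial ι K)
    (hf : ∀ b j, (f b j).IsHomogeneous e) (hf0 : ∀ b, ∃ j, f b j ∉ J)
    (h1 : ∀ A : ValuationSubring (FF (dh J i₀)), (∀ c : K, algebraMap K (FF (dh J i₀)) c ∈ A) →
      ∃ P : Finset (MvPolynomial α K), (∀ p ∈ P, p ≠ 0 ∧ aeval (fun l => gn (dh J i₀) (x l)) p ≠ 0) ∧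
        Le (fun l => δ l) A (vals (fun l => gn (dh J i₀) (x l)) (P : Set (MvPolynomial α K)))
          (fun s : (Option α → ι) × (β → ι) => NZ (fun l => δ l) (gn (dh J i₀)) s.1 * ∏ b, gn (dh J i₀) (s.2 b) ^ e)
          (fun i : ι × (β → κ) => gn (dh J i₀) i.1 ^ (Fintype.card α + 1) * ∏ b, aeval (gn (dh J i₀)) (f b (i.2 b))))
    (S : Finset (FinitePlace K)) (ε : ℝ) (hε : 0 < ε) :
    ∃ (G : MvPolynomial ι K) (C : ℝ), G ∉ J ∧ (∃ d, G.IsHomogeneous d) ∧
      ∀ p : ι → K, IsPt J p → eval p G ≠ 0 → (∀ b, ∃ j, eval p (f b j) ≠ 0) ∧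
        ∑ b, (e * logHeight p - logHeight fun j => eval p (f b j)) + hCan J p ≤
          trunc S e f p + ε * logHeight p + C := by
  classical
  subst hn
  have hIp : (dh J i₀).IsPrime := dh_prime J i₀
  have hζ1 : gn (dh J i₀) i₀ = 1 := by
    have h1 := (aeval_gn_eq_zero (dh J i₀) _).2 (dh_sub_one J i₀ hi)
    rw [map_sub, aeval_X, map_one, sub_eq_zero] at h1
    exact h1
  have hne : Nonempty ι := ⟨i₀⟩
  obtain ⟨P, hP, hX, hA⟩ := fam (fun l => gn (dh J i₀) (x l)) hx δ hδ
    (fun s : (Option α → ι) × (β → ι) => NZ (fun l => δ l) (gn (dh J i₀)) s.1 * ∏ b, gn (dh J i₀) (s.2 b) ^ e)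
    (fun i : ι × (β → κ) => gn (dh J i₀) i.1 ^ (Fintype.card α + 1) * ∏ b, aeval (gn (dh J i₀)) (f b (i.2 b)))
    (fun s : Option α → ι => NZ (fun l => δ l) (gn (dh J i₀)) s)
    (fun i : ι => gn (dh J i₀) i ^ (Fintype.card α + 1))
    ⟨i₀, by rw [hζ1, one_pow]; exact one_ne_zero⟩ h1
    (fun A hA => T0 (fun l => gn (dh J i₀) (x l)) hx δ hδ (gn (dh J i₀))
      ⟨i₀, by rw [hζ1]; exact one_ne_zero⟩ A hA)
  have hP' : ∀ p ∈ P, aeval (fun l => gn (dh J i₀) (x l)) p ≠ 0 := fun p hp => (hP p hp).2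
  obtain ⟨M, hM, hMA⟩ := fam_power (fun l => gn (dh J i₀) (x l)) (fun l => δ l)
    (fun s : Option α → ι => NZ (fun l => δ l) (gn (dh J i₀)) s)
    (fun i : ι => gn (dh J i₀) i ^ (Fintype.card α + 1))
    (C2_NZ_ne δ (gn (dh J i₀)) i₀ hζ1 x hδ) P hP' (fun A hA' => (hA A hA').2)
  obtain ⟨B, N, hB, hN, hcan⟩ := hCan_eq J hJ i₀ hi x δ hδ hu
  obtain ⟨C, hC1, hCf, hCv⟩ := place1 (dh J i₀) x δ hδ B N hB hN P hP' e f (fun A hA' => (hA A hA').1)
  obtain ⟨C', hC1', hCf', hCv'⟩ := place2 (dh J i₀) x δ hδ B N hB hN P hP' M (fun A hA' => hMA A hA')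
  obtain ⟨C₀, hsum⟩ := sum_ineq (K := K) (ι := ι) (Λ := Option α → ι) (β := β) (κ := κ) (ν := α → Fin P.card)
    (π := Fin P.card) S (Fintype.card α) e M hM C C' hC1 hCf hC1' hCf'
  obtain ⟨G₁, C₁, hG₁, habc'⟩ := habc α rfl P (fun p hp => (hP p hp).1) hX ε hε
  choose jb hjb using hf0
  have hmul : ∀ {a b : MvPolynomial ι K}, a ∉ dh J i₀ → b ∉ dh J i₀ → a * b ∉ dh J i₀ := by
    intro a b ha hb h
    rcases hIp.mem_or_mem h with h | h
    · exact ha h
    · exact hb h
  have hG' : B * rename x (G₁ * ∏ p ∈ P, p) * ∏ b, f b (jb b) ∉ dh J i₀ := by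
    refine hmul (hmul hB ?_) ?_
    · intro h
      have h2 := (aeval_gn_eq_zero (dh J i₀) _).2 h
      rw [aeval_rename] at h2
      have h3 : G₁ * ∏ p ∈ P, p = 0 := hx.eq_zero_of_aeval_eq_zero _ h2
      rcases mul_eq_zero.1 h3 with h4 | h4
      · exact hG₁ h4
      · obtain ⟨p, hp, hp0⟩ := Finset.prod_eq_zero_iff.1 h4
        exact (hP p hp).1 hp0
    · intro h
      obtain ⟨b, -, hb⟩ := (hIp.prod_mem_iff).1 h
      exact hjb b ((le_dh J hJ i₀ hi).2 _ hb e (hf b (jb b)))
  obtain ⟨G, hGJ, hGh, hG⟩ := exists_form J i₀ hi _ hG'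
  refine ⟨G, C₁ + C₀, hGJ, hGh, ?_⟩
  intro p hp hp0
  obtain ⟨hpi, hpG⟩ := hG p hp0
  have hpJ : ∀ F ∈ J, eval p F = 0 := by
    intro F hF
    have h1 := hp.2 F hF
    rwa [MvPolynomial.aeval_eq_eval] at h1
  obtain ⟨z, hz⟩ : ∃ z : ι → K, z = fun i => p i / p i₀ := ⟨_, rfl⟩
  rw [← hz] at hpG
  have hzI : ∀ H ∈ dh J i₀, eval z H = 0 := by
    intro H hH
    rw [hz]
    exact eval_dh J i₀ hi H hH p hpJ hpi
  have hz1 : z i₀ = 1 := by
    rw [hz]
    exact div_self hpi
  have hz0 : z ≠ 0 := by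
    intro h
    rw [h] at hz1
    exact zero_ne_one hz1
  have hpz : p = p i₀ • z := by
    funext i
    rw [hz, Pi.smul_apply, smul_eq_mul, mul_div_cancel₀ _ hpi]
  rw [map_mul, map_mul, eval_rename, map_mul, map_prod, map_prod, mul_ne_zero_iff, mul_ne_zero_iff, mul_ne_zero_iff,
    Finset.prod_ne_zero_iff, Finset.prod_ne_zero_iff] at hpG
  obtain ⟨⟨hBz, hG₁z, hPz⟩, hfz⟩ := hpG
  have hfz' : ∀ b, (fun j => eval z (f b j)) ≠ 0 := by
    intro b h
    exact hfz b (Finset.mem_univ b) (congrFun h (jb b))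
  have hev : ∀ b j, eval p (f b j) = p i₀ ^ e * eval z (f b j) := fun b j => by
    have h := B3_aeval_mul (L := K) (hf b j) (p i₀) z
    rw [MvPolynomial.aeval_eq_eval, MvPolynomial.aeval_eq_eval] at h
    conv_lhs => rw [hpz]
    exact h
  refine ⟨fun b => ⟨jb b, ?_⟩, ?_⟩
  · rw [hev]
    exact mul_ne_zero (pow_ne_zero _ hpi) (hfz b (Finset.mem_univ b))
  -- the heights at `p` and at `z`
  have hTan : Tan J p = Tan J z := by
    conv_lhs => rw [hpz]
    exact Tan_mul hJ hpi z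
  have hlog : logHeight p = logHeight z := by
    conv_lhs => rw [hpz]
    exact logHeight_smul_eq_logHeight _ hpi
  have hcanz : hCan J p = hCan J z := by
    rw [hCan, hCan, hTan, hlog]
  have hfb : ∀ b, logHeight (fun j => eval p (f b j)) = logHeight (fun j => eval z (f b j)) := by
    intro b
    have h2 : (fun j => eval p (f b j)) = p i₀ ^ e • fun j => eval z (f b j) := by
      funext j
      rw [hev]
      rfl
    rw [h2, logHeight_smul_eq_logHeight _ (pow_ne_zero _ hpi)]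
  have htr : trunc S e f p = trunc S e f z := by
    have h2 : ∀ (v : FinitePlace K) (b : β), lam v.val e (f b) p = lam v.val e (f b) z := by
      intro v b
      conv_lhs => rw [hpz]
      exact C2_lam v.val e (f b) (hf b) hpi z hz0 (hfz' b)
    rw [trunc, trunc]
    have h3 : {v : FinitePlace K | v ∉ S ∧ ∃ b, 0 < lam v.val e (f b) p} =
        {v : FinitePlace K | v ∉ S ∧ ∃ b, 0 < lam v.val e (f b) z} := by
      simp only [h2]
    rw [h3]
  rw [hcanz, htr, hlog, Finset.sum_congr rfl fun b _ => by rw [hfb b]]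
  -- the canonical height
  obtain ⟨hne', hcz⟩ := hcan z hzI hBz
  rw [C2_NZz B N z hBz] at hne' hcz
  rw [logHeight_smul_eq_logHeight _ (pow_ne_zero _ hBz)] at hcz
  have ha : NZz B N z ≠ 0 := fun h => hne' (by rw [h, smul_zero])
  have hPy : ∀ q ∈ P, eval (fun l => z (x l)) q ≠ 0 := fun q hq => hPz q hq
  -- reindexing
  let E : (α → Fin P.card) ≃ (α → P) := Equiv.piCongrRight fun _ => P.equivFin.symm
  have hXz : ∀ l, z (x l) ≠ 0 := fun l => by
    have h2 := hPy _ (hX l)
    rwa [eval_X] at h2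
  have hg : (GGz P x z ∘ E) ≠ 0 := by
    intro h
    have h2 := congrFun h (E.symm fun l => ⟨X l, hX l⟩)
    rw [Function.comp_apply, Equiv.apply_symm_apply] at h2
    exact C2_GG_X P hX x z hXz h2
  have hgs : ∀ v : Pl K, (⨆ k, av v ((GGz P x z ∘ E) k)) = ⨆ I', av v (GGz P x z I') := fun v =>
    E.iSup_comp (g := fun I' => av v (GGz P x z I'))
  have hgl : logHeight (GGz P x z ∘ E) = logHeight (GGz P x z) := logHeight_comp_equiv E _
  have hsum' := hsum (NZz B N z) z (fun b j => eval z (f b j)) (GGz P x z ∘ E)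
    (fun j => eval (fun l => z (x l)) (P.equivFin.symm j : MvPolynomial α K)) ha hz0 hfz' hg
    (fun j => hPy _ (P.equivFin.symm j).2) (by
      intro v
      rw [hgs v]
      exact hCv v z hzI hBz hPy) (by
      intro v j
      rw [hgs v]
      exact hCv' v z hzI hBz hPy _ (P.equivFin.symm j).2)
  have hset : {v : FinitePlace K | ∃ j : Fin P.card,
      v (eval (fun l => z (x l)) (P.equivFin.symm j : MvPolynomial α K)) ≠ 1} =
      {v : FinitePlace K | ∃ q ∈ P, v (eval (fun l => z (x l)) q) ≠ 1} := by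
    ext v
    constructor
    · rintro ⟨j, hj⟩
      exact ⟨_, (P.equivFin.symm j).2, hj⟩
    · rintro ⟨q, hq, hj⟩
      refine ⟨P.equivFin ⟨q, hq⟩, ?_⟩
      rwa [Equiv.symm_apply_apply]
  rw [hset, hgl] at hsum'
  obtain ⟨-, habc''⟩ := habc' (fun l => z (x l)) hG₁z
  have hcomp : logHeight (fun o : Option α => o.elim 1 fun l => z (x l)) ≤ logHeight z := by
    have h2 : (fun o : Option α => o.elim 1 fun l => z (x l)) = z ∘ fun o : Option α => o.elim i₀ x := by
      funext o
      rcases o with _ | l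
      · exact hz1.symm
      · rfl
    rw [h2]
    exact logHeight_comp_le _ _
  have hcomp' := mul_le_mul_of_nonneg_left hcomp hε.le
  have htz : trunc S e f z = ∑ᶠ v ∈ {v : FinitePlace K | v ∉ S ∧ ∃ b, 0 < e * Real.log (⨆ i, v (z i)) -
      Real.log (⨆ j, v ((fun b j => eval z (f b j)) b j))}, Real.log (Ideal.absNorm v.maximalIdeal.asIdeal) := rfl
  rw [← htz] at hsum'
  have hGG : logHeight (GGz P x z) = logHeight (vec P fun l => z (x l)) := rfl
  rw [← hGG] at habc''
  rw [hcz]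
  linarith

end Pool.Agent.Lib.MP_17a322_nt.GQ
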