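import Pool.Agent.Lib.MP_17a322_nt.JAC.Defs
import Pool.Agent.Lib.MP_17a322_nt.GQ.C2
import Pool.Agent.Lib.MP_17a322_nt.ABN.A6a
import Pool.Agent.Lib.MP_17a322_nt.ABN.N10
import Pool.Agent.Lib.MP_17a322_nt.JAC.B4
import Pool.Agent.Lib.MP_17a322_nt.EQ.Q3

universe u

namespace Pool.Agent.Lib.MP_17a322_nt.GQ

open MvPolynomial hiding psum
open Height NumberField
open Pool.Agent.Lib.MP_17a322_nt.EQ
open Pool.Agent.Lib.MP_17a322_nt.JAC
open Pool.Agent.Lib.MP_17a322_nt.ABN

section aux

variable {K : Type u} [Field K] {ι : Type} [Fintype ι]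

/-- The coordinate `i₀` of the generic point is equal to one. -/
private theorem C3_one (J : Ideal (MvPolynomial ι K)) [J.IsPrime] (i₀ : ι) (hi : X i₀ ∉ J) :
    gn (dh J i₀) i₀ = 1 := by
  have h := (aeval_gn_eq_zero (dh J i₀) _).2 (dh_sub_one J i₀ hi)
  rw [map_sub, aeval_X, map_one, sub_eq_zero] at h
  exact h

end aux

/-- The abc inequality for the finite sets of polynomials which contain the variables implies the case `D = 0`
of Vojta's conjecture. -/
theorem gauss_of_poly {K : Type u} [Field K] [NumberField K] (h : ∀ n, PolyABC K n) : VojtaGauss K := by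
  intro ι _ J hJp hJ ε hε
  classical
  have : J.IsPrime := hJp
  by_cases hX : ∀ i, X i ∈ J
  · refine ⟨1, 0, fun h1 => hJp.ne_top ((Ideal.eq_top_iff_one J).2 h1), ⟨0, isHomogeneous_one _ _⟩,
      fun p hp _ => ?_⟩
    exfalso
    apply hp.1
    funext i
    have h1 := hp.2 _ (hX i)
    rwa [aeval_X] at h1
  · push Not at hX
    obtain ⟨i₀, hi⟩ := hX
    obtain ⟨α, _, _, x, δ, hx, hfin, hδ, hu⟩ := exists_frame (dh J i₀)
    have h1 : ∀ A : ValuationSubring (FF (dh J i₀)), (∀ c : K, algebraMap K (FF (dh J i₀)) c ∈ A) →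
        ∃ P : Finset (MvPolynomial α K), (∀ p ∈ P, p ≠ 0 ∧ aeval (fun l => gn (dh J i₀) (x l)) p ≠ 0) ∧
          Le (fun l => δ l) A (vals (fun l => gn (dh J i₀) (x l)) (P : Set (MvPolynomial α K)))
            (fun s : (Option α → ι) × (Empty → ι) =>
              NZ (fun l => δ l) (gn (dh J i₀)) s.1 * ∏ b, gn (dh J i₀) (s.2 b) ^ 0)
            (fun i : ι × (Empty → Unit) => gn (dh J i₀) i.1 ^ (Fintype.card α + 1) *
              ∏ b, aeval (gn (dh J i₀)) ((fun (_ : Empty) (_ : Unit) => (0 : MvPolynomial ι K)) b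
                (i.2 b))) := by
      intro A hA
      have : FiniteDimensional (F0 K fun l => gn (dh J i₀) (x l)) (FF (dh J i₀)) := hfin
      obtain ⟨P, hP, hle, -⟩ := T0 (fun l => gn (dh J i₀) (x l)) hx δ hδ (gn (dh J i₀))
        ⟨i₀, by rw [C3_one J i₀ hi]; exact one_ne_zero⟩ A hA
      refine ⟨P, hP, fun s => ?_⟩
      obtain ⟨k, b, hb, hv⟩ := hle s.1
      refine ⟨(k, fun _ => Unit.unit), b, hb, ?_⟩
      simpa only [Finset.univ_eq_empty, Finset.prod_empty, mul_one] using hv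
    obtain ⟨G, C, hG, hGd, hp⟩ := poly_core J hJ i₀ hi (Fintype.card α) rfl (h _) x δ hx hfin hδ hu 0
      (fun (_ : Empty) (_ : Unit) => (0 : MvPolynomial ι K)) (fun b => b.elim) (fun b => b.elim) h1
      ∅ ε hε
    refine ⟨G, C, hG, hGd, fun p hpt hGp => ?_⟩
    have h2 := (hp p hpt hGp).2
    have h3 : trunc ∅ 0 (fun (_ : Empty) (_ : Unit) => (0 : MvPolynomial ι K)) p = 0 := by
      unfold trunc
      have h4 : {v : FinitePlace K | v ∉ (∅ : Finset (FinitePlace K)) ∧ ∃ b : Empty,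
          0 < lam v.val 0 ((fun (_ : Empty) (_ : Unit) => (0 : MvPolynomial ι K)) b) p} = ∅ := by
        ext v
        constructor
        · rintro ⟨-, b, -⟩
          exact b.elim
        · exact fun h5 => h5.elim
      rw [h4]
      exact finsum_mem_empty
    rw [h3, Finset.univ_eq_empty, Finset.sum_empty, zero_add, zero_add] at h2
    exact h2

end Pool.Agent.Lib.MP_17a322_nt.GQ
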