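import Pool.Agent.Lib.MP_17a322_nt.GQ.Defs

/-!
The abc inequality for a finite set of polynomials does not depend on the names of the variables.
-/

universe u

namespace Pool.Agent.Lib.MP_17a322_nt.GQ

open MvPolynomial Height NumberField

/-- Renaming of the variables. -/
theorem ineq_rename {K : Type u} [Field K] [NumberField K] {α β : Type} [Fintype α] [DecidableEq α] [Fintype β]
    [DecidableEq β] (e : α ≃ β) (P : Finset (MvPolynomial α K)) (P' : Finset (MvPolynomial β K))
    (hP : ∀ q ∈ P', ∃ p ∈ P, rename e p = q) (hP' : ∀ p ∈ P, rename e p ∈ P') (h : Ineq P) : Ineq P' := by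
  classical
  intro ε hε
  obtain ⟨G, C, hG, hGC⟩ := h ε hε
  refine ⟨rename e G, C, (map_ne_zero_iff _ (rename_injective _ e.injective)).2 hG, fun y hy => ?_⟩
  rw [eval_rename] at hy
  obtain ⟨h1, h2⟩ := hGC (y ∘ e) hy
  refine ⟨fun q hq => ?_, ?_⟩
  · obtain ⟨p, hp, rfl⟩ := hP q hq
    rw [eval_rename]
    exact h1 p hp
  have hset : {v : FinitePlace K | ∃ p ∈ P, v (eval (y ∘ e) p) ≠ 1} =
      {v : FinitePlace K | ∃ p ∈ P', v (eval y p) ≠ 1} := by
    ext v
    rw [Set.mem_ofPred_eq, Set.mem_ofPred_eq]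
    constructor
    · rintro ⟨p, hp, hv⟩
      refine ⟨rename e p, hP' p hp, ?_⟩
      rwa [eval_rename]
    · rintro ⟨q, hq, hv⟩
      obtain ⟨p, hp, rfl⟩ := hP q hq
      rw [eval_rename] at hv
      exact ⟨p, hp, hv⟩
  rw [hset] at h2
  have hh : logHeight (fun o : Option α => o.elim 1 (y ∘ e)) = logHeight (fun o : Option β => o.elim 1 y) := by
    have h3 : (fun o : Option α => o.elim 1 (y ∘ e)) = (fun o : Option β => o.elim 1 y) ∘ Equiv.optionCongr e := by
      funext o
      cases o with
      | none => rfl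
      | some l => rfl
    rw [h3]
    exact logHeight_comp_equiv _ _
  rw [hh] at h2
  refine le_trans ?_ h2
  choose! g hg1 hg2 using hP
  have h3 : vec P' y = vec P (y ∘ e) ∘ fun (I : β → P') (a : α) => ⟨g (I (e a)).1, hg1 _ (I (e a)).2⟩ := by
    funext I
    simp only [vec, Function.comp_apply]
    rw [← Matrix.det_submatrix_equiv_self e]
    congr 1
    ext k l
    simp only [Matrix.submatrix_apply, Matrix.of_apply]
    have h4 := hg2 _ (I (e k)).2
    have h5 : pderiv (e l) (I (e k)).1 = rename e (pderiv l (g (I (e k)).1)) := by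
      rw [← pderiv_rename e.injective, h4]
    have h6 : eval y (I (e k)).1 = eval (y ∘ e) (g (I (e k)).1) := by
      rw [← eval_rename, h4]
    rw [h5, h6, eval_rename]
  rw [h3]
  exact logHeight_comp_le _ _

end Pool.Agent.Lib.MP_17a322_nt.GQ
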