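import Mathlib

/-!
A triangular substitution: two determinants.
-/

namespace Pool.Agent.Lib.MP_17a322_nt.GQ

open MvPolynomial

section

variable {F : Type*} [Field F] {α β : Type} [Fintype α] [DecidableEq α] [Fintype β] [DecidableEq β]

/-- The chain rule for a substitution. -/
private theorem K2_chain {ι : Type} [Fintype ι] (Φ : ι → MvPolynomial ι F) (j : ι) (g : MvPolynomial ι F) :
    pderiv j (aeval Φ g) = ∑ i, aeval Φ (pderiv i g) * pderiv j (Φ i) := by
  classical
  induction g using MvPolynomial.induction_on with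
  | C a =>
    have h1 : (aeval Φ (C a : MvPolynomial ι F) : MvPolynomial ι F) = C a := by
      rw [aeval_C]
      rfl
    rw [h1, pderiv_C]
    symm
    apply Finset.sum_eq_zero
    intro i _
    rw [pderiv_C, map_zero, zero_mul]
  | add p q hp hq =>
    rw [map_add, map_add, hp, hq, ← Finset.sum_add_distrib]
    refine Finset.sum_congr rfl fun i _ => ?_
    rw [map_add, map_add, add_mul]
  | mul_X p i hp =>
    rw [map_mul, aeval_X, pderiv_mul, hp, Finset.sum_mul]
    have h1 : ∀ k, aeval Φ (pderiv k (p * X i)) * pderiv j (Φ k) =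
        aeval Φ (pderiv k p) * pderiv j (Φ k) * Φ i + (if i = k then aeval Φ p * pderiv j (Φ i) else 0) := by
      intro k
      rw [pderiv_mul, map_add, map_mul, map_mul, aeval_X, pderiv_X]
      by_cases h : i = k
      · subst h
        rw [if_pos rfl, Pi.single_eq_same, map_one]
        ring
      · rw [if_neg h, Pi.single_eq_of_ne h, map_zero]
        ring
    simp only [h1]
    rw [Finset.sum_add_distrib, Finset.sum_ite_eq Finset.univ i, if_pos (Finset.mem_univ i)]

/-- The determinant of the substituted partial derivatives. -/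
private theorem K2_det (R : β → MvPolynomial (α ⊕ β) F) (Φ : α ⊕ β → MvPolynomial (α ⊕ β) F)
    (hΦ : ∀ l, Φ (Sum.inl l) = X (Sum.inl l)) (hR : ∀ k, aeval Φ (R k) = X (Sum.inr k)) (c : F)
    (hdet : (Matrix.of fun k j => pderiv (Sum.inr j) (R k)).det = C c) (n : α → α ⊕ β) :
    (Matrix.of fun i j => aeval Φ (pderiv j (Sum.elim (fun l => X (n l)) R i)) :
      Matrix (α ⊕ β) (α ⊕ β) (MvPolynomial (α ⊕ β) F)).det =
      C c * (Matrix.of fun l l' => pderiv (Sum.inl l') (Φ (n l))).det := by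
  -- the Jacobian matrix of the substitution
  have hmul : ∀ g : α ⊕ β → MvPolynomial (α ⊕ β) F,
      (Matrix.of fun i j => aeval Φ (pderiv j (g i)) : Matrix (α ⊕ β) (α ⊕ β) (MvPolynomial (α ⊕ β) F)) *
        (Matrix.of fun i j => pderiv j (Φ i)) = Matrix.of fun i j => pderiv j (aeval Φ (g i)) := by
    intro g
    ext1 i j
    rw [Matrix.mul_apply, Matrix.of_apply, K2_chain]
    rfl
  -- the case of the variables
  have h1 : (Matrix.of fun i j => aeval Φ (pderiv j (Sum.elim (fun l => X (Sum.inl l)) R i)) :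
      Matrix (α ⊕ β) (α ⊕ β) (MvPolynomial (α ⊕ β) F)).det = C c := by
    have h2 : (Matrix.of fun i j => aeval Φ (pderiv j (Sum.elim (fun l => X (Sum.inl l)) R i)) :
        Matrix (α ⊕ β) (α ⊕ β) (MvPolynomial (α ⊕ β) F)) =
        Matrix.fromBlocks 1 0 (Matrix.of fun k l => aeval Φ (pderiv (Sum.inl l) (R k)))
          ((Matrix.of fun k j => pderiv (Sum.inr j) (R k)).map (aeval Φ)) := by
      ext1 i j
      rcases i with l | k <;> rcases j with l' | k'
      · rw [Matrix.of_apply, Matrix.fromBlocks_apply₁₁, Sum.elim_inl, pderiv_X, Matrix.one_apply]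
        by_cases h : l = l'
        · subst h
          rw [if_pos rfl, Pi.single_eq_same, map_one]
        · rw [if_neg h, Pi.single_eq_of_ne (by simpa using h), map_zero]
      · rw [Matrix.of_apply, Matrix.fromBlocks_apply₁₂, Sum.elim_inl, pderiv_X, Pi.single_eq_of_ne (by simp),
          map_zero, Matrix.zero_apply]
      · rw [Matrix.of_apply, Matrix.fromBlocks_apply₂₁, Sum.elim_inr, Matrix.of_apply]
      · rw [Matrix.of_apply, Matrix.fromBlocks_apply₂₂, Sum.elim_inr, Matrix.map_apply, Matrix.of_apply]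
    rw [h2, Matrix.det_fromBlocks_zero₁₂, Matrix.det_one, one_mul]
    have h3 := RingHom.map_det (aeval Φ : MvPolynomial (α ⊕ β) F →ₐ[F] MvPolynomial (α ⊕ β) F).toRingHom
      (Matrix.of fun k j => pderiv (Sum.inr j) (R k))
    rw [hdet] at h3
    have h4 : (aeval Φ (C c : MvPolynomial (α ⊕ β) F) : MvPolynomial (α ⊕ β) F) = C c := by
      rw [aeval_C]
      rfl
    rw [← h4]
    exact h3.symm
  have h5 := congrArg Matrix.det (hmul (Sum.elim (fun l => X (Sum.inl l)) R))
  rw [Matrix.det_mul, h1] at h5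
  have h6 : (Matrix.of fun i j => pderiv j (aeval Φ (Sum.elim (fun l => X (Sum.inl l)) R i)) :
      Matrix (α ⊕ β) (α ⊕ β) (MvPolynomial (α ⊕ β) F)) = 1 := by
    have h7 : ∀ i, aeval Φ (Sum.elim (fun l => X (Sum.inl l)) R i) = (X i : MvPolynomial (α ⊕ β) F) := by
      intro i
      rcases i with l | k
      · rw [Sum.elim_inl, aeval_X, hΦ]
      · rw [Sum.elim_inr, hR]
    ext1 i j
    rw [Matrix.of_apply, h7, pderiv_X, Matrix.one_apply]
    by_cases h : i = j
    · subst h
      rw [if_pos rfl, Pi.single_eq_same]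
    · rw [if_neg h, Pi.single_eq_of_ne h]
  rw [h6, Matrix.det_one] at h5
  have h8 := congrArg Matrix.det (hmul (Sum.elim (fun l => X (n l)) R))
  rw [Matrix.det_mul] at h8
  have h9 : (Matrix.of fun i j => pderiv j (aeval Φ (Sum.elim (fun l => X (n l)) R i)) :
      Matrix (α ⊕ β) (α ⊕ β) (MvPolynomial (α ⊕ β) F)) =
      Matrix.fromBlocks (Matrix.of fun l l' => pderiv (Sum.inl l') (Φ (n l)))
        (Matrix.of fun l k => pderiv (Sum.inr k) (Φ (n l))) 0 1 := by
    ext1 i j
    rcases i with l | k <;> rcases j with l' | k'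
    · rw [Matrix.of_apply, Matrix.fromBlocks_apply₁₁, Sum.elim_inl, aeval_X, Matrix.of_apply]
    · rw [Matrix.of_apply, Matrix.fromBlocks_apply₁₂, Sum.elim_inl, aeval_X, Matrix.of_apply]
    · rw [Matrix.of_apply, Matrix.fromBlocks_apply₂₁, Sum.elim_inr, hR, pderiv_X, Pi.single_eq_of_ne (by simp),
        Matrix.zero_apply]
    · rw [Matrix.of_apply, Matrix.fromBlocks_apply₂₂, Sum.elim_inr, hR, pderiv_X, Matrix.one_apply]
      by_cases h : k = k'
      · subst h
        rw [if_pos rfl, Pi.single_eq_same]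
      · rw [if_neg h, Pi.single_eq_of_ne (by simpa using h)]
  rw [h9, Matrix.det_fromBlocks_zero₂₁, Matrix.det_one, mul_one] at h8
  rw [← h8, mul_left_comm, h5, mul_one]

/-- The determinant for some coordinates and the relations. -/
theorem det_node (R : β → MvPolynomial (α ⊕ β) F) (Φ : α ⊕ β → MvPolynomial (α ⊕ β) F)
    (hΦ : ∀ l, Φ (Sum.inl l) = X (Sum.inl l)) (hR : ∀ k, aeval Φ (R k) = X (Sum.inr k)) (c : F)
    (hdet : (Matrix.of fun k j => pderiv (Sum.inr j) (R k)).det = C c) (n : α → α ⊕ β) (w : α → F) (t : β → F) :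
    (Matrix.of fun i j => eval (fun i => eval (Sum.elim w t) (Φ i)) (pderiv j (Sum.elim (fun l => X (n l)) R i)) /
      eval (fun i => eval (Sum.elim w t) (Φ i)) (Sum.elim (fun l => X (n l)) R i)).det =
      c * eval (Sum.elim w t) (Matrix.of fun l l' => pderiv (Sum.inl l') (Φ (n l))).det /
        ((∏ l, eval (Sum.elim w t) (Φ (n l))) * ∏ k, t k) := by
  have hev : ∀ g : MvPolynomial (α ⊕ β) F, eval (fun i => eval (Sum.elim w t) (Φ i)) g =
      eval (Sum.elim w t) (aeval Φ g) := by
    intro g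
    have h := comp_aeval_apply Φ (aeval (Sum.elim w t) : MvPolynomial (α ⊕ β) F →ₐ[F] F) g
    rw [MvPolynomial.aeval_eq_eval, MvPolynomial.aeval_eq_eval] at h
    exact h.symm
  have h1 : (Matrix.of fun i j => eval (fun i => eval (Sum.elim w t) (Φ i))
      (pderiv j (Sum.elim (fun l => X (n l)) R i)) /
      eval (fun i => eval (Sum.elim w t) (Φ i)) (Sum.elim (fun l => X (n l)) R i)) =
      Matrix.of fun i j => (eval (Sum.elim w t) (aeval Φ (Sum.elim (fun l => X (n l)) R i)))⁻¹ *
        ((Matrix.of fun i j => aeval Φ (pderiv j (Sum.elim (fun l => X (n l)) R i)) :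
          Matrix (α ⊕ β) (α ⊕ β) (MvPolynomial (α ⊕ β) F)).map (eval (Sum.elim w t))) i j := by
    ext1 i j
    rw [Matrix.of_apply, Matrix.of_apply, Matrix.map_apply, Matrix.of_apply, hev, hev, div_eq_inv_mul]
  rw [h1, Matrix.det_mul_column]
  have h2 := RingHom.map_det (eval (Sum.elim w t))
    (Matrix.of fun i j => aeval Φ (pderiv j (Sum.elim (fun l => X (n l)) R i)) :
      Matrix (α ⊕ β) (α ⊕ β) (MvPolynomial (α ⊕ β) F))
  rw [K2_det R Φ hΦ hR c hdet n, map_mul, eval_C, RingHom.mapMatrix_apply] at h2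
  rw [← h2, Fintype.prod_sum_type]
  have h3 : ∀ l, eval (Sum.elim w t) (aeval Φ (Sum.elim (fun l => X (n l)) R (Sum.inl l))) =
      eval (Sum.elim w t) (Φ (n l)) := by
    intro l
    rw [Sum.elim_inl, aeval_X]
  have h4 : ∀ k, eval (Sum.elim w t) (aeval Φ (Sum.elim (fun l => X (n l)) R (Sum.inr k))) = t k := by
    intro k
    rw [Sum.elim_inr, hR, eval_X, Sum.elim_inr]
  simp only [h3, h4]
  rw [Finset.prod_inv_distrib, Finset.prod_inv_distrib, ← mul_inv, div_eq_inv_mul]

/-- The determinant for the variables and the relations. -/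
theorem det_base (R : β → MvPolynomial (α ⊕ β) F) (Φ : α ⊕ β → MvPolynomial (α ⊕ β) F)
    (hΦ : ∀ l, Φ (Sum.inl l) = X (Sum.inl l)) (hR : ∀ k, aeval Φ (R k) = X (Sum.inr k)) (c : F)
    (hdet : (Matrix.of fun k j => pderiv (Sum.inr j) (R k)).det = C c) (w : α → F) (t : β → F) :
    (Matrix.of fun i j => eval (fun i => eval (Sum.elim w t) (Φ i)) (pderiv j (Sum.elim (fun l => X (Sum.inl l)) R i)) /
      eval (fun i => eval (Sum.elim w t) (Φ i)) (Sum.elim (fun l => X (Sum.inl l)) R i)).det =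
      c / ((∏ l, w l) * ∏ k, t k) := by
  rw [det_node R Φ hΦ hR c hdet (fun l => Sum.inl l) w t]
  have h1 : (Matrix.of fun l l' => pderiv (Sum.inl l') (Φ (Sum.inl l)) :
      Matrix α α (MvPolynomial (α ⊕ β) F)) = 1 := by
    ext1 l l'
    rw [Matrix.of_apply, hΦ, pderiv_X, Matrix.one_apply]
    by_cases h : l = l'
    · subst h
      rw [if_pos rfl, Pi.single_eq_same]
    · rw [if_neg h, Pi.single_eq_of_ne (by simpa using h)]
  have h2 : ∀ l, eval (Sum.elim w t) (Φ (Sum.inl l)) = w l := by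
    intro l
    rw [hΦ, eval_X, Sum.elim_inl]
  simp only [h2]
  rw [h1, Matrix.det_one, map_one, mul_one]

omit [DecidableEq α] [DecidableEq β] in
/-- The substitution is injective on polynomials. -/
theorem aeval_injective (R : β → MvPolynomial (α ⊕ β) F) (Φ : α ⊕ β → MvPolynomial (α ⊕ β) F)
    (hΦ : ∀ l, Φ (Sum.inl l) = X (Sum.inl l)) (hR : ∀ k, aeval Φ (R k) = X (Sum.inr k)) :
    Function.Injective (aeval Φ : MvPolynomial (α ⊕ β) F → MvPolynomial (α ⊕ β) F) := by
  let f : MvPolynomial (α ⊕ β) F →+* MvPolynomial (α ⊕ β) F :=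
    (aeval Φ : MvPolynomial (α ⊕ β) F →ₐ[F] MvPolynomial (α ⊕ β) F).toRingHom
  have hsurj : Function.Surjective f := by
    intro g
    refine ⟨aeval (Sum.elim (fun l => X (Sum.inl l)) R) g, ?_⟩
    change aeval Φ (aeval (Sum.elim (fun l => X (Sum.inl l)) R) g) = g
    rw [comp_aeval_apply (Sum.elim (fun l => (X (Sum.inl l) : MvPolynomial (α ⊕ β) F)) R) (aeval Φ) g]
    have h2 : (fun i => aeval Φ (Sum.elim (fun l => (X (Sum.inl l) : MvPolynomial (α ⊕ β) F)) R i)) =
        (X : α ⊕ β → MvPolynomial (α ⊕ β) F) := by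
      funext i
      rcases i with l | k
      · rw [Sum.elim_inl, aeval_X, hΦ]
      · rw [Sum.elim_inr, hR]
    rw [h2, aeval_X_left_apply]
  have hit : ∀ m : ℕ, Function.Surjective (f^[m]) := fun m => hsurj.iterate m
  let K : ℕ →o Ideal (MvPolynomial (α ⊕ β) F) :=
    { toFun := fun m => RingHom.ker (f ^ m)
      monotone' := by
        apply monotone_nat_of_le_succ
        intro m x hx
        rw [RingHom.mem_ker] at hx ⊢
        rw [pow_succ', RingHom.mul_def, RingHom.comp_apply, hx, map_zero] }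
  obtain ⟨m, hm⟩ := monotone_stabilizes_iff_noetherian.2
    (inferInstance : IsNoetherian (MvPolynomial (α ⊕ β) F) (MvPolynomial (α ⊕ β) F)) K
  rw [injective_iff_map_eq_zero (aeval Φ : MvPolynomial (α ⊕ β) F →ₐ[F] MvPolynomial (α ⊕ β) F)]
  intro a ha
  obtain ⟨b, hb⟩ := hit m a
  have h1 : b ∈ K (m + 1) := by
    change b ∈ RingHom.ker (f ^ (m + 1))
    rw [RingHom.mem_ker, pow_succ', RingHom.mul_def, RingHom.comp_apply, RingHom.coe_pow, hb]
    exact ha
  rw [← hm (m + 1) (Nat.le_succ m)] at h1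
  have h2 : (f ^ m) b = 0 := RingHom.mem_ker.1 h1
  rw [RingHom.coe_pow, hb] at h2
  exact h2

end

end Pool.Agent.Lib.MP_17a322_nt.GQ
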