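import Pool.Agent.Lib.MP_17a322_nt.GQ.Slp
import Pool.Agent.Lib.MP_17a322_nt.GQ.K2

/-!
The determinant of the relations of a straight-line program with respect to the new variables is a nonzero
constant.
-/

namespace Pool.Agent.Lib.MP_17a322_nt.GQ

open MvPolynomial

/-- The chain rule. -/
theorem pderiv_aeval {σ τ : Type} [Fintype σ] (Φ : σ → MvPolynomial τ ℚ) (j : τ) (p : MvPolynomial σ ℚ) :
    pderiv j (aeval Φ p) = ∑ i, aeval Φ (pderiv i p) * pderiv j (Φ i) := by
  classical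
  induction p using MvPolynomial.induction_on with
  | C c => simp
  | add p q hp hq =>
    rw [map_add, map_add, hp, hq, ← Finset.sum_add_distrib]
    apply Finset.sum_congr rfl
    intro i _
    rw [map_add, map_add]
    ring
  | mul_X p l hp =>
    rw [map_mul, aeval_X, Derivation.leibniz, hp]
    have h1 : ∀ i, aeval Φ (pderiv i (p * X l)) * pderiv j (Φ i) =
        aeval Φ (pderiv i p) * pderiv j (Φ i) * Φ l + (if i = l then aeval Φ p * pderiv j (Φ l) else 0) := by
      intro i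
      rw [Derivation.leibniz, pderiv_X]
      by_cases h : i = l
      · subst h
        simp
        ring
      · rw [Pi.single_eq_of_ne (fun h' => h h'.symm)]
        simp [h]
        ring
    rw [Finset.sum_congr rfl fun i _ => h1 i, Finset.sum_add_distrib, ← Finset.sum_mul]
    simp
    ring

/-- The determinant of the relations with respect to the new variables is a nonzero constant. -/
theorem slp_det {α B : Type} [Fintype α] [Fintype B] [DecidableEq B] (g : Prog α B) :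
    ∃ c : ℚ, c ≠ 0 ∧ (Matrix.of fun k j => pderiv (Sum.inr j) (g.R k)).det = C c := by
  classical
  set M0 : Matrix B B (MvPolynomial (α ⊕ B) ℚ) := Matrix.of fun k j => pderiv (Sum.inr j) (g.R k) with hM0
  set M2 : Matrix B B (MvPolynomial (α ⊕ B) ℚ) := Matrix.of fun i j => pderiv (Sum.inr j) (g.Φ (Sum.inr i)) with hM2
  have h1 : (aeval g.Φ : MvPolynomial (α ⊕ B) ℚ →ₐ[ℚ] MvPolynomial (α ⊕ B) ℚ).toRingHom.mapMatrix M0 * M2 = 1 := by
    ext k j
    rw [Matrix.mul_apply, Matrix.one_apply]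
    have h2 := pderiv_aeval g.Φ (Sum.inr j) (g.R k)
    rw [g.hR, pderiv_X, Fintype.sum_sum_type] at h2
    have h3 : ∑ l : α, aeval g.Φ (pderiv (Sum.inl l) (g.R k)) * pderiv (Sum.inr j) (g.Φ (Sum.inl l)) = 0 := by
      apply Finset.sum_eq_zero
      intro l _
      rw [g.hl, pderiv_X_of_ne (by simp), mul_zero]
    rw [h3, zero_add] at h2
    have h4 : ∀ i, (aeval g.Φ : MvPolynomial (α ⊕ B) ℚ →ₐ[ℚ] MvPolynomial (α ⊕ B) ℚ).toRingHom.mapMatrix M0 k i * M2 i j =
        aeval g.Φ (pderiv (Sum.inr i) (g.R k)) * pderiv (Sum.inr j) (g.Φ (Sum.inr i)) := fun i => rfl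
    rw [Finset.sum_congr rfl fun i _ => h4 i, ← h2]
    by_cases h : k = j
    · subst h
      simp
    · rw [if_neg h, Pi.single_eq_of_ne]
      simpa using h
  have h2 : IsUnit (aeval g.Φ M0.det) := by
    have h3 := congrArg Matrix.det h1
    rw [Matrix.det_mul, Matrix.det_one, ← RingHom.map_det] at h3
    exact IsUnit.of_mul_eq_one _ h3
  rw [isUnit_iff_eq_C_of_isReduced] at h2
  obtain ⟨c, hc, hc'⟩ := h2
  refine ⟨c, hc.ne_zero, ?_⟩
  apply aeval_injective g.R g.Φ g.hl g.hR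
  rw [hc']
  exact (aeval_C _ c).symm

/-- The data for `ineq_of_quad` with the family `sqPoly`. -/
theorem exists_data {α : Type} [Fintype α] (P : Finset (MvPolynomial α ℚ)) :
    ∃ (β : Type) (_ : Fintype β) (_ : DecidableEq β) (R : β → MvPolynomial (α ⊕ β) ℚ)
      (Φ : α ⊕ β → MvPolynomial (α ⊕ β) ℚ) (c : ℚ) (node : P → α ⊕ β) (a : P → ℚ),
      (∀ l, Φ (Sum.inl l) = X (Sum.inl l)) ∧ (∀ k, aeval Φ (R k) = X (Sum.inr k)) ∧ c ≠ 0 ∧
      (Matrix.of fun k j => pderiv (Sum.inr j) (R k)).det = C c ∧ (∀ p, a p ≠ 0) ∧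
      (∀ p, aeval (Sum.elim X (fun _ => 0) : α ⊕ β → MvPolynomial α ℚ) (Φ (node p)) = C (a p) * p.1) ∧
      ∀ k, R k ∈ sqPoly (α ⊕ β) := by
  classical
  obtain ⟨β, hβ, g, hg⟩ := exists_slp P
  obtain ⟨c, hc, hc'⟩ := slp_det g
  choose node a ha hn using fun p : P => hg p.1 p.2
  refine ⟨β, hβ, inferInstance, g.R, g.Φ, c, node, a, g.hl, g.hR, hc, hc', ha, hn, ?_⟩
  intro k
  rw [mem_sqPoly]
  exact g.hm k

end Pool.Agent.Lib.MP_17a322_nt.GQ
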