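import Mathlib

/-!
Polynomials of degree at most two: the value is a quadratic form of the gradient.
-/

namespace Pool.Agent.Lib.MP_17a322_nt.GQ

open MvPolynomial

section

variable {F : Type*} [Field F] {σ : Type*} [Fintype σ] [DecidableEq σ]

/-- The polynomial is given by a symmetric matrix. -/
private def Gr (Q : MvPolynomial σ F) : Prop :=
  ∃ M : Option σ → Option σ → F, (∀ i j, M i j = M j i) ∧ ∀ x : σ → F,
    2 * eval x Q = ∑ i, ∑ j, (i.elim 1 x : F) * M i j * j.elim 1 x ∧
      ∀ j, eval x (pderiv j Q) = ∑ i, M (some j) i * i.elim 1 x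

private theorem Gr_add {P Q : MvPolynomial σ F} (hP : Gr P) (hQ : Gr Q) : Gr (P + Q) := by
  obtain ⟨M, h1, h2⟩ := hP
  obtain ⟨N, h3, h4⟩ := hQ
  refine ⟨fun i j => M i j + N i j, ?_, fun x => ⟨?_, fun j => ?_⟩⟩
  · intro i j
    show M i j + N i j = M j i + N j i
    rw [h1 i j, h3 i j]
  · rw [map_add, mul_add, (h2 x).1, (h4 x).1, ← Finset.sum_add_distrib]
    apply Finset.sum_congr rfl
    intro i _
    rw [← Finset.sum_add_distrib]
    apply Finset.sum_congr rfl
    intro j _
    ring
  · rw [map_add, map_add, (h2 x).2, (h4 x).2, ← Finset.sum_add_distrib]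
    apply Finset.sum_congr rfl
    intro i _
    ring

private theorem Gr_mul (c : F) {P : MvPolynomial σ F} (hP : Gr P) : Gr (C c * P) := by
  obtain ⟨M, h1, h2⟩ := hP
  refine ⟨fun i j => c * M i j, ?_, fun x => ⟨?_, fun j => ?_⟩⟩
  · intro i j
    show c * M i j = c * M j i
    rw [h1 i j]
  · rw [map_mul, eval_C]
    have h3 : 2 * (c * eval x P) = c * (2 * eval x P) := by ring
    rw [h3, (h2 x).1, Finset.mul_sum]
    apply Finset.sum_congr rfl
    intro i _
    rw [Finset.mul_sum]
    apply Finset.sum_congr rfl
    intro j _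
    ring
  · rw [pderiv_C_mul, map_mul, eval_C, (h2 x).2, Finset.mul_sum]
    apply Finset.sum_congr rfl
    intro i _
    ring

private theorem Gr_hat (x : σ → F) (a : Option σ) : eval x (a.elim 1 X : MvPolynomial σ F) = a.elim 1 x := by
  cases a with
  | none => simp
  | some a => simp

private theorem Gr_prod (a b : Option σ) :
    Gr ((a.elim 1 X : MvPolynomial σ F) * b.elim 1 X) := by
  have h1 : ∀ (x : σ → F) (a : Option σ), ∑ i : Option σ, (if i = a then (1 : F) else 0) * i.elim 1 x = a.elim 1 x := by
    intro x a
    simp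
  have h3 : ∀ (x : σ → F) (j : σ) (a : Option σ),
      eval x (pderiv j (a.elim 1 X : MvPolynomial σ F)) = if some j = a then 1 else 0 := by
    intro x j a
    cases a with
    | none => simp
    | some a =>
      by_cases h : j = a
      · subst h
        simp
      · have h' : ¬ a = j := fun h' => h h'.symm
        simp [pderiv_X, h]
  refine ⟨fun i j => (if i = a then 1 else 0) * (if j = b then 1 else 0) +
    (if i = b then 1 else 0) * (if j = a then 1 else 0), ?_, fun x => ⟨?_, fun j => ?_⟩⟩
  · intro i j
    ring
  · have h2 : ∀ i j : Option σ, (i.elim 1 x : F) * ((if i = a then 1 else 0) * (if j = b then 1 else 0) +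
        (if i = b then 1 else 0) * (if j = a then 1 else 0)) * j.elim 1 x =
        ((if i = a then 1 else 0) * i.elim 1 x) * ((if j = b then 1 else 0) * j.elim 1 x) +
          ((if i = b then 1 else 0) * i.elim 1 x) * ((if j = a then 1 else 0) * j.elim 1 x) := by
      intro i j
      ring
    rw [map_mul, Gr_hat, Gr_hat]
    simp only [h2, Finset.sum_add_distrib, ← Finset.mul_sum, ← Finset.sum_mul]
    rw [h1, h1]
    ring
  · have h2 : ∀ i : Option σ, ((if some j = a then (1 : F) else 0) * (if i = b then 1 else 0) +
        (if some j = b then 1 else 0) * (if i = a then 1 else 0)) * i.elim 1 x =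
        (if some j = a then (1 : F) else 0) * ((if i = b then 1 else 0) * i.elim 1 x) +
          (if some j = b then 1 else 0) * ((if i = a then 1 else 0) * i.elim 1 x) := by
      intro i
      ring
    rw [Derivation.leibniz, map_add, smul_eq_mul, smul_eq_mul, map_mul, map_mul, Gr_hat, Gr_hat, h3, h3]
    simp only [h2, Finset.sum_add_distrib, ← Finset.mul_sum]
    rw [h1, h1]
    ring

private theorem Gr_mon (m : σ →₀ ℕ) (hm : m.degree ≤ 2) :
    ∃ a b : Option σ, (monomial m (1 : F)) = (a.elim 1 X : MvPolynomial σ F) * b.elim 1 X := by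
  by_cases h0 : m = 0
  · exact ⟨none, none, by simp [h0]⟩
  obtain ⟨i, hi⟩ := Finsupp.ne_iff.1 h0
  have hi' : 1 ≤ m i := Nat.one_le_iff_ne_zero.2 hi
  have h1 : m = Finsupp.single i 1 + (m - Finsupp.single i 1) := by
    ext j
    by_cases h : i = j
    · subst h
      simp
      omega
    · simp [Finsupp.single_apply, h]
  set m' := m - Finsupp.single i 1 with hm'
  have h2 : m'.degree ≤ 1 := by
    have h3 : m.degree = 1 + m'.degree := by
      conv_lhs => rw [h1]
      rw [map_add, Finsupp.degree_single]
    omega
  by_cases h4 : m' = 0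
  · refine ⟨some i, none, ?_⟩
    rw [h1, h4, add_zero]
    simp [X]
  obtain ⟨j, hj⟩ := Finsupp.ne_iff.1 h4
  have hj' : 1 ≤ m' j := Nat.one_le_iff_ne_zero.2 hj
  have h5 : m' = Finsupp.single j 1 := by
    ext k
    by_cases h : j = k
    · subst h
      have : m' j ≤ m'.degree := Finsupp.le_degree j m'
      simp
      omega
    · have h6 : m' j + m' k ≤ m'.degree := by
        have h7 : Finsupp.single j (m' j) + Finsupp.single k (m' k) ≤ m' := by
          intro l
          by_cases hl : j = l
          · subst hl
            have : ¬ k = j := fun h' => h h'.symm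
            simp [Finsupp.single_apply, this]
          · by_cases hl' : k = l
            · subst hl'
              simp [Finsupp.single_apply, hl]
            · simp [Finsupp.single_apply, hl, hl']
        have h8 := Finsupp.degree_mono h7
        rwa [map_add, Finsupp.degree_single, Finsupp.degree_single] at h8
      rw [Finsupp.single_apply, if_neg h]
      omega
  refine ⟨some i, some j, ?_⟩
  rw [h1, h5]
  simp [X, monomial_mul]

private theorem Gr_all (Q : MvPolynomial σ F) (hQ : Q.totalDegree ≤ 2) : Gr Q := by
  have h0 : Gr (0 : MvPolynomial σ F) := by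
    refine ⟨fun _ _ => 0, fun _ _ => rfl, fun x => ⟨?_, fun j => ?_⟩⟩
    · simp
    · simp
  rw [Q.as_sum]
  apply Finset.sum_induction (fun m => monomial m (coeff m Q)) Gr
  · intro a b ha hb
    exact Gr_add ha hb
  · exact h0
  · intro m hm
    have h1 : m.degree ≤ 2 := (le_totalDegree hm).trans hQ
    obtain ⟨a, b, h2⟩ := Gr_mon (F := F) m h1
    have h3 : monomial m (coeff m Q) = C (coeff m Q) * monomial m (1 : F) := by
      rw [C_mul_monomial, mul_one]
    rw [h3, h2]
    exact Gr_mul _ (Gr_prod a b)

/-- A generalised inverse of a matrix. -/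
private theorem Gr_inv {n : Type*} [Fintype n] [DecidableEq n] (M : Matrix n n F) : ∃ N : Matrix n n F, M * N * M = M := by
  set f := Matrix.toLin' M with hf
  obtain ⟨g, hg⟩ := LinearMap.exists_rightInverse_of_surjective f.rangeRestrict (LinearMap.range_rangeRestrict f)
  obtain ⟨g', hg'⟩ := LinearMap.exists_extend g
  refine ⟨LinearMap.toMatrix' g', ?_⟩
  apply Matrix.toLin'.injective
  rw [Matrix.toLin'_mul, Matrix.toLin'_mul, Matrix.toLin'_toMatrix', ← hf]
  apply LinearMap.ext
  intro x
  show f (g' (f x)) = f x
  have h1 : g' (f x) = g (f.rangeRestrict x) := by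
    rw [← hg']
    rfl
  have h2 := LinearMap.congr_fun hg (f.rangeRestrict x)
  rw [h1]
  exact congrArg Subtype.val h2

/-- The value of a polynomial of degree at most two is a quadratic form of its gradient (in the homogeneous sense). -/
theorem exists_formula (Q : MvPolynomial σ F) (hQ : Q.totalDegree ≤ 2) : ∃ N : Option σ → Option σ → F, ∀ (x : σ → F)
    (V : Option σ → F), V none = 2 * eval x Q - ∑ j, x j * eval x (pderiv j Q) → (∀ j, V (some j) = eval x (pderiv j Q)) →
      2 * eval x Q = ∑ i, ∑ j, V i * N i j * V j := by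
  obtain ⟨M, hM, h⟩ := Gr_all Q hQ
  obtain ⟨N, hN⟩ := Gr_inv (Matrix.of M)
  refine ⟨N, ?_⟩
  intro x V hV0 hV
  have h1 : ∀ i, V i = ∑ j, M i j * j.elim 1 x := by
    intro i
    cases i with
    | none =>
      have h2 := (h x).1
      rw [Fintype.sum_option] at h2
      have h3 : ∀ i : σ, ∑ j : Option σ, ((some i : Option σ).elim 1 x : F) * M (some i) j * j.elim 1 x =
          x i * eval x (pderiv i Q) := by
        intro i
        rw [(h x).2 i, Finset.mul_sum]
        apply Finset.sum_congr rfl
        intro j _
        rw [mul_assoc]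
        rfl
      rw [Finset.sum_congr rfl fun i _ => h3 i] at h2
      rw [hV0, h2, add_sub_cancel_right]
      apply Finset.sum_congr rfl
      intro j _
      show (1 : F) * M none j * j.elim 1 x = _
      rw [one_mul]
    | some i => rw [hV, (h x).2]
  have h2 : V = (Matrix.of M).mulVec (fun o : Option σ => o.elim 1 x) := by
    funext i
    rw [h1 i]
    rfl
  have h3 : 2 * eval x Q = dotProduct (fun o : Option σ => o.elim 1 x) ((Matrix.of M).mulVec (fun o : Option σ => o.elim 1 x)) := by
    rw [(h x).1, dotProduct]
    apply Finset.sum_congr rfl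
    intro i _
    show _ = _ * ∑ j, M i j * j.elim 1 x
    rw [Finset.mul_sum]
    apply Finset.sum_congr rfl
    intro j _
    ring
  have h4 : dotProduct (fun o : Option σ => o.elim 1 x) ((Matrix.of M).mulVec (fun o : Option σ => o.elim 1 x)) =
      dotProduct V (N.mulVec V) := by
    have h5 : (Matrix.of M).mulVec (N.mulVec V) = V := by
      rw [h2, Matrix.mulVec_mulVec, Matrix.mulVec_mulVec, hN]
    have h6 : V = Matrix.vecMul (fun o : Option σ => o.elim 1 x) (Matrix.of M) := by
      rw [← Matrix.mulVec_transpose]
      have h7 : (Matrix.of M).transpose = Matrix.of M := by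
        ext i j
        exact hM j i
      rw [h7, ← h2]
    conv_lhs => rw [← h2, ← h5]
    conv_rhs => rw [h6]
    rw [← Matrix.dotProduct_mulVec, ← h6]
  rw [h3, h4, dotProduct]
  apply Finset.sum_congr rfl
  intro i _
  show V i * ∑ j, N i j * V j = _
  rw [Finset.mul_sum]
  apply Finset.sum_congr rfl
  intro j _
  ring

end

end Pool.Agent.Lib.MP_17a322_nt.GQ
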