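import Pool.Agent.Lib.MP_17a322_nt.GQ.K3d
import Pool.Agent.Lib.MP_17a322_nt.GQ.K3q

/-!
The gain at a place at which the value of a polynomial of degree at most two is not a unit.
-/

namespace Pool.Agent.Lib.MP_17a322_nt.GQ

open MvPolynomial Height NumberField

/-- The values of a finite place are powers of the prime number. -/
theorem absNorm_le (v : FinitePlace ℚ) (x : ℚ) (hx : 1 < v x) : (Ideal.absNorm v.maximalIdeal.asIdeal : ℝ) ≤ v x := by
  have hx0 : x ≠ 0 := by
    rintro rfl
    rw [map_zero] at hx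
    linarith
  have hp : (1 : ℝ) < pr v := by exact_mod_cast (pr_prime v).one_lt
  have hp0 : (0 : ℝ) < pr v := by linarith
  have hpn : (pr v : ℝ) ≠ 0 := hp0.ne'
  rw [absNorm_pr]
  have h1 : x = (x.num : ℚ) / (x.den : ℚ) := (Rat.num_div_den x).symm
  have h2 : v (x.num : ℚ) = v ((x.num.natAbs : ℕ) : ℚ) := by
    rcases Int.natAbs_eq x.num with h | h
    · have h' : (x.num : ℚ) = ((x.num.natAbs : ℕ) : ℚ) := by
        rw [← Int.cast_natCast (R := ℚ) x.num.natAbs, ← h]
      rw [← h']
    · have h' : (x.num : ℚ) = -((x.num.natAbs : ℕ) : ℚ) := by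
        rw [← Int.cast_natCast (R := ℚ) x.num.natAbs, ← Int.cast_neg, ← h]
      rw [h']
      exact v.1.map_neg _
  have h3 : x.num.natAbs ≠ 0 := by simpa using Rat.num_ne_zero.2 hx0
  set a := x.num.natAbs.factorization (pr v) with ha
  set b := x.den.factorization (pr v) with hb
  have h4 : v x = (pr v : ℝ) ^ ((b : ℤ) - a) := by
    conv_lhs => rw [h1]
    rw [map_div₀, h2, apply_natCast v _ h3, apply_natCast v _ x.den_ne_zero, ← ha, ← hb, zpow_sub₀ hpn, zpow_natCast,
      zpow_natCast]
    rw [inv_pow, inv_pow]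
    field_simp
  rw [h4] at hx ⊢
  have h5 : 0 < (b : ℤ) - a := by
    by_contra h
    rw [not_lt] at h
    have := zpow_le_zpow_right₀ hp.le h
    rw [zpow_zero] at this
    linarith
  have h6 : (1 : ℤ) ≤ (b : ℤ) - a := h5
  have := zpow_le_zpow_right₀ hp.le h6
  rwa [zpow_one] at this

private theorem K3a_sum {β : Type} (v : FinitePlace ℚ) (s : Finset β) (F : β → ℚ) (η : ℝ) (hη : 0 ≤ η)
    (h : ∀ b ∈ s, v (F b) ≤ η) : v (∑ b ∈ s, F b) ≤ η := by
  apply Finset.sum_induction F (fun x => v x ≤ η)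
  · intro a b ha hb
    exact (FinitePlace.add_le v a b).trans (max_le ha hb)
  · rwa [map_zero]
  · exact h

private theorem K3a_sum_lt {β : Type} (v : FinitePlace ℚ) (s : Finset β) (F : β → ℚ) (η : ℝ) (hη : 0 < η)
    (h : ∀ b ∈ s, v (F b) < η) : v (∑ b ∈ s, F b) < η := by
  apply Finset.sum_induction F (fun x => v x < η)
  · intro a b ha hb
    exact (FinitePlace.add_le v a b).trans_lt (max_lt ha hb)
  · rwa [map_zero]
  · exact h

private theorem K3a_fin (S : Finset ℚ) : ∃ T : Finset (FinitePlace ℚ), ∀ v ∉ T, ∀ c ∈ S, c ≠ 0 → v c = 1 := by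
  classical
  have hfin : ∀ c : ℚ, {v : FinitePlace ℚ | v c ≠ 1 ∧ c ≠ 0}.Finite := by
    intro c
    by_cases hc : c = 0
    · refine Set.finite_empty.subset fun v hv => ?_
      exact absurd hc hv.2
    · refine (FinitePlace.hasFiniteMulSupport hc).subset fun v hv => ?_
      exact hv.1
  refine ⟨S.biUnion fun c => (hfin c).toFinset, fun v hv c hc hc0 => ?_⟩
  by_contra hcon
  apply hv
  rw [Finset.mem_biUnion]
  refine ⟨c, hc, ?_⟩
  rw [Set.Finite.mem_toFinset]
  exact ⟨hcon, hc0⟩

/-- At almost all places: if the value of a polynomial of degree at most two at an integral point is not a unit, then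
one of the derivatives is larger. -/
theorem grad_gain {σ : Type} [Fintype σ] [DecidableEq σ] (P' : Finset (MvPolynomial σ ℚ))
    (h2 : ∀ q ∈ P', q.totalDegree ≤ 2) : ∃ T : Finset (FinitePlace ℚ), ∀ v ∉ T, ∀ x : σ → ℚ, (∀ i, v (x i) ≤ 1) →
      ∀ q ∈ P', eval x q ≠ 0 → v (eval x q) ≠ 1 →
        v (eval x q) < 1 ∧ ∃ j, v (eval x q) < v (eval x (pderiv j q)) := by
  classical
  choose! N hN using fun (q : MvPolynomial σ ℚ) (hq : q.totalDegree ≤ 2) => exists_formula q hq
  obtain ⟨T1, hT1⟩ := exists_int P'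
  obtain ⟨T2, hT2⟩ := K3a_fin (insert 2 (P'.biUnion fun q => Finset.univ.image fun x : Option σ × Option σ => N q x.1 x.2))
  refine ⟨T1 ∪ T2, fun v hv x hx q hq hq0 hq1 => ?_⟩
  rw [Finset.mem_union, not_or] at hv
  have hle : v (eval x q) ≤ 1 := eval_le_one v q (hT1 v hv.1 q hq) x hx
  have hlt : v (eval x q) < 1 := lt_of_le_of_ne hle hq1
  refine ⟨hlt, ?_⟩
  by_contra hcon
  have hcon' : ∀ j, v (eval x (pderiv j q)) ≤ v (eval x q) := by
    intro j
    by_contra h
    exact hcon ⟨j, not_le.1 h⟩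
  have hpos : 0 < v (eval x q) := v.1.pos hq0
  have h2v : v (2 : ℚ) = 1 := hT2 v hv.2 2 (Finset.mem_insert_self _ _) (by norm_num)
  have hNv : ∀ i j, v (N q i j) ≤ 1 := by
    intro i j
    by_cases h0 : N q i j = 0
    · rw [h0, map_zero]
      exact zero_le_one
    · refine (hT2 v hv.2 _ (Finset.mem_insert_of_mem ?_) h0).le
      rw [Finset.mem_biUnion]
      exact ⟨q, hq, Finset.mem_image.2 ⟨(i, j), Finset.mem_univ _, rfl⟩⟩
  set V : Option σ → ℚ := fun o => o.elim (2 * eval x q - ∑ j, x j * eval x (pderiv j q)) fun j => eval x (pderiv j q) with hV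
  have hform := hN q (h2 q hq) x V rfl fun j => rfl
  have hVle : ∀ i, v (V i) ≤ v (eval x q) := by
    intro i
    cases i with
    | some j => exact hcon' j
    | none =>
      show v (2 * eval x q - ∑ j, x j * eval x (pderiv j q)) ≤ v (eval x q)
      rw [sub_eq_add_neg]
      refine (FinitePlace.add_le v _ _).trans (max_le ?_ ?_)
      · rw [map_mul, h2v, one_mul]
      · have : v (-∑ j, x j * eval x (pderiv j q)) = v (∑ j, x j * eval x (pderiv j q)) := v.1.map_neg _
        rw [this]
        apply K3a_sum v _ _ _ hpos.le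
        intro j _
        rw [map_mul]
        calc v (x j) * v (eval x (pderiv j q)) ≤ 1 * v (eval x q) :=
              mul_le_mul (hx j) (hcon' j) (apply_nonneg v _) zero_le_one
          _ = v (eval x q) := one_mul _
  have h5 : v (2 * eval x q) ≤ v (eval x q) * v (eval x q) := by
    rw [hform]
    apply K3a_sum v _ _ _ (mul_nonneg hpos.le hpos.le)
    intro i _
    apply K3a_sum v _ _ _ (mul_nonneg hpos.le hpos.le)
    intro j _
    rw [map_mul, map_mul]
    calc v (V i) * v (N q i j) * v (V j) ≤ v (eval x q) * 1 * v (eval x q) :=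
          mul_le_mul (mul_le_mul (hVle i) (hNv i j) (apply_nonneg v _) hpos.le) (hVle j) (apply_nonneg v _)
            (mul_nonneg hpos.le zero_le_one)
      _ = v (eval x q) * v (eval x q) := by rw [mul_one]
  rw [map_mul, h2v, one_mul] at h5
  have h6 : v (eval x q) * v (eval x q) < v (eval x q) * 1 := mul_lt_mul_of_pos_left hlt hpos
  rw [mul_one] at h6
  linarith

/-- The gain at the places at which one of the values is not a unit. -/
theorem quad_gain {α β : Type} [Fintype α] [DecidableEq α] [Fintype β] [DecidableEq β]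
    (R : β → MvPolynomial (α ⊕ β) ℚ) (c : ℚ) (hc : c ≠ 0)
    (hdet : (Matrix.of fun k j => pderiv (Sum.inr j) (R k)).det = C c) (P' : Finset (MvPolynomial (α ⊕ β) ℚ))
    (h2 : ∀ q ∈ P', q.totalDegree ≤ 2) (hX' : ∀ i, (X i : MvPolynomial (α ⊕ β) ℚ) ∈ P') (hR' : ∀ k, R k ∈ P') :
    ∃ T : Finset (FinitePlace ℚ), ∀ v ∉ T, ∀ x : α ⊕ β → ℚ, (∀ i, v (x i) ≤ 1) → (∀ l, v (x (Sum.inl l)) = 1) →
      (∀ k, v (eval x (R k)) = 1) → (∀ q ∈ P', eval x q ≠ 0) → (∃ q ∈ P', v (eval x q) ≠ 1) →
      ∃ I, (Ideal.absNorm v.maximalIdeal.asIdeal : ℝ) ≤ v (vec P' x I) := by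
  classical
  obtain ⟨T1, hT1⟩ := grad_gain P' h2
  obtain ⟨T2, hT2⟩ := K3a_fin {c}
  set bs : α ⊕ β → MvPolynomial (α ⊕ β) ℚ := Sum.elim (fun l => X (Sum.inl l)) R with hbs
  obtain ⟨T3, hT3⟩ := exists_int (Finset.univ.image fun x : (α ⊕ β) × (α ⊕ β) => pderiv x.2 (bs x.1))
  refine ⟨T1 ∪ T2 ∪ T3, fun v hv x hx hxl hxR h0 hq => ?_⟩
  rw [Finset.mem_union, Finset.mem_union, not_or, not_or] at hv
  obtain ⟨⟨hv1, hv2⟩, hv3⟩ := hv
  obtain ⟨q, hq, hq1⟩ := hq
  obtain ⟨hlt, j, hj⟩ := hT1 v hv1 x hx q hq (h0 q hq) hq1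
  have hcv : v c = 1 := hT2 v hv2 c (Finset.mem_singleton_self _) hc
  set A : Matrix (α ⊕ β) (α ⊕ β) ℚ := Matrix.of fun i j => eval x (pderiv j (bs i)) with hA
  have hAle : ∀ i j, v (A i j) ≤ 1 := by
    intro i j
    apply eval_le_one v _ _ x hx
    apply hT3 v hv3
    exact Finset.mem_image.2 ⟨(i, j), Finset.mem_univ _, rfl⟩
  have hAdet : A.det = c := by
    have h1 : A = Matrix.fromBlocks 1 0 (Matrix.of fun k l => eval x (pderiv (Sum.inl l) (R k)))
        (Matrix.of fun k j => eval x (pderiv (Sum.inr j) (R k))) := by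
      ext i j
      rcases i with i | i
      · rcases j with j | j
        · rw [Matrix.fromBlocks_apply₁₁, hA, Matrix.of_apply, hbs]
          show eval x (pderiv (Sum.inl j) (X (Sum.inl i))) = _
          rw [pderiv_X, Matrix.one_apply]
          by_cases h : i = j
          · subst h
            simp
          · rw [if_neg h, Pi.single_eq_of_ne, map_zero]
            simpa using h
        · rw [Matrix.fromBlocks_apply₁₂, hA, Matrix.of_apply, hbs]
          show eval x (pderiv (Sum.inr j) (X (Sum.inl i))) = _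
          rw [pderiv_X_of_ne (by simp), map_zero]
          rfl
      · rcases j with j | j
        · rw [Matrix.fromBlocks_apply₂₁]
          rfl
        · rw [Matrix.fromBlocks_apply₂₂]
          rfl
    rw [h1, Matrix.det_fromBlocks_zero₁₂, Matrix.det_one, one_mul]
    have h3 : (Matrix.of fun k j => eval x (pderiv (Sum.inr j) (R k))) =
        (eval x).mapMatrix (Matrix.of fun k j => pderiv (Sum.inr j) (R k)) := by
      ext k j
      rfl
    rw [h3, ← RingHom.map_det, hdet, eval_C]
  set V : α ⊕ β → ℚ := fun l => eval x (pderiv l q) with hV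
  have hpos : 0 < v (eval x q) := v.1.pos (h0 q hq)
  have hVj : 0 < v (V j) := hpos.trans hj
  have hcr := Matrix.mulVec_cramer A.transpose V
  have hi : ∃ i, v (V j) ≤ v ((A.updateRow i V).det) := by
    by_contra hcon
    have hcon' : ∀ i, v ((A.updateRow i V).det) < v (V j) := by
      intro i
      by_contra h
      exact hcon ⟨i, not_lt.1 h⟩
    have h1 := congrFun hcr j
    rw [Matrix.det_transpose, hAdet] at h1
    have h3 : v ((c • V) j) = v (V j) := by
      show v (c * V j) = v (V j)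
      rw [map_mul, hcv, one_mul]
    rw [← h1] at h3
    have h4 : v ((A.transpose.mulVec (A.transpose.cramer V)) j) < v (V j) := by
      show v (∑ i, A.transpose j i * A.transpose.cramer V i) < v (V j)
      apply K3a_sum_lt v _ _ _ hVj
      intro i _
      rw [Matrix.cramer_transpose_apply, map_mul, Matrix.transpose_apply]
      calc v (A i j) * v ((A.updateRow i V).det) ≤ 1 * v ((A.updateRow i V).det) :=
            mul_le_mul_of_nonneg_right (hAle i j) (apply_nonneg v _)
        _ < v (V j) := by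
            rw [one_mul]
            exact hcon' i
    rw [h3] at h4
    exact lt_irrefl _ h4
  obtain ⟨i, hi⟩ := hi
  have hbP : ∀ k, bs k ∈ P' := by
    intro k
    cases k with
    | inl l => exact hX' _
    | inr k => exact hR' k
  set I : α ⊕ β → P' := Function.update (fun k => ⟨bs k, hbP k⟩) i ⟨q, hq⟩ with hI
  refine ⟨I, ?_⟩
  apply absNorm_le
  have hIi : (I i).1 = q := by
    rw [hI, Function.update_self]
  have hIk : ∀ k, k ≠ i → (I k).1 = bs k := by
    intro k hk
    rw [hI, Function.update_of_ne hk]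
  have hvec : vec P' x I = (∏ k, (eval x (I k).1)⁻¹) * (A.updateRow i V).det := by
    unfold vec
    rw [← Matrix.det_mul_column]
    apply congrArg
    ext k l
    rw [Matrix.of_apply, Matrix.of_apply, div_eq_inv_mul]
    by_cases hk : k = i
    · subst hk
      rw [Matrix.updateRow_self, hIi]
    · rw [Matrix.updateRow_ne hk, hIk k hk]
      rfl
  have hprod : v (∏ k, (eval x (I k).1)⁻¹) = (v (eval x q))⁻¹ := by
    rw [map_prod, Finset.prod_eq_single i]
    · rw [map_inv₀, hIi]
    · intro k _ hk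
      rw [map_inv₀, hIk k hk]
      have : v (eval x (bs k)) = 1 := by
        cases k with
        | inl l =>
          show v (eval x (X (Sum.inl l))) = 1
          rw [eval_X]
          exact hxl l
        | inr k => exact hxR k
      rw [this, inv_one]
    · intro h
      exact absurd (Finset.mem_univ i) h
  rw [hvec, map_mul, hprod]
  calc (1 : ℝ) = (v (eval x q))⁻¹ * v (eval x q) := (inv_mul_cancel₀ hpos.ne').symm
    _ < (v (eval x q))⁻¹ * v (V j) := mul_lt_mul_of_pos_left hj (inv_pos.2 hpos)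
    _ ≤ (v (eval x q))⁻¹ * v ((A.updateRow i V).det) := mul_le_mul_of_nonneg_left hi (inv_pos.2 hpos).le

end Pool.Agent.Lib.MP_17a322_nt.GQ
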