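import Pool.Agent.Lib.MP_17a322_nt.GQ.Defs
import Pool.Agent.Lib.MP_17a322_nt.GQ.K2

/-!
Local estimates at one absolute value: every absolute value, and absolute values at which the new variables are small.
-/

namespace Pool.Agent.Lib.MP_17a322_nt.GQ

open MvPolynomial

section

variable {F : Type} [Field F] {α β : Type} [Fintype α] [DecidableEq α] [Fintype β] [DecidableEq β]

/-- The coordinate of `vec` for some variables and the relations. -/
private theorem K3b_vec (R : β → MvPolynomial (α ⊕ β) F) (Φ : α ⊕ β → MvPolynomial (α ⊕ β) F)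
    (hΦ : ∀ l, Φ (Sum.inl l) = X (Sum.inl l)) (hR : ∀ k, aeval Φ (R k) = X (Sum.inr k)) (c : F)
    (hdet : (Matrix.of fun k j => pderiv (Sum.inr j) (R k)).det = C c)
    (P' : Finset (MvPolynomial (α ⊕ β) F)) (hX' : ∀ i, (X i : MvPolynomial (α ⊕ β) F) ∈ P') (hR' : ∀ k, R k ∈ P')
    (n : α → α ⊕ β) (w : α → F) (t : β → F) :
    vec P' (fun i => eval (Sum.elim w t) (Φ i))
      (Sum.elim (fun l => (⟨X (n l), hX' (n l)⟩ : P')) fun k => ⟨R k, hR' k⟩) =
      c * eval (Sum.elim w t) (Matrix.of fun l l' => pderiv (Sum.inl l') (Φ (n l))).det /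
        ((∏ l, eval (Sum.elim w t) (Φ (n l))) * ∏ k, t k) := by
  rw [← det_node R Φ hΦ hR c hdet n w t]
  unfold vec
  have h1 : ∀ i, ((Sum.elim (fun l => (⟨X (n l), hX' (n l)⟩ : P')) fun k => ⟨R k, hR' k⟩) i : P').1 =
      Sum.elim (fun l => X (n l)) R i := by
    intro i
    rcases i with l | k
    · rfl
    · rfl
  simp only [h1]

/-- The lower bound at every absolute value. -/
theorem base_le (R : β → MvPolynomial (α ⊕ β) F) (Φ : α ⊕ β → MvPolynomial (α ⊕ β) F)
    (hΦ : ∀ l, Φ (Sum.inl l) = X (Sum.inl l)) (hR : ∀ k, aeval Φ (R k) = X (Sum.inr k)) (c : F) (hc : c ≠ 0)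
    (hdet : (Matrix.of fun k j => pderiv (Sum.inr j) (R k)).det = C c)
    (P' : Finset (MvPolynomial (α ⊕ β) F)) (hX' : ∀ i, (X i : MvPolynomial (α ⊕ β) F) ∈ P') (hR' : ∀ k, R k ∈ P')
    (v : AbsoluteValue F ℝ) (w : α → F) (t : β → F) (hw : ∀ l, w l ≠ 0) (ht : ∀ k, t k ≠ 0) :
    Real.log (v c) ≤ Real.log (⨆ I, v (vec P' (fun i => eval (Sum.elim w t) (Φ i)) I)) + (∑ l, Real.log (v (w l))) +
      ∑ k, Real.log (v (t k)) := by
  have h1 := K3b_vec R Φ hΦ hR c hdet P' hX' hR' (fun l => Sum.inl l) w t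
  have h2 : (Matrix.of fun l l' => pderiv (Sum.inl l') (Φ (Sum.inl l)) :
      Matrix α α (MvPolynomial (α ⊕ β) F)) = 1 := by
    ext1 l l'
    rw [Matrix.of_apply, hΦ, pderiv_X, Matrix.one_apply]
    by_cases h : l = l'
    · subst h
      rw [if_pos rfl, Pi.single_eq_same]
    · rw [if_neg h, Pi.single_eq_of_ne (by simpa using h)]
  have h3 : ∀ l, eval (Sum.elim w t) (Φ (Sum.inl l)) = w l := by
    intro l
    rw [hΦ, eval_X, Sum.elim_inl]
  simp only [h3] at h1
  rw [h2, Matrix.det_one, map_one, mul_one] at h1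
  have hpw : 0 < ∏ l, v (w l) := Finset.prod_pos fun l _ => v.pos (hw l)
  have hpt : 0 < ∏ k, v (t k) := Finset.prod_pos fun k _ => v.pos (ht k)
  have h4 : v c / ((∏ l, v (w l)) * ∏ k, v (t k)) ≤
      ⨆ I, v (vec P' (fun i => eval (Sum.elim w t) (Φ i)) I) := by
    have h5 := congrArg v h1
    rw [map_div₀, map_mul, map_prod, map_prod] at h5
    rw [← h5]
    exact le_ciSup (f := fun I => v (vec P' (fun i => eval (Sum.elim w t) (Φ i)) I)) (Set.finite_range _).bddAbove _
  have h6 : 0 < v c / ((∏ l, v (w l)) * ∏ k, v (t k)) := div_pos (v.pos hc) (mul_pos hpw hpt)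
  have h7 := Real.log_le_log h6 h4
  rw [Real.log_div (v.pos hc).ne' (mul_pos hpw hpt).ne', Real.log_mul hpw.ne' hpt.ne',
    Real.log_prod fun l _ => (v.pos (hw l)).ne', Real.log_prod fun k _ => (v.pos (ht k)).ne'] at h7
  linarith

omit [Fintype α] [Fintype β] in
/-- The partial derivatives of a polynomial in the old variables. -/
private theorem K3b_pderiv (g : MvPolynomial (α ⊕ β) F) (l : α) :
    pderiv l (aeval (Sum.elim X (fun _ => 0) : α ⊕ β → MvPolynomial α F) g) =
      aeval (Sum.elim X (fun _ => 0) : α ⊕ β → MvPolynomial α F) (pderiv (Sum.inl l) g) := by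
  induction g using MvPolynomial.induction_on with
  | C a =>
    have h1 : (aeval (Sum.elim X (fun _ => 0) : α ⊕ β → MvPolynomial α F) (C a : MvPolynomial (α ⊕ β) F)) =
        (C a : MvPolynomial α F) := by
      rw [aeval_C]
      rfl
    rw [h1, pderiv_C, pderiv_C, map_zero]
  | add p q hp hq => rw [map_add, map_add, map_add, map_add, hp, hq]
  | mul_X p i hp =>
    rw [map_mul, aeval_X, pderiv_mul, hp, pderiv_mul, map_add, map_mul, map_mul, aeval_X]
    rcases i with l' | k
    · rw [Sum.elim_inl, pderiv_X, pderiv_X]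
      by_cases h : l' = l
      · subst h
        rw [Pi.single_eq_same, Pi.single_eq_same, map_one]
      · rw [Pi.single_eq_of_ne h, Pi.single_eq_of_ne (by simpa using h), map_zero]
    · rw [Sum.elim_inr, map_zero, pderiv_X, Pi.single_eq_of_ne (by simp), map_zero]

omit [Fintype α] [DecidableEq α] [Fintype β] [DecidableEq β] in
/-- The values of a polynomial in the old variables. -/
private theorem K3b_eval (g : MvPolynomial (α ⊕ β) F) (w : α → F) :
    eval w (aeval (Sum.elim X (fun _ => 0) : α ⊕ β → MvPolynomial α F) g) = eval (Sum.elim w fun _ => 0) g := by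
  have h := comp_aeval_apply (Sum.elim X (fun _ => 0) : α ⊕ β → MvPolynomial α F)
    (aeval w : MvPolynomial α F →ₐ[F] F) g
  rw [MvPolynomial.aeval_eq_eval] at h
  rw [h]
  have h2 : (fun i => eval w ((Sum.elim X (fun _ => 0) : α ⊕ β → MvPolynomial α F) i)) =
      (Sum.elim w fun _ => 0 : α ⊕ β → F) := by
    funext i
    rcases i with l | k
    · rw [Sum.elim_inl, Sum.elim_inl, eval_X]
    · rw [Sum.elim_inr, Sum.elim_inr, map_zero]
  rw [← h2]
  rfl

/-- The comparison at an absolute value at which the new variables are small. -/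
theorem bad_le (P : Finset (MvPolynomial α F)) (R : β → MvPolynomial (α ⊕ β) F) (Φ : α ⊕ β → MvPolynomial (α ⊕ β) F)
    (hΦ : ∀ l, Φ (Sum.inl l) = X (Sum.inl l)) (hR : ∀ k, aeval Φ (R k) = X (Sum.inr k)) (c : F) (hc : c ≠ 0)
    (hdet : (Matrix.of fun k j => pderiv (Sum.inr j) (R k)).det = C c)
    (node : P → α ⊕ β) (a : P → F) (ha : ∀ p, a p ≠ 0)
    (hnode : ∀ p, aeval (Sum.elim X (fun _ => 0) : α ⊕ β → MvPolynomial α F) (Φ (node p)) = C (a p) * p.1)
    (P' : Finset (MvPolynomial (α ⊕ β) F)) (hX' : ∀ i, (X i : MvPolynomial (α ⊕ β) F) ∈ P') (hR' : ∀ k, R k ∈ P')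
    (v : AbsoluteValue F ℝ) (w : α → F) (t : β → F) (hw : ∀ l, w l ≠ 0) (ht : ∀ k, t k ≠ 0)
    (hXP : ∀ l, (X l : MvPolynomial α F) ∈ P) (hP : ∀ p ∈ P, eval w p ≠ 0) (ρ : ℝ) (hρ : 1 ≤ ρ)
    (h0 : ∀ p, eval (Sum.elim w t) (Φ (node p)) ≠ 0)
    (h1 : ∀ p, v (eval (Sum.elim w t) (Φ (node p))) ≤ ρ * v (eval (Sum.elim w fun _ => 0) (Φ (node p))))
    (h2 : ∀ J : α → P, v (eval (Sum.elim w fun _ => 0) (Matrix.of fun l l' => pderiv (Sum.inl l') (Φ (node (J l)))).det) ≤
      ρ * v (eval (Sum.elim w t) (Matrix.of fun l l' => pderiv (Sum.inl l') (Φ (node (J l)))).det)) :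
    Real.log (⨆ J, v (vec P w J)) ≤ Real.log (⨆ I, v (vec P' (fun i => eval (Sum.elim w t) (Φ i)) I)) +
      (∑ k, Real.log (v (t k))) + ((Fintype.card α + 1) * Real.log ρ - Real.log (v c)) := by
  have hρ0 : 0 < ρ := lt_of_lt_of_le one_pos hρ
  have hvc : 0 < v c := v.pos hc
  have hpt : 0 < ∏ k, v (t k) := Finset.prod_pos fun k _ => v.pos (ht k)
  have hne : Nonempty (α → P) := ⟨fun l => ⟨X l, hXP l⟩⟩
  -- the value of `vec P w` in terms of the nodes
  have hval : ∀ p : P, eval (Sum.elim w fun _ => 0) (Φ (node p)) = a p * eval w p.1 := by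
    intro p
    rw [← K3b_eval, hnode, map_mul, eval_C]
  have hder : ∀ (p : P) (l : α), eval (Sum.elim w fun _ => 0) (pderiv (Sum.inl l) (Φ (node p))) =
      a p * eval w (pderiv l p.1) := by
    intro p l
    rw [← K3b_eval, ← K3b_pderiv, hnode, pderiv_C_mul, map_mul, eval_C]
  have hvec : ∀ J : α → P, vec P w J = eval (Sum.elim w fun _ => 0)
      (Matrix.of fun l l' => pderiv (Sum.inl l') (Φ (node (J l)))).det /
        ∏ l, eval (Sum.elim w fun _ => 0) (Φ (node (J l))) := by
    intro J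
    have h3 := RingHom.map_det (eval (Sum.elim w fun _ => 0 : α ⊕ β → F))
      (Matrix.of fun l l' => pderiv (Sum.inl l') (Φ (node (J l))))
    rw [h3, RingHom.mapMatrix_apply]
    have h4 : (Matrix.of fun l l' => pderiv (Sum.inl l') (Φ (node (J l)))).map
        (eval (Sum.elim w fun _ => 0 : α ⊕ β → F)) =
        Matrix.of fun l l' => eval (Sum.elim w fun _ => 0) (Φ (node (J l))) *
          (Matrix.of fun k l => eval w (pderiv l (J k).1) / eval w (J k).1) l l' := by
      ext1 l l'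
      rw [Matrix.map_apply, Matrix.of_apply, Matrix.of_apply, Matrix.of_apply, hder, hval]
      have h5 : eval w (J l).1 ≠ 0 := hP _ (J l).2
      field_simp
    rw [h4, Matrix.det_mul_column]
    have h6 : (∏ l, eval (Sum.elim w fun _ => 0) (Φ (node (J l)))) ≠ 0 := by
      refine Finset.prod_ne_zero_iff.2 fun l _ => ?_
      rw [hval]
      exact mul_ne_zero (ha _) (hP _ (J l).2)
    rw [mul_div_cancel_left₀ _ h6]
    rfl
  -- the comparison for one choice
  have hone : ∀ J : α → P, v (vec P w J) ≤ ρ ^ (Fintype.card α + 1) * (∏ k, v (t k)) / v c *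
      ⨆ I, v (vec P' (fun i => eval (Sum.elim w t) (Φ i)) I) := by
    intro J
    have h3 := K3b_vec R Φ hΦ hR c hdet P' hX' hR' (fun l => node (J l)) w t
    have h4 : v (vec P' (fun i => eval (Sum.elim w t) (Φ i))
        (Sum.elim (fun l => (⟨X (node (J l)), hX' (node (J l))⟩ : P')) fun k => ⟨R k, hR' k⟩)) ≤
        ⨆ I, v (vec P' (fun i => eval (Sum.elim w t) (Φ i)) I) :=
      le_ciSup (f := fun I => v (vec P' (fun i => eval (Sum.elim w t) (Φ i)) I)) (Set.finite_range _).bddAbove _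
    rw [h3, map_div₀, map_mul, map_mul, map_prod, map_prod] at h4
    have hpos : ∀ l, 0 < v (eval (Sum.elim w t) (Φ (node (J l)))) := fun l => v.pos (h0 _)
    have hpos0 : ∀ l, 0 < v (eval (Sum.elim w fun _ => 0) (Φ (node (J l)))) := by
      intro l
      apply v.pos
      rw [hval]
      exact mul_ne_zero (ha _) (hP _ (J l).2)
    have hprod : 0 < ∏ l, v (eval (Sum.elim w t) (Φ (node (J l)))) := Finset.prod_pos fun l _ => hpos l
    have hprod0 : 0 < ∏ l, v (eval (Sum.elim w fun _ => 0) (Φ (node (J l)))) := Finset.prod_pos fun l _ => hpos0 l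
    have h5 : ∏ l, v (eval (Sum.elim w t) (Φ (node (J l)))) ≤
        ρ ^ Fintype.card α * ∏ l, v (eval (Sum.elim w fun _ => 0) (Φ (node (J l)))) := by
      have h6 : ρ ^ Fintype.card α * ∏ l, v (eval (Sum.elim w fun _ => 0) (Φ (node (J l)))) =
          ∏ l, ρ * v (eval (Sum.elim w fun _ => 0) (Φ (node (J l)))) := by
        rw [Finset.prod_mul_distrib, Finset.prod_const, Finset.card_univ]
      rw [h6]
      exact Finset.prod_le_prod (fun l _ => (hpos l).le) fun l _ => h1 _
    rw [hvec, map_div₀, map_prod, div_le_iff₀ hprod0]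
    have h7 := h2 J
    set D := v (eval (Sum.elim w t) (Matrix.of fun l l' => pderiv (Sum.inl l') (Φ (node (J l)))).det) with hD
    set A := ∏ l, v (eval (Sum.elim w t) (Φ (node (J l)))) with hA
    set A0 := ∏ l, v (eval (Sum.elim w fun _ => 0) (Φ (node (J l)))) with hA0
    set T := ∏ k, v (t k) with hT
    set M := ⨆ I, v (vec P' (fun i => eval (Sum.elim w t) (Φ i)) I) with hM
    have h8 : v c * D ≤ M * (A * T) := (div_le_iff₀ (mul_pos hprod hpt)).1 h4
    have hM0 : 0 ≤ M := Real.iSup_nonneg fun I => v.nonneg _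
    have h9 : v c * (ρ * D) ≤ M * T * (ρ ^ (Fintype.card α + 1) * A0) := by
      calc v c * (ρ * D) = ρ * (v c * D) := by ring
        _ ≤ ρ * (M * (A * T)) := mul_le_mul_of_nonneg_left h8 hρ0.le
        _ = (ρ * M * T) * A := by ring
        _ ≤ (ρ * M * T) * (ρ ^ Fintype.card α * A0) := mul_le_mul_of_nonneg_left h5 (by positivity)
        _ = M * T * (ρ ^ (Fintype.card α + 1) * A0) := by ring
    refine h7.trans ?_
    have h10 : ρ ^ (Fintype.card α + 1) * T / v c * M * A0 = M * T * (ρ ^ (Fintype.card α + 1) * A0) / v c := by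
      ring
    rw [h10, le_div_iff₀ hvc]
    calc ρ * D * v c = v c * (ρ * D) := by ring
      _ ≤ _ := h9
  have hsup : (⨆ J, v (vec P w J)) ≤ ρ ^ (Fintype.card α + 1) * (∏ k, v (t k)) / v c *
      ⨆ I, v (vec P' (fun i => eval (Sum.elim w t) (Φ i)) I) := ciSup_le hone
  -- the left side is positive
  have hX : vec P w (fun l => ⟨X l, hXP l⟩) ≠ 0 := by
    unfold vec
    have h3 : (Matrix.of fun k l => eval w (pderiv l (X k : MvPolynomial α F)) / eval w (X k : MvPolynomial α F)) =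
        Matrix.diagonal fun k => (w k)⁻¹ := by
      ext1 k l
      rw [Matrix.of_apply, pderiv_X, eval_X]
      by_cases h : k = l
      · subst h
        rw [Pi.single_eq_same, map_one, Matrix.diagonal_apply_eq, one_div]
      · rw [Pi.single_eq_of_ne h, map_zero, zero_div, Matrix.diagonal_apply_ne _ h]
    rw [h3, Matrix.det_diagonal]
    exact Finset.prod_ne_zero_iff.2 fun l _ => inv_ne_zero (hw l)
  have hpos : 0 < ⨆ J, v (vec P w J) :=
    lt_of_lt_of_le (v.pos hX) (le_ciSup (f := fun J => v (vec P w J)) (Set.finite_range _).bddAbove _)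
  have hfac : 0 < ρ ^ (Fintype.card α + 1) * (∏ k, v (t k)) / v c := by positivity
  have hM : 0 < ⨆ I, v (vec P' (fun i => eval (Sum.elim w t) (Φ i)) I) := by
    by_contra h
    have h3 := mul_nonpos_of_nonneg_of_nonpos hfac.le (not_lt.1 h)
    linarith
  have h3 := Real.log_le_log hpos hsup
  rw [Real.log_mul hfac.ne' hM.ne', Real.log_div (mul_pos (pow_pos hρ0 _) hpt).ne' hvc.ne',
    Real.log_mul (pow_pos hρ0 _).ne' hpt.ne', Real.log_pow, Real.log_prod fun k _ => (v.pos (ht k)).ne'] at h3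
  push_cast at h3
  linarith

end

end Pool.Agent.Lib.MP_17a322_nt.GQ
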