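import Mathlib

/-!
The height of the new point and the choice of the integers `c`.
-/

namespace Pool.Agent.Lib.MP_17a322_nt.GQ

open MvPolynomial Height NumberField

/-- A bound for the height of a vector of polynomials at points with a coordinate 1. -/
private theorem K4a_height {ι κ : Type} [Finite ι] [Finite κ] (i₀ : ι)
    (P : κ → MvPolynomial ι ℚ) (E : ℕ) (hE : ∀ o, (P o).totalDegree ≤ E) :
    ∃ C2 : ℝ, ∀ z : ι → ℚ, z i₀ = 1 → logHeight (fun o => eval z (P o)) ≤ E * logHeight z + C2 := by
  let Q : κ → MvPolynomial ι ℚ := fun o =>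
    ∑ k ∈ Finset.range (E + 1), X i₀ ^ (E - k) * homogeneousComponent k (P o)
  have hQ : ∀ o, (Q o).IsHomogeneous E := by
    intro o
    refine IsHomogeneous.sum _ _ _ fun k hk => ?_
    have h1 : E - k + k = E := by
      have := Finset.mem_range.1 hk
      omega
    have h2 := (isHomogeneous_X_pow (R := ℚ) i₀ (E - k)).mul
      (homogeneousComponent_isHomogeneous k (P o))
    rwa [h1] at h2
  obtain ⟨C, hC⟩ := logHeight_eval_le' hQ
  refine ⟨C, fun z hz => ?_⟩
  have h1 : ∀ o, eval z (Q o) = eval z (P o) := by
    intro o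
    have h2 : P o = ∑ k ∈ Finset.range (E + 1), homogeneousComponent k (P o) := by
      conv_lhs => rw [← sum_homogeneousComponent (P o)]
      refine Finset.sum_subset ?_ ?_
      · intro k hk
        rw [Finset.mem_range] at hk ⊢
        have := hE o
        omega
      · intro k _ hk
        rw [Finset.mem_range, not_lt] at hk
        exact homogeneousComponent_eq_zero _ _ (by omega)
    conv_rhs => rw [h2]
    simp only [Q, map_sum, map_mul, map_pow, eval_X, hz, one_pow, one_mul]
  have h2 := hC z
  simp only [h1] at h2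
  linarith

/-- Heights of values of polynomials. -/
private theorem K4a_poly {τ ρ : Type} [Finite τ] [Finite ρ] (P : ρ → MvPolynomial τ ℚ) :
    ∃ (D C : ℝ), 0 ≤ D ∧ ∀ w : τ → ℚ, logHeight (fun a => eval w (P a)) ≤
      D * logHeight (fun o : Option τ => o.elim 1 w) + C := by
  classical
  cases nonempty_fintype ρ
  let E : ℕ := ∑ a : ρ, (rename (some : τ → Option τ) (P a)).totalDegree
  obtain ⟨C, hC⟩ := K4a_height (none : Option τ) (fun a => rename (some : τ → Option τ) (P a)) E
    fun a => Finset.single_le_sum (f := fun a => (rename (some : τ → Option τ) (P a)).totalDegree)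
      (fun _ _ => Nat.zero_le _) (Finset.mem_univ a)
  refine ⟨E, C, Nat.cast_nonneg _, fun w => ?_⟩
  have h1 := hC (fun o : Option τ => o.elim 1 w) rfl
  have h2 : (fun a => eval (fun o : Option τ => o.elim 1 w) (rename (some : τ → Option τ) (P a))) =
      fun a => eval w (P a) := by
    funext a
    rw [eval_rename]
    rfl
  rwa [h2] at h1

/-- The height of a point whose coordinates are those of another point and some further numbers. -/
private theorem K4a_join {α γ : Type} [Fintype α] [Fintype γ] (w : α → ℚ) (t : γ → ℚ) :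
    logHeight (fun o : Option (α ⊕ γ) => o.elim 1 (Sum.elim w t)) ≤
      logHeight (fun o : Option α => o.elim 1 w) + ∑ k, logHeight₁ (t k) := by
  classical
  have hx : (fun o : Option α => o.elim 1 w) ≠ 0 := fun h => one_ne_zero (congrFun h none)
  have hy' : ∀ k, (![t k, 1] : Fin 2 → ℚ) ≠ 0 := fun k h => one_ne_zero (congrFun h 1)
  have hy : (fun I : γ → Fin 2 => ∏ k, (![t k, 1] : Fin 2 → ℚ) (I k)) ≠ 0 := by
    intro h
    have h1 := congrFun h fun _ => 1
    simp at h1
  have h1 := logHeight_fun_mul_eq hx hy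
  have h2 := logHeight_fun_prod_eq (x := fun k : γ => (![t k, 1] : Fin 2 → ℚ)) hy'
  have h3 := logHeight_comp_le (fun o : Option (α ⊕ γ) =>
    (o.elim ((none : Option α), (fun _ => 1 : γ → Fin 2)) (Sum.elim (fun l => (some l, fun _ => 1))
      fun k => (none, Function.update (fun _ => 1) k 0))))
    (fun a : Option α × (γ → Fin 2) => a.1.elim 1 w * ∏ k, (![t k, 1] : Fin 2 → ℚ) (a.2 k))
  have h4 : (fun a : Option α × (γ → Fin 2) => a.1.elim 1 w * ∏ k, (![t k, 1] : Fin 2 → ℚ) (a.2 k)) ∘
      (fun o : Option (α ⊕ γ) =>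
        (o.elim ((none : Option α), (fun _ => 1 : γ → Fin 2)) (Sum.elim (fun l => (some l, fun _ => 1))
        fun k => (none, Function.update (fun _ => 1) k 0)))) =
      fun o : Option (α ⊕ γ) => o.elim 1 (Sum.elim w t) := by
    funext o
    rcases o with _ | (l | k)
    · simp
    · simp
    · simp only [Function.comp_apply, Option.elim_some, Sum.elim_inr, Option.elim_none, one_mul]
      rw [Finset.prod_eq_single k]
      · simp
      · intro j _ hj
        rw [Function.update_of_ne hj]
        rfl
      · intro h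
        exact absurd (Finset.mem_univ k) h
  rw [h4] at h3
  refine h3.trans ?_
  refine h1.le.trans ?_
  rw [h2]
  simp only [logHeight₁_eq_logHeight, le_refl]

/-- The height of the new point. -/
theorem height_pt {α β : Type} [Fintype α] [Fintype β] (Φ : α ⊕ β → MvPolynomial (α ⊕ β) ℚ) :
    ∃ C₁ : ℝ, 0 ≤ C₁ ∧ ∀ c₀ : ℕ, ∃ C₂ : ℝ, ∀ (w : α → ℚ) (δ : ℚ) (c : β → ℕ), (∀ k, c k ≤ c₀) →
      logHeight (fun o : Option (α ⊕ β) => o.elim 1 fun i => eval (Sum.elim w fun k => c k * δ) (Φ i)) ≤
        C₁ * (logHeight (fun o : Option α => o.elim 1 w) + logHeight₁ δ) + C₂ := by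
  obtain ⟨D, C, hD, H⟩ := K4a_poly (fun o : Option (α ⊕ β) => (o.elim 1 fun i =>
    bind₁ (Sum.elim (fun l => X (Sum.inl l)) fun k => X (Sum.inr (some k)) * X (Sum.inr none)) (Φ i) :
      MvPolynomial (α ⊕ Option β) ℚ))
  refine ⟨D, hD, fun c₀ => ⟨D * (Fintype.card β * Real.log (c₀ + 1)) + C, fun w δ c hc => ?_⟩⟩
  have h1 := H (Sum.elim w fun o : Option β => o.elim δ fun k => (c k : ℚ))
  have h2 : (fun o : Option (α ⊕ β) => eval (Sum.elim w fun o : Option β => o.elim δ fun k => (c k : ℚ))
      (o.elim 1 fun i => bind₁ (Sum.elim (fun l => X (Sum.inl l)) fun k => X (Sum.inr (some k)) * X (Sum.inr none)) (Φ i) :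
      MvPolynomial (α ⊕ Option β) ℚ)) =
      fun o : Option (α ⊕ β) => o.elim 1 fun i => eval (Sum.elim w fun k => c k * δ) (Φ i) := by
    funext o
    rcases o with _ | i
    · simp
    · simp only [Option.elim_some]
      have h3 : ∀ p : MvPolynomial (α ⊕ β) ℚ, eval (Sum.elim w fun o : Option β => o.elim δ fun k => (c k : ℚ))
          (bind₁ (Sum.elim (fun l => X (Sum.inl l)) fun k => X (Sum.inr (some k)) * X (Sum.inr none)) p) =
          eval (Sum.elim w fun k => c k * δ) p := by
        intro p
        induction p using MvPolynomial.induction_on with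
        | C a => simp
        | add p q hp hq => rw [map_add, map_add, map_add, hp, hq]
        | mul_X p i hp =>
          rw [map_mul, map_mul, map_mul, hp, bind₁_X_right, eval_X]
          rcases i with l | k <;> simp
      exact h3 _
  rw [h2] at h1
  have h3 := K4a_join w fun o : Option β => o.elim δ fun k => (c k : ℚ)
  rw [Fintype.sum_option] at h3
  simp only [Option.elim_none, Option.elim_some] at h3
  have h4 : ∑ k, logHeight₁ ((c k : ℕ) : ℚ) ≤ Fintype.card β * Real.log (c₀ + 1) := by
    refine (Finset.sum_le_card_nsmul _ _ (Real.log (c₀ + 1)) fun k _ => ?_).trans ?_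
    · rcases Nat.eq_zero_or_pos (c k) with h | h
      · rw [h, Nat.cast_zero, logHeight₁_zero]
        exact Real.log_nonneg (by
          have : (0 : ℝ) ≤ c₀ := Nat.cast_nonneg _
          linarith)
      · have : NeZero (c k) := ⟨h.ne'⟩
        rw [Rat.logHeight₁_natCast]
        apply Real.log_le_log (by exact_mod_cast h)
        have : ((c k : ℕ) : ℝ) ≤ c₀ := by exact_mod_cast hc k
        linarith
    · rw [nsmul_eq_mul, Finset.card_univ]
  have h5 := mul_le_mul_of_nonneg_left (h3.trans (add_le_add_right (add_le_add_right h4 _) _)) hD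
  have h6 : D * (logHeight (fun o : Option α => o.elim 1 w) + (logHeight₁ δ + Fintype.card β * Real.log (c₀ + 1))) =
      D * (logHeight (fun o : Option α => o.elim 1 w) + logHeight₁ δ) +
        D * (Fintype.card β * Real.log (c₀ + 1)) := by ring
  linarith

/-- The choice of the integers `c`. -/
theorem exists_c {α β : Type} [Fintype α] [Fintype β] (H : MvPolynomial (α ⊕ β) ℚ) (hH : H ≠ 0) :
    ∃ (G : MvPolynomial α ℚ) (c₀ : ℕ), G ≠ 0 ∧ ∀ w : α → ℚ, eval w G ≠ 0 → ∀ δ : ℚ, δ ≠ 0 →
      ∃ c : β → ℕ, (∀ k, 1 ≤ c k ∧ c k ≤ c₀) ∧ eval (Sum.elim w fun k => c k * δ) H ≠ 0 := by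
  classical
  set P : MvPolynomial β (MvPolynomial α ℚ) := sumAlgEquiv ℚ β α (rename Sum.swap H) with hP
  have hP0 : P ≠ 0 := by
    rw [hP, Ne, EmbeddingLike.map_eq_zero_iff]
    intro h
    apply hH
    apply rename_injective _ (Sum.swap_leftInverse.injective)
    rw [h, map_zero]
  have heval : ∀ (w : α → ℚ) (t : β → ℚ), eval t (map (eval w) P) = eval (Sum.elim w t) H := by
    intro w t
    rw [hP]
    clear_value P
    clear hP hP0 hH
    induction H using MvPolynomial.induction_on with
    | C a => simp
    | add p q hp hq => simp only [map_add, hp, hq]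
    | mul_X p i hp =>
      simp only [map_mul, hp, rename_X]
      rcases i with l | k
      · simp
      · simp
  obtain ⟨m, hm⟩ := ne_zero_iff.1 hP0
  refine ⟨coeff m P, Finset.univ.sup (fun i => P.degreeOf i) + 1, hm, fun w hw δ hδ => ?_⟩
  by_contra hne
  push Not at hne
  have h1 : map (eval w) P = 0 := by
    apply eq_zero_of_eval_zero_at_prod_finset _ (fun _ => (Finset.range (Finset.univ.sup (fun i => P.degreeOf i) + 1)).image
      fun n : ℕ => ((n + 1 : ℕ) : ℚ) * δ)
    · intro i
      rw [Finset.card_image_of_injective, Finset.card_range]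
      · have h2 : (map (eval w) P).degreeOf i ≤ P.degreeOf i := by
          rw [degreeOf_def, degreeOf_def]
          exact Multiset.count_le_of_le _ degrees_map_le
        have h3 : P.degreeOf i ≤ Finset.univ.sup (fun i => P.degreeOf i) :=
          Finset.le_sup (f := fun i => P.degreeOf i) (Finset.mem_univ i)
        omega
      · intro a b hab
        have h2 := mul_right_cancel₀ hδ hab
        have h3 : a + 1 = b + 1 := by exact_mod_cast h2
        omega
    · intro x hx
      choose n hn using fun i => Finset.mem_image.1 (hx i)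
      have h2 := hne (fun i => n i + 1) (fun k => ⟨by omega, by
        have := Finset.mem_range.1 (hn k).1
        omega⟩)
      rw [heval]
      have h3 : x = fun k => ((n k + 1 : ℕ) : ℚ) * δ := by
        funext k
        exact (hn k).2.symm
      rw [h3]
      exact h2
  have h2 := congrArg (coeff m) h1
  rw [coeff_map, coeff_zero] at h2
  exact hw h2

end Pool.Agent.Lib.MP_17a322_nt.GQ
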