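import Pool.Agent.Lib.MP_17a322_nt.GQ.K1b
import Pool.Agent.Lib.MP_17a322_nt.EQ.P1
import Pool.Agent.Lib.MP_17a322_nt.EQ.P1b

/-!
The sum over all places of the local inequalities.
-/

namespace Pool.Agent.Lib.MP_17a322_nt.GQ

open MvPolynomial hiding psum
open Height NumberField
open Pool.Agent.Lib.MP_17a322_nt.EQ

private theorem K4b_abv {x : ℚ} (hx : x ≠ 0) : FS fun v : Pl ℚ => Real.log (av v x) := by
  have h := FS_log (K := ℚ) (fun _ : Unit => x)
  simpa only [ciSup_const] using h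

private theorem K4b_sum {β : Type} (s : Finset β) (F : β → Pl ℚ → ℝ) (hF : ∀ k ∈ s, FS (F k)) :
    FS (fun v => ∑ k ∈ s, F k v) ∧ psum (fun v => ∑ k ∈ s, F k v) = ∑ k ∈ s, psum (F k) := by
  classical
  induction s using Finset.induction_on with
  | empty =>
    have h0 : FS (fun v : Pl ℚ => ∑ k ∈ (∅ : Finset β), F k v) := by
      rw [FS]
      convert Set.finite_empty
      ext w
      simp
    refine ⟨h0, ?_⟩
    simp [psum]
  | insert a s ha ih =>
    obtain ⟨h1, h2⟩ := ih fun k hk => hF k (Finset.mem_insert_of_mem hk)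
    have h3 : FS (F a) := hF a (Finset.mem_insert_self a s)
    have h4 : (fun v => ∑ k ∈ insert a s, F k v) = fun v => F a v + ∑ k ∈ s, F k v := by
      funext v
      rw [Finset.sum_insert ha]
    rw [h4, Finset.sum_insert ha, psum_add h3 h1, h2]
    exact ⟨h3.add h1, rfl⟩

/-- The sum over all places of the local inequalities. -/
theorem sum_le {ι ι' β : Type} [Finite ι] [Finite ι'] [Fintype β] (x : ι → ℚ) (x' : ι' → ℚ) (hx : x ≠ 0) (hx' : x' ≠ 0)
    (t : β → ℚ) (ht : ∀ k, t k ≠ 0) (c : ℚ) (hc : c ≠ 0) (κ : ℝ) (g : Set (FinitePlace ℚ)) (hg : g.Finite)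
    (hi : ∀ v : InfinitePlace ℚ, Real.log (⨆ i, v (x i)) ≤ Real.log (⨆ i, v (x' i)) + (∑ k, Real.log (v (t k))) +
      (κ - Real.log (v c)))
    (hf : ∀ v : FinitePlace ℚ, v ∉ g → Real.log (⨆ i, v (x i)) ≤ Real.log (⨆ i, v (x' i)) +
      (∑ k, Real.log (v (t k))) - Real.log (v c))
    (hfg : ∀ v : FinitePlace ℚ, v ∈ g → Real.log (⨆ i, v (x i)) + Real.log (Ideal.absNorm v.maximalIdeal.asIdeal) ≤
      Real.log (⨆ i, v (x' i)) + (∑ k, Real.log (v (t k))) - Real.log (v c)) :
    logHeight x + ∑ᶠ v ∈ g, Real.log (Ideal.absNorm v.maximalIdeal.asIdeal) ≤ logHeight x' + κ := by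
  classical
  obtain ⟨gf, hgf⟩ : ∃ gf : Pl ℚ → ℝ, gf = Sum.elim (fun _ => 0)
      (fun v : FinitePlace ℚ => if v ∈ g then Real.log (Ideal.absNorm v.maximalIdeal.asIdeal) else 0) := ⟨_, rfl⟩
  obtain ⟨kf, hkf⟩ : ∃ kf : Pl ℚ → ℝ, kf = Sum.elim (fun _ => κ) (fun _ => 0) := ⟨_, rfl⟩
  have F1 := FS_log (K := ℚ) x
  have F2 : FS gf := by
    refine hg.subset fun w hw => ?_
    by_contra h
    apply hw
    rw [hgf]
    simp only [Sum.elim_inr]
    rw [if_neg h]
  have F3 := FS_log (K := ℚ) x'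
  obtain ⟨F4, S4⟩ := K4b_sum Finset.univ (fun k v => Real.log (av v (t k))) fun k _ => K4b_abv (ht k)
  have F5 : FS kf := by
    rw [FS]
    convert Set.finite_empty
    ext w
    rw [hkf]
    simp
  have F6 : FS fun v : Pl ℚ => (-1 : ℝ) * Real.log (av v c) := (K4b_abv hc).mul_left fun _ => -1
  have P1 : psum gf = ∑ᶠ v ∈ g, Real.log (Ideal.absNorm v.maximalIdeal.asIdeal) := by
    rw [psum, hgf]
    simp only [Sum.elim_inl, Sum.elim_inr, mul_zero, Finset.sum_const_zero, zero_add]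
    refine finsum_congr fun v => ?_
    by_cases h : v ∈ g
    · rw [if_pos h, finsum_eq_if, if_pos h]
    · rw [if_neg h, finsum_eq_if, if_neg h]
  have P2 : psum kf = κ := by
    rw [psum, hkf]
    simp only [Sum.elim_inl, Sum.elim_inr, finsum_zero, add_zero]
    rw [← Finset.sum_mul]
    have h1 : ∑ v : InfinitePlace ℚ, (v.mult : ℝ) = 1 := by
      have h2 := NumberField.InfinitePlace.sum_mult_eq (K := ℚ)
      rw [Module.finrank_self] at h2
      exact_mod_cast h2
    rw [h1, one_mul]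
  have hloc : ∀ v : Pl ℚ, Real.log (⨆ i, av v (x i)) + gf v ≤
      ((Real.log (⨆ i, av v (x' i)) + ∑ k, Real.log (av v (t k))) + kf v) + (-1) * Real.log (av v c) := by
    intro v
    rcases v with v | v
    · have h1 := hi v
      rw [hgf, hkf]
      simp only [Sum.elim_inl]
      change Real.log (⨆ i, v (x i)) + 0 ≤ ((Real.log (⨆ i, v (x' i)) + ∑ k, Real.log (v (t k))) + κ) +
        (-1) * Real.log (v c)
      linarith
    · rw [hgf, hkf]
      simp only [Sum.elim_inr]
      change Real.log (⨆ i, v (x i)) + (if v ∈ g then _ else 0) ≤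
        ((Real.log (⨆ i, v (x' i)) + ∑ k, Real.log (v (t k))) + 0) + (-1) * Real.log (v c)
      by_cases h : v ∈ g
      · rw [if_pos h]
        have h1 := hfg v h
        linarith
      · rw [if_neg h]
        have h1 := hf v h
        linarith
  have h := psum_le (F1.add F2) (((F3.add F4).add F5).add F6) hloc
  rw [psum_add F1 F2, psum_add ((F3.add F4).add F5) F6, psum_add (F3.add F4) F5, psum_add F3 F4, psum_log hx,
    psum_log hx', P1, P2, S4, psum_mul, psum_log_abv hc, Finset.sum_eq_zero fun k _ => psum_log_abv (ht k)] at h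
  linarith

/-- The sum over a union. -/
theorem sum_union (A B : Set (FinitePlace ℚ)) (hA : A.Finite) (hB : B.Finite) :
    ∑ᶠ v ∈ A ∪ B, Real.log (Ideal.absNorm v.maximalIdeal.asIdeal) ≤
      ∑ᶠ v ∈ A, Real.log (Ideal.absNorm v.maximalIdeal.asIdeal) +
        ∑ᶠ v ∈ B, Real.log (Ideal.absNorm v.maximalIdeal.asIdeal) := by
  have h1 := finsum_mem_union_inter (f := fun v : FinitePlace ℚ => Real.log (Ideal.absNorm v.maximalIdeal.asIdeal)) hA hB
  have h2 : 0 ≤ ∑ᶠ v ∈ A ∩ B, Real.log (Ideal.absNorm v.maximalIdeal.asIdeal) :=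
    finsum_nonneg fun v => finsum_nonneg fun _ => Real.log_natCast_nonneg _
  linarith

/-- The sum over a subset. -/
theorem sum_mono (A B : Set (FinitePlace ℚ)) (hB : B.Finite) (h : A ⊆ B) :
    ∑ᶠ v ∈ A, Real.log (Ideal.absNorm v.maximalIdeal.asIdeal) ≤
      ∑ᶠ v ∈ B, Real.log (Ideal.absNorm v.maximalIdeal.asIdeal) := by
  have h0 := finsum_mem_inter_add_sdiff A (f := fun v : FinitePlace ℚ => Real.log (Ideal.absNorm v.maximalIdeal.asIdeal)) hB
  rw [Set.inter_eq_self_of_subset_right h] at h0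
  have h2 : 0 ≤ ∑ᶠ v ∈ B \ A, Real.log (Ideal.absNorm v.maximalIdeal.asIdeal) :=
    finsum_nonneg fun v => finsum_nonneg fun _ => Real.log_natCast_nonneg _
  linarith

end Pool.Agent.Lib.MP_17a322_nt.GQ
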