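import Pool.Agent.Lib.MP_17a322_nt.GQ.K1c
import Pool.Agent.Lib.MP_17a322_nt.GQ.K3a
import Pool.Agent.Lib.MP_17a322_nt.GQ.K3b
import Pool.Agent.Lib.MP_17a322_nt.GQ.K4a
import Pool.Agent.Lib.MP_17a322_nt.GQ.K4b

/-!
The abc inequality for a finite set of polynomials of degree at most two in many variables implies the abc inequality
for the polynomials which are computed with it.
-/

namespace Pool.Agent.Lib.MP_17a322_nt.GQ

open MvPolynomial hiding psum
open Height NumberField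
open Pool.Agent.Lib.MP_17a322_nt.EQ

private theorem K4_unit (v : FinitePlace ℚ) {x y : ℚ} (h : v (x - y) < v y) : v x = v y := by
  apply le_antisymm
  · have h1 := FinitePlace.add_le v (x - y) y
    rw [sub_add_cancel] at h1
    exact h1.trans (max_le h.le le_rfl)
  · by_contra hc
    push Not at hc
    have h1 := FinitePlace.add_le v x (y - x)
    rw [add_sub_cancel, map_sub_rev] at h1
    exact absurd h1 (not_le.2 (max_lt hc h))

/-- A nonzero number is a unit at almost all places. -/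
private theorem K4_fin {x : ℚ} (hx : x ≠ 0) : {v : FinitePlace ℚ | v x ≠ 1}.Finite :=
  FinitePlace.mulSupport_finite hx

private theorem K4_vec_ne {F : Type} [Field F] {α : Type} [Fintype α] [DecidableEq α] (P : Finset (MvPolynomial α F))
    (hX : ∀ l, (X l : MvPolynomial α F) ∈ P) (w : α → F) (hw : ∀ l, w l ≠ 0) : vec P w ≠ 0 := by
  intro h
  have h1 := congrFun h fun l => ⟨X l, hX l⟩
  have h2 : (Matrix.of fun k l : α => eval w (pderiv l (X k : MvPolynomial α F)) / eval w (X k : MvPolynomial α F)) =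
      Matrix.diagonal fun k => (w k)⁻¹ := by
    ext k l
    rw [Matrix.of_apply, pderiv_X, eval_X]
    by_cases h : k = l
    · subst h
      simp
    · rw [Matrix.diagonal_apply_ne _ h, Pi.single_eq_of_ne h]
      simp
  rw [vec] at h1
  change (Matrix.of fun k l : α => eval w (pderiv l (X k : MvPolynomial α F)) / eval w (X k : MvPolynomial α F)).det =
    0 at h1
  rw [h2, Matrix.det_diagonal] at h1
  exact Finset.prod_ne_zero_iff.2 (fun l _ => inv_ne_zero (hw l)) h1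

theorem ineq_of_quad {α β : Type} [Fintype α] [DecidableEq α] [Fintype β] [DecidableEq β]
    (P : Finset (MvPolynomial α ℚ)) (hP : ∀ p ∈ P, p ≠ 0) (hXP : ∀ l, (X l : MvPolynomial α ℚ) ∈ P)
    (R : β → MvPolynomial (α ⊕ β) ℚ) (Φ : α ⊕ β → MvPolynomial (α ⊕ β) ℚ)
    (hΦ : ∀ l, Φ (Sum.inl l) = X (Sum.inl l)) (hR : ∀ k, aeval Φ (R k) = X (Sum.inr k)) (c : ℚ) (hc : c ≠ 0)
    (hdet : (Matrix.of fun k j => pderiv (Sum.inr j) (R k)).det = C c)
    (node : P → α ⊕ β) (a : P → ℚ) (ha : ∀ p, a p ≠ 0)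
    (hnode : ∀ p, aeval (Sum.elim X (fun _ => 0) : α ⊕ β → MvPolynomial α ℚ) (Φ (node p)) = C (a p) * p.1)
    (P' : Finset (MvPolynomial (α ⊕ β) ℚ)) (h2 : ∀ q ∈ P', q.totalDegree ≤ 2)
    (hX' : ∀ i, (X i : MvPolynomial (α ⊕ β) ℚ) ∈ P') (hR' : ∀ k, R k ∈ P') (h : Ineq P') : Ineq P := by
  classical
  intro ε hε
  obtain ⟨W, hW⟩ : ∃ W : (α → P) → MvPolynomial (α ⊕ β) ℚ,
      W = fun J => (Matrix.of fun l l' => pderiv (Sum.inl l') (Φ (node (J l)))).det := ⟨_, rfl⟩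
  obtain ⟨z0, hz0d⟩ : ∃ z0 : MvPolynomial (α ⊕ β) ℚ →ₐ[ℚ] MvPolynomial α ℚ,
      z0 = aeval (Sum.elim X (fun _ => 0) : α ⊕ β → MvPolynomial α ℚ) := ⟨_, rfl⟩
  have hz0 : ∀ (u : MvPolynomial (α ⊕ β) ℚ) (w : α → ℚ), eval w (z0 u) = eval (Sum.elim w fun _ => 0) u := by
    intro u w
    rw [hz0d]
    have h1 := aeval_comp (L := ℚ) w (Sum.elim X (fun _ => 0) : α ⊕ β → MvPolynomial α ℚ) u
    have h3 : (fun i : α ⊕ β => aeval w ((Sum.elim X (fun _ => 0) : α ⊕ β → MvPolynomial α ℚ) i)) =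
        (Sum.elim w fun _ => 0 : α ⊕ β → ℚ) := by
      funext i
      rcases i with i | i
      · simp
      · simp
    rw [h3] at h1
    exact h1
  obtain ⟨U, hU⟩ : ∃ U : Finset (MvPolynomial (α ⊕ β) ℚ),
      U = (Finset.univ.image fun p : P => Φ (node p)) ∪ ((Finset.univ.image W).filter fun u => z0 u ≠ 0) := ⟨_, rfl⟩
  have hUP : ∀ p : P, Φ (node p) ∈ U := by
    intro p
    rw [hU]
    exact Finset.mem_union_left _ (Finset.mem_image_of_mem _ (Finset.mem_univ p))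
  have hUW : ∀ J, z0 (W J) ≠ 0 → W J ∈ U := by
    intro J hJ
    rw [hU]
    exact Finset.mem_union_right _ (Finset.mem_filter.2 ⟨Finset.mem_image_of_mem _ (Finset.mem_univ J), hJ⟩)
  have hU0 : ∀ u ∈ U, z0 u ≠ 0 := by
    intro u hu
    rw [hU, Finset.mem_union] at hu
    rcases hu with hu | hu
    · obtain ⟨p, -, rfl⟩ := Finset.mem_image.1 hu
      rw [hz0d, hnode]
      exact mul_ne_zero (by rw [Ne, C_eq_zero]; exact ha p) (hP _ p.2)
    · exact (Finset.mem_filter.1 hu).2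
  obtain ⟨C₁, hC₁, hsel⟩ := sel U (ε / 2) (by positivity)
  obtain ⟨C₃, hC₃, hpt⟩ := height_pt Φ
  obtain ⟨ε', hε'd⟩ : ∃ ε' : ℝ, ε' = ε / (2 * (C₃ * (1 + C₁) + 1)) := ⟨_, rfl⟩
  have hε'0 : 0 < ε' := by
    rw [hε'd]
    positivity
  obtain ⟨G', C', hG', hA⟩ := h ε' hε'0
  have hH : aeval Φ G' ≠ 0 := by
    intro h0
    exact hG' (aeval_injective R Φ hΦ hR (h0.trans (map_zero _).symm))
  obtain ⟨G₂, c₀, hG₂, hcc⟩ := exists_c (aeval Φ G') hH
  obtain ⟨T₁, hT₁⟩ := quad_gain R c hc hdet P' h2 hX' hR'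
  obtain ⟨T₂, hT₂⟩ := good_le P
  obtain ⟨T₃, hT₃⟩ := exists_int (Finset.univ.image Φ)
  obtain ⟨T₄, hT₄⟩ : ∃ T₄ : Finset (FinitePlace ℚ), ∀ v ∉ T₄, v c = 1 ∧ (∀ p, v (a p) = 1) ∧
      ∀ m : ℕ, 1 ≤ m → m ≤ c₀ → v (m : ℚ) = 1 := by
    have f1 := K4_fin hc
    have f2 : (⋃ p : P, {v : FinitePlace ℚ | v (a p) ≠ 1}).Finite := Set.finite_iUnion fun p => K4_fin (ha p)
    have f3 : (⋃ m : Fin c₀, {v : FinitePlace ℚ | v (((m : ℕ) + 1 : ℕ) : ℚ) ≠ 1}).Finite :=
      Set.finite_iUnion fun m => K4_fin (by positivity)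
    refine ⟨((f1.union f2).union f3).toFinset, fun v hv => ?_⟩
    rw [Set.Finite.mem_toFinset] at hv
    simp only [Set.mem_union, Set.mem_iUnion, Set.mem_ofPred_eq, not_or, not_exists, not_not] at hv
    refine ⟨hv.1.1, hv.1.2, fun m hm hm' => ?_⟩
    have h3 := hv.2 ⟨m - 1, by omega⟩
    have h4 : m - 1 + 1 = m := by omega
    simp only [h4] at h3
    exact h3
  obtain ⟨T, hT⟩ : ∃ T : Finset (FinitePlace ℚ), T = T₁ ∪ T₂ ∪ T₃ ∪ T₄ := ⟨_, rfl⟩
  have hTT : ∀ v ∉ T, v ∉ T₁ ∧ v ∉ T₂ ∧ v ∉ T₃ ∧ v ∉ T₄ := by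
    intro v hv
    rw [hT] at hv
    simp only [Finset.mem_union, not_or] at hv
    exact ⟨hv.1.1.1, hv.1.1.2, hv.1.2, hv.2⟩
  obtain ⟨C₂, hC₂, hsel'⟩ := hsel T c₀
  obtain ⟨C₄, hpt'⟩ := hpt c₀
  refine ⟨(G₂ * ∏ p ∈ P, p) * ∏ u ∈ U, z0 u, C' + (Fintype.card α + 1) * Real.log 2 +
    (∑ᶠ v ∈ (T : Set (FinitePlace ℚ)), Real.log (Ideal.absNorm v.maximalIdeal.asIdeal)) + C₂ +
    ε' * (C₃ * C₂ + C₄), mul_ne_zero (mul_ne_zero hG₂ (Finset.prod_ne_zero_iff.2 hP)) (Finset.prod_ne_zero_iff.2 hU0),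
    ?_⟩
  intro w hw
  rw [map_mul, map_mul, map_prod, map_prod, mul_ne_zero_iff, mul_ne_zero_iff, Finset.prod_ne_zero_iff,
    Finset.prod_ne_zero_iff] at hw
  obtain ⟨⟨hw1, hw2⟩, hw3⟩ := hw
  refine ⟨hw2, ?_⟩
  have hwU : ∀ u ∈ U, eval (Sum.elim w fun _ => 0) u ≠ 0 := fun u hu => by
    rw [← hz0]
    exact hw3 u hu
  have hwl : ∀ l, w l ≠ 0 := fun l => by
    have h3 := hw2 _ (hXP l)
    rwa [eval_X] at h3
  have hval : ∀ p : P, eval (Sum.elim w fun _ => 0) (Φ (node p)) = a p * eval w p.1 := by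
    intro p
    rw [← hz0, hz0d, hnode, map_mul, eval_C]
  obtain ⟨S, hS⟩ : ∃ S : Set (FinitePlace ℚ), S = {v | ∃ p ∈ P, v (eval w p) ≠ 1} ∪ (T : Set (FinitePlace ℚ)) :=
    ⟨_, rfl⟩
  have hbadfin : {v : FinitePlace ℚ | ∃ p ∈ P, v (eval w p) ≠ 1}.Finite := by
    have h3 : {v : FinitePlace ℚ | ∃ p ∈ P, v (eval w p) ≠ 1} ⊆
        ⋃ p ∈ (P : Set (MvPolynomial α ℚ)), {v : FinitePlace ℚ | v (eval w p) ≠ 1} := by
      rintro v ⟨p, hp, hv⟩
      simp only [Set.mem_iUnion]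
      exact ⟨p, hp, hv⟩
    exact (P.finite_toSet.biUnion fun p hp => K4_fin (hw2 p hp)).subset h3
  obtain ⟨v₀, δ, hδ, hv₀S, hv₀w, hv₀U, hv₀log, hδ1, hδh, hclose⟩ := hsel' w hwU S (by
    intro v hv
    rw [hS] at hv
    rcases hv with ⟨p, hp, hv⟩ | hv
    · by_cases hvT : v ∈ T
      · exact Or.inr (Or.inr hvT)
      · left
        refine ⟨_, hUP ⟨p, hp⟩, ?_⟩
        rw [hval, map_mul, (hT₄ v (hTT v hvT).2.2.2).2.1, one_mul]
        exact hv
    · exact Or.inr (Or.inr hv)) (fun v hv => by rw [hS]; exact Or.inr hv)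
  have hS1 : ∀ v, v ∉ S → (∀ p ∈ P, v (eval w p) = 1) ∧ v ∉ T := by
    intro v hv
    rw [hS, Set.mem_union, not_or] at hv
    refine ⟨fun p hp => ?_, hv.2⟩
    by_contra h3
    exact hv.1 ⟨p, hp, h3⟩
  obtain ⟨cc, hcc1, hcc2⟩ := hcc w hw1 δ hδ.ne'
  obtain ⟨t, ht⟩ : ∃ t : β → ℚ, t = fun k => (cc k : ℚ) * δ := ⟨_, rfl⟩
  obtain ⟨x, hx⟩ : ∃ x : α ⊕ β → ℚ, x = fun i => eval (Sum.elim w t) (Φ i) := ⟨_, rfl⟩
  have hclose' := hclose cc fun k => (hcc1 k).2
  rw [← ht] at hcc2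
  simp only [← ht] at hclose'
  have ht0 : ∀ k, t k ≠ 0 := by
    intro k
    rw [ht]
    exact mul_ne_zero (by have := (hcc1 k).1; positivity) hδ.ne'
  have hev : ∀ F : MvPolynomial (α ⊕ β) ℚ, eval x F = eval (Sum.elim w t) (aeval Φ F) := by
    intro F
    rw [hx]
    exact (aeval_comp (L := ℚ) (Sum.elim w t) Φ F).symm
  have hxG : eval x G' ≠ 0 := by
    rw [hev]
    exact hcc2
  obtain ⟨hx0, hx1⟩ := hA x hxG
  have hxl : ∀ l, x (Sum.inl l) = w l := by
    intro l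
    rw [hx]
    simp only [hΦ, eval_X, Sum.elim_inl]
  have hxR : ∀ k, eval x (R k) = t k := by
    intro k
    rw [hev, hR, eval_X, Sum.elim_inr]
  have hxi : ∀ i, x i ≠ 0 := by
    intro i
    have h3 := hx0 _ (hX' i)
    rwa [eval_X] at h3
  have hne : vec P w ≠ 0 := K4_vec_ne P hXP w hwl
  have hne' : vec P' x ≠ 0 := K4_vec_ne P' hX' x hxi
  have hPt : ∀ p : P, eval (Sum.elim w t) (Φ (node p)) ≠ 0 := by
    intro p
    have h3 := hxi (node p)
    rw [hx] at h3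
    exact h3
  -- the places of the right side for the new point
  obtain ⟨Q, hQ⟩ : ∃ Q : Set (FinitePlace ℚ), Q = {v | ∃ q ∈ P', v (eval x q) ≠ 1} := ⟨_, rfl⟩
  have hQfin : Q.Finite := by
    have h3 : Q ⊆ ⋃ q ∈ (P' : Set (MvPolynomial (α ⊕ β) ℚ)), {v : FinitePlace ℚ | v (eval x q) ≠ 1} := by
      rw [hQ]
      rintro v ⟨p, hp, hv⟩
      simp only [Set.mem_iUnion]
      exact ⟨p, hp, hv⟩
    exact (P'.finite_toSet.biUnion fun p hp => K4_fin (hx0 p hp)).subset h3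
  obtain ⟨g, hg⟩ : ∃ g : Set (FinitePlace ℚ), g = {v | v ∈ Q ∧ v ∉ S ∧ v ≠ v₀} := ⟨_, rfl⟩
  have hgfin : g.Finite := hQfin.subset fun v hv => by
    rw [hg] at hv
    exact hv.1
  -- at the places outside `S`
  have hgood : ∀ v : FinitePlace ℚ, v ∉ S → Real.log (⨆ J, v (vec P w J)) ≤ 0 ∧ (∀ l, v (w l) = 1) := by
    intro v hv
    obtain ⟨h3, h4⟩ := hS1 v hv
    have h5 : ∀ l, v (w l) = 1 := fun l => by
      have h6 := h3 _ (hXP l)
      rwa [eval_X] at h6
    refine ⟨?_, h5⟩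
    have h6 := hT₂ v (hTT v h4).2.1 w (fun l => (h5 l).le) h3
    have : Nonempty (α → P) := ⟨fun l => ⟨X l, hXP l⟩⟩
    have h7 : ⨆ J, v (vec P w J) ≤ 1 := ciSup_le h6
    exact Real.log_nonpos (Real.iSup_nonneg fun J => apply_nonneg v _) h7
  have hlocal : ∀ v : FinitePlace ℚ, v ∉ g → Real.log (⨆ J, v (vec P w J)) ≤ Real.log (⨆ I, v (vec P' x I)) +
      (∑ k, Real.log (v (t k))) - Real.log (v c) := by
    intro v hv
    by_cases hvS : v ∈ S
    · have h3 := bad_le P R Φ hΦ hR c hc hdet node a ha hnode P' hX' hR' v.val w t hwl ht0 hXP hw2 1 le_rfl hPt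
        (fun p => by
          rw [one_mul]
          exact (K4_unit v ((hclose' _ (hUP p)).1 v hvS)).le)
        (fun J => by
          rw [one_mul]
          by_cases hJ : z0 (W J) = 0
          · have h4 := hz0 (W J) w
            rw [hJ, map_zero, hW] at h4
            rw [← h4, map_zero]
            exact apply_nonneg v.val _
          · have h4 := K4_unit v ((hclose' _ (hUW J hJ)).1 v hvS)
            rw [hW] at h4
            exact h4.ge)
      rw [Real.log_one, mul_zero, zero_sub] at h3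
      rw [← hx] at h3
      have h4 : ∀ y, v.val y = v y := fun y => rfl
      simp only [h4] at h3
      linarith
    · obtain ⟨h3, h4⟩ := hgood v hvS
      obtain ⟨h5, h6⟩ := hS1 v hvS
      have h7 := base_le R Φ hΦ hR c hc hdet P' hX' hR' v.val w t hwl ht0
      rw [← hx] at h7
      have h8 : ∀ y, v.val y = v y := fun y => rfl
      simp only [h8] at h7
      simp only [h4, Real.log_one, Finset.sum_const_zero, add_zero] at h7
      linarith
  have hlocalg : ∀ v : FinitePlace ℚ, v ∈ g → Real.log (⨆ J, v (vec P w J)) +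
      Real.log (Ideal.absNorm v.maximalIdeal.asIdeal) ≤ Real.log (⨆ I, v (vec P' x I)) +
      (∑ k, Real.log (v (t k))) - Real.log (v c) := by
    intro v hv
    rw [hg] at hv
    obtain ⟨hvQ, hvS, hv0⟩ := hv
    obtain ⟨h3, h4⟩ := hgood v hvS
    obtain ⟨h5, h6⟩ := hS1 v hvS
    obtain ⟨k1, k2, k3, k4⟩ := hTT v h6
    obtain ⟨j1, j2, j3⟩ := hT₄ v k4
    have ht1 : ∀ k, v (t k) = 1 := by
      intro k
      rw [ht]
      simp only [map_mul]
      rw [j3 _ (hcc1 k).1 (hcc1 k).2, hδ1 v hvS hv0, one_mul]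
    have hxv : ∀ i, v (x i) ≤ 1 := by
      intro i
      rw [hx]
      refine eval_le_one v _ (hT₃ v k3 _ (Finset.mem_image_of_mem _ (Finset.mem_univ i))) _ ?_
      rintro (l | k)
      · exact (h4 l).le
      · exact (ht1 k).le
    obtain ⟨I, hI⟩ := hT₁ v k1 x hxv (fun l => by rw [hxl]; exact h4 l) (fun k => by rw [hxR]; exact ht1 k) hx0
      (by rw [hQ] at hvQ; exact hvQ)
    have h9 : v (vec P' x I) ≤ ⨆ I, v (vec P' x I) :=
      le_ciSup (f := fun I => v (vec P' x I)) (Set.finite_range _).bddAbove I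
    have h10 : (0 : ℝ) < (Ideal.absNorm v.maximalIdeal.asIdeal : ℝ) := by
      rw [absNorm_pr]
      exact_mod_cast (pr_prime v).pos
    have h11 := Real.log_le_log h10 (hI.trans h9)
    rw [j1]
    simp only [ht1, Real.log_one, Finset.sum_const_zero, add_zero, sub_zero]
    linarith
  have hinf : ∀ v : InfinitePlace ℚ, Real.log (⨆ J, v (vec P w J)) ≤ Real.log (⨆ I, v (vec P' x I)) +
      (∑ k, Real.log (v (t k))) + ((Fintype.card α + 1) * Real.log 2 - Real.log (v c)) := by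
    intro v
    have habs : ∀ y : ℚ, v.val y = |((y : ℚ) : ℝ)| := by
      intro y
      have h3 := Rat.infinitePlace_apply v y
      have h4 : v.val y = v y := rfl
      rw [h4, h3]
      exact Rat.cast_abs y
    have key : ∀ u ∈ U, v.val (eval (Sum.elim w t) u) ≤ 2 * v.val (eval (Sum.elim w fun _ => 0) u) ∧
        v.val (eval (Sum.elim w fun _ => 0) u) ≤ 2 * v.val (eval (Sum.elim w t) u) := by
      intro u hu
      have h3 := (hclose' u hu).2
      rw [habs, habs]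
      have h4 : |((eval (Sum.elim w t) u - eval (Sum.elim w fun _ => 0) u : ℚ) : ℝ)| ≤
          |((eval (Sum.elim w fun _ => 0) u : ℚ) : ℝ)| / 2 := by exact_mod_cast h3
      rw [Rat.cast_sub] at h4
      have h5 := abs_sub_abs_le_abs_sub ((eval (Sum.elim w t) u : ℚ) : ℝ) ((eval (Sum.elim w fun _ => 0) u : ℚ) : ℝ)
      have h6 := abs_sub_abs_le_abs_sub ((eval (Sum.elim w fun _ => 0) u : ℚ) : ℝ) ((eval (Sum.elim w t) u : ℚ) : ℝ)
      rw [abs_sub_comm] at h6
      have h7 := abs_nonneg ((eval (Sum.elim w fun _ => 0) u : ℚ) : ℝ)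
      constructor <;> linarith
    have h3 := bad_le P R Φ hΦ hR c hc hdet node a ha hnode P' hX' hR' v.val w t hwl ht0 hXP hw2 2 one_le_two hPt
      (fun p => (key _ (hUP p)).1)
      (fun J => by
        by_cases hJ : z0 (W J) = 0
        · have h4 := hz0 (W J) w
          rw [hJ, map_zero, hW] at h4
          rw [← h4, map_zero]
          exact mul_nonneg zero_le_two (apply_nonneg v.val _)
        · have h4 := (key _ (hUW J hJ)).2
          rw [hW] at h4
          exact h4)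
    rw [← hx] at h3
    exact h3
  have hsum := sum_le (vec P w) (vec P' x) hne hne' t ht0 c hc ((Fintype.card α + 1) * Real.log 2) g hgfin hinf
    hlocal hlocalg
  have hQsub : Q ⊆ ((g ∪ {v : FinitePlace ℚ | ∃ p ∈ P, v (eval w p) ≠ 1}) ∪ (T : Set (FinitePlace ℚ))) ∪ {v₀} := by
    intro v hv
    by_cases h3 : v ∈ g
    · exact Or.inl (Or.inl (Or.inl h3))
    · rw [hg, Set.mem_ofPred_eq, not_and, not_and, not_not] at h3
      by_cases h4 : v ∈ S
      · rw [hS] at h4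
        rcases h4 with h4 | h4
        · exact Or.inl (Or.inl (Or.inr h4))
        · exact Or.inl (Or.inr h4)
      · exact Or.inr (h3 hv h4)
  have f1 := hgfin.union hbadfin
  have f2 := f1.union T.finite_toSet
  have s1 := sum_mono Q _ (f2.union (Set.finite_singleton v₀)) hQsub
  have s2 := sum_union _ _ f2 (Set.finite_singleton v₀)
  have s3 := sum_union _ _ f1 T.finite_toSet
  have s4 := sum_union _ _ hgfin hbadfin
  rw [finsum_mem_singleton] at s2
  rw [← hQ] at hx1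
  have hh := hpt' w δ cc fun k => (hcc1 k).2
  rw [← ht, ← hx] at hh
  have e1 : ε' * logHeight (fun o : Option (α ⊕ β) => o.elim 1 x) ≤
      ε / 2 * logHeight (fun o : Option α => o.elim 1 w) + ε' * (C₃ * C₂ + C₄) := by
    have e2 : logHeight (fun o : Option (α ⊕ β) => o.elim 1 x) ≤
        C₃ * (1 + C₁) * logHeight (fun o : Option α => o.elim 1 w) + (C₃ * C₂ + C₄) := by
      have e3 := mul_le_mul_of_nonneg_left hδh hC₃
      linarith
    have e4 := mul_le_mul_of_nonneg_left e2 hε'0.le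
    have e5 : ε' * (C₃ * (1 + C₁)) ≤ ε / 2 := by
      rw [hε'd]
      have e6 : 0 ≤ C₃ * (1 + C₁) := by positivity
      rw [div_mul_eq_mul_div, div_le_div_iff₀ (by positivity) two_pos]
      nlinarith
    have e7 := mul_le_mul_of_nonneg_right e5 (logHeight_nonneg (fun o : Option α => o.elim 1 w))
    linarith
  linarith

end Pool.Agent.Lib.MP_17a322_nt.GQ
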