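import Mathlib

/-!
The graph of the operation `a ^ 2 + b`: the polynomials `x_i ^ 2 + x_j - x_k`.
-/

namespace Pool.Agent.Lib.MP_17a322_nt.GQ

open MvPolynomial

/-- The coordinates `x_i` of the affine space, and `x_0 = 1` (`none` is the index `0`). -/
noncomputable def xo {α : Type} : Option α → MvPolynomial α ℚ := fun o => o.elim 1 X

/-- The set of the polynomials `x_i ^ 2 + x_j - x_k`, where `x_0 = 1` and the indices `i`, `j`, `k` are `0` or
belong to `α`. It contains the variables `x_j = x_0 ^ 2 + x_j - x_0`. -/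
noncomputable def sqPoly (α : Type) [Fintype α] : Finset (MvPolynomial α ℚ) := by
  classical exact
    Finset.univ.image fun t : Option α × Option α × Option α => xo t.1 ^ 2 + xo t.2.1 - xo t.2.2

theorem mem_sqPoly {α : Type} [Fintype α] {p : MvPolynomial α ℚ} :
    p ∈ sqPoly α ↔ ∃ i j k, p = xo i ^ 2 + xo j - xo k := by
  classical
  unfold sqPoly
  simp only [Finset.mem_image, Finset.mem_univ, true_and, Prod.exists]
  constructor
  · rintro ⟨i, j, k, h⟩
    exact ⟨i, j, k, h.symm⟩
  · rintro ⟨i, j, k, h⟩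
    exact ⟨i, j, k, h.symm⟩

theorem X_mem_sqPoly {α : Type} [Fintype α] (l : α) : (X l : MvPolynomial α ℚ) ∈ sqPoly α := by
  rw [mem_sqPoly]
  exact ⟨none, some l, none, by simp [xo]⟩

theorem sqPoly_ne_zero {α : Type} (i j k : Option α) : (xo i ^ 2 + xo j - xo k : MvPolynomial α ℚ) ≠ 0 := by
  intro h
  have h1 := congrArg (eval fun _ => (3 : ℚ)) h
  have h2 : ∀ i : Option α, eval (fun _ => (3 : ℚ)) (xo i) = 1 ∨ eval (fun _ => (3 : ℚ)) (xo i) = 3 := by
    intro i
    cases i with
    | none => exact Or.inl (by simp [xo])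
    | some i => exact Or.inr (by simp [xo])
  rw [map_sub, map_add, map_pow, map_zero] at h1
  rcases h2 i with hi | hi <;> rcases h2 j with hj | hj <;> rcases h2 k with hk | hk <;> rw [hi, hj, hk] at h1 <;>
    norm_num at h1

theorem ne_zero_of_mem_sqPoly {α : Type} [Fintype α] {p : MvPolynomial α ℚ} (h : p ∈ sqPoly α) : p ≠ 0 := by
  obtain ⟨i, j, k, rfl⟩ := mem_sqPoly.1 h
  exact sqPoly_ne_zero i j k

theorem totalDegree_xo {α : Type} (i : Option α) : (xo i : MvPolynomial α ℚ).totalDegree ≤ 1 := by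
  cases i with
  | none => simp [xo]
  | some i => simp [xo]

theorem totalDegree_le_of_mem_sqPoly {α : Type} [Fintype α] {p : MvPolynomial α ℚ} (h : p ∈ sqPoly α) :
    p.totalDegree ≤ 2 := by
  obtain ⟨i, j, k, rfl⟩ := mem_sqPoly.1 h
  refine (totalDegree_sub _ _).trans (max_le ((totalDegree_add _ _).trans (max_le ((totalDegree_pow _ _).trans ?_) ?_)) ?_)
  · have := totalDegree_xo i
    omega
  · exact (totalDegree_xo j).trans (by norm_num)
  · exact (totalDegree_xo k).trans (by norm_num)

end Pool.Agent.Lib.MP_17a322_nt.GQ
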