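import Pool.Agent.Lib.MP_17a322_nt.GQ.SqC

/-!
The explicit inequality for integers is the abc inequality for the polynomials `x_i ^ 2 + x_j - x_k`.
-/

namespace Pool.Agent.Lib.MP_17a322_nt.GQ

open MvPolynomial Height NumberField

private theorem SqInt_prim {m : ℕ} (y : Fin m → ℚ) :
    ∃ x : Fin (m + 1) → ℤ, Finset.univ.gcd x = 1 ∧ x 0 ≠ 0 ∧ aff x = y := by
  obtain ⟨b, hb0, z, hz⟩ : ∃ b : ℤ, b ≠ 0 ∧ ∃ z : Fin m → ℤ, ∀ l, (z l : ℚ) = b * y l := by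
    refine ⟨∏ l, ((y l).den : ℤ), Finset.prod_ne_zero_iff.2 fun l _ => by exact_mod_cast (y l).den_nz,
      fun l => (∏ k ∈ Finset.univ.erase l, ((y k).den : ℤ)) * (y l).num, fun l => ?_⟩
    rw [← Finset.prod_erase_mul _ _ (Finset.mem_univ l)]
    push_cast
    rw [mul_assoc]
    congr 1
    rw [mul_comm]
    exact_mod_cast (Rat.mul_den_eq_num (y l)).symm
  obtain ⟨x, hx, hg⟩ := Finset.extract_gcd (s := Finset.univ) (Fin.cons b z : Fin (m + 1) → ℤ)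
    Finset.univ_nonempty
  obtain ⟨g, hgd⟩ : ∃ g : ℤ, g = Finset.univ.gcd (Fin.cons b z : Fin (m + 1) → ℤ) := ⟨_, rfl⟩
  rw [← hgd] at hx
  have h0 : b = g * x 0 := by simpa using hx 0 (Finset.mem_univ _)
  have h1 : ∀ l : Fin m, z l = g * x l.succ := fun l => by simpa using hx l.succ (Finset.mem_univ _)
  have hg0 : g ≠ 0 := by
    rintro rfl
    exact hb0 (by rw [h0, zero_mul])
  have hx0 : x 0 ≠ 0 := by
    intro h
    exact hb0 (by rw [h0, h, mul_zero])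
  refine ⟨x, hg, hx0, ?_⟩
  funext l
  have h2 := hz l
  rw [h1 l, h0] at h2
  push_cast at h2
  have h3 : (g : ℚ) ≠ 0 := by exact_mod_cast hg0
  have h4 : (x 0 : ℚ) ≠ 0 := by exact_mod_cast hx0
  rw [mul_assoc] at h2
  have h5 := mul_left_cancel₀ h3 h2
  rw [aff, h5]
  field_simp

private theorem SqInt_hom {m : ℕ} (G : MvPolynomial (Fin m) ℚ) : ∃ (N : ℤ) (D : ℕ), N ≠ 0 ∧ ∀ E, D ≤ E →
    ∃ H : MvPolynomial (Fin (m + 1)) ℤ, H.IsHomogeneous E ∧ dh H = C (N : ℚ) * G := by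
  induction G using MvPolynomial.induction_on with
  | C a =>
    refine ⟨a.den, 0, by exact_mod_cast a.den_nz, fun E _ => ⟨C a.num * X 0 ^ E, ?_, ?_⟩⟩
    · have h1 := (isHomogeneous_C (Fin (m + 1)) a.num).mul ((isHomogeneous_X ℤ (0 : Fin (m + 1))).pow E)
      rwa [one_mul, zero_add] at h1
    · rw [map_mul, map_pow, dh_X, Fin.cons_zero, one_pow, mul_one, ← C_mul]
      have h1 : dh (C a.num : MvPolynomial (Fin (m + 1)) ℤ) = C ((a.num : ℤ) : ℚ) := by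
        rw [dh, aeval_C]
        simp
      rw [h1]
      congr 1
      rw [mul_comm]
      exact_mod_cast (Rat.mul_den_eq_num a).symm
  | add p q hp hq =>
    obtain ⟨N, D, hN, hp⟩ := hp
    obtain ⟨N', D', hN', hq⟩ := hq
    refine ⟨N * N', max D D', mul_ne_zero hN hN', fun E hE => ?_⟩
    obtain ⟨H, hH, hH'⟩ := hp E ((le_max_left _ _).trans hE)
    obtain ⟨I, hI, hI'⟩ := hq E ((le_max_right _ _).trans hE)
    refine ⟨C N' * H + C N * I, ?_, ?_⟩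
    · exact (hH.C_mul _).add (hI.C_mul _)
    · have h1 : ∀ a : ℤ, dh (C a : MvPolynomial (Fin (m + 1)) ℤ) = C (a : ℚ) := fun a => by
        rw [dh, aeval_C]
        simp
      rw [map_add, map_mul, map_mul, h1, h1, hH', hI', Int.cast_mul, C_mul]
      ring
  | mul_X p i hp =>
    obtain ⟨N, D, hN, hp⟩ := hp
    refine ⟨N, D + 1, hN, fun E hE => ?_⟩
    obtain ⟨H, hH, hH'⟩ := hp (E - 1) (by omega)
    refine ⟨H * X i.succ, ?_, ?_⟩
    · have h1 := hH.mul (isHomogeneous_X ℤ i.succ)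
      rwa [show E - 1 + 1 = E by omega] at h1
    · rw [map_mul, hH', dh_X, Fin.cons_succ, mul_assoc]

private theorem SqInt_rad_pos (n : ℕ) : (1 : ℝ) ≤ ∏ p ∈ n.primeFactors, (p : ℝ) := by
  have h1 : 1 ≤ ∏ p ∈ n.primeFactors, p := Finset.one_le_prod' fun p hp => (Nat.prime_of_mem_primeFactors hp).one_lt.le
  have h2 : ((1 : ℕ) : ℝ) ≤ ((∏ p ∈ n.primeFactors, p : ℕ) : ℝ) := Nat.cast_le.2 h1
  rwa [Nat.cast_one, Nat.cast_prod] at h2

theorem ineq_of_sqInt {m : ℕ} (h : SqInt m) : Ineq (sqPoly (Fin m)) := by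
  intro ε hε
  obtain ⟨G, C₀, hG, ⟨d, hd⟩, hmain⟩ := h ε hε
  obtain ⟨C₁, hC₁⟩ : ∃ C₁ : ℝ, C₁ = max C₀ 1 := ⟨_, rfl⟩
  have hC1 : 1 ≤ C₁ := hC₁ ▸ le_max_right _ _
  refine ⟨dh G * ∏ p ∈ sqPoly (Fin m), p, Real.log C₁,
    mul_ne_zero (dh_ne hd hG) (Finset.prod_ne_zero_iff.2 fun p hp => ne_zero_of_mem_sqPoly hp), ?_⟩
  intro y hy
  rw [map_mul, map_prod, mul_ne_zero_iff, Finset.prod_ne_zero_iff] at hy
  refine ⟨hy.2, ?_⟩
  obtain ⟨x, hg, hx, rfl⟩ := SqInt_prim y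
  have hx' : (x 0 : ℚ) ≠ 0 := by exact_mod_cast hx
  have hx0 : x ≠ 0 := fun h => hx (by rw [h]; rfl)
  have h0 : ∀ t, eval x (sqForm t) ≠ 0 := by
    intro t h1
    have h2 := eval_x (sqForm_hom t) hx
    rw [h1, Int.cast_zero] at h2
    exact mul_ne_zero (pow_ne_zero _ hx') (hy.2 _ (dh_mem t)) h2.symm
  have hGx : eval x G ≠ 0 := by
    intro h1
    have h2 := eval_x hd hx
    rw [h1, Int.cast_zero] at h2
    exact mul_ne_zero (pow_ne_zero _ hx') hy.1 h2.symm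
  have hN : (∏ a, eval x (sqForm a)).natAbs ≠ 0 :=
    Int.natAbs_ne_zero.2 (Finset.prod_ne_zero_iff.2 fun a _ => h0 a)
  obtain ⟨R, hR⟩ : ∃ R : ℝ, R = ∏ p ∈ (∏ a, eval x (sqForm a)).natAbs.primeFactors, (p : ℝ) := ⟨_, rfl⟩
  have hR1 : 1 ≤ R := hR ▸ SqInt_rad_pos _
  have hset : {v : FinitePlace ℚ | ∃ p ∈ sqPoly (Fin m), v (eval (aff x) p) ≠ 1} =
      {v : FinitePlace ℚ | pr v ∣ (∏ a, eval x (sqForm a)).natAbs} :=
    Set.ext fun v => places hx hg v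
  rw [hset, finsum_pr _ hN, ← hR, height_aff hx hg]
  refine (height_le hx h0).trans ?_
  have hx1 : 1 ≤ ‖x‖ := by
    have h1 : (1 : ℝ) ≤ ‖x 0‖ := by
      rw [Int.norm_eq_abs]
      exact_mod_cast Int.one_le_abs hx
    exact h1.trans (norm_le_pi_norm x 0)
  by_cases hz : sqDet x = 0
  · have h1 : (fun s => ((sqDet x s : ℤ) : ℚ)) = 0 := by
      funext s
      rw [hz]
      simp
    rw [h1, logHeight_zero]
    have h2 := Real.log_nonneg hR1
    have h3 := Real.log_nonneg hx1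
    have h4 := Real.log_nonneg hC1
    positivity
  · have hne : Nonempty (Fin (m + 1) → Fin (m + 1) × Fin (m + 1) × Fin (m + 1)) := ⟨fun _ => 0⟩
    rw [sqHeight_int _ hz]
    have hgp := sqGcd_pos _ hz
    obtain ⟨γ, hγ⟩ : ∃ γ : ℤ, γ = Finset.univ.gcd (sqDet x) := ⟨_, rfl⟩
    have hm := hmain x hg hGx
    rw [← hγ] at hgp ⊢
    rw [← hγ, ← hR] at hm
    have hgp' : (0 : ℝ) < (γ : ℝ) := by exact_mod_cast hgp
    have h1 : ‖sqDet x‖ ≤ C₁ * ‖x‖ ^ ε * R * (γ : ℝ) := by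
      rw [pi_norm_le_iff_of_nonneg (by positivity)]
      intro s
      rw [Int.norm_eq_abs]
      refine (hm s).trans ?_
      have h2 : C₀ ≤ C₁ := hC₁ ▸ le_max_left _ _
      gcongr
    have h2 : 0 < ‖sqDet x‖ := norm_pos_iff.2 hz
    have h3 := Real.log_le_log h2 h1
    rw [Real.log_mul (by positivity) (by positivity), Real.log_mul (by positivity) (by positivity),
      Real.log_mul (by positivity) (by positivity), Real.log_rpow (by positivity)] at h3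
    linarith

theorem sqInt_of_ineq {m : ℕ} (h : Ineq (sqPoly (Fin m))) : SqInt m := by
  intro ε hε
  obtain ⟨G, C₀, hG, hmain⟩ := h ε hε
  obtain ⟨C₁, hC₁, hle⟩ := le_height m
  obtain ⟨N, D, hN, hhom⟩ := SqInt_hom G
  obtain ⟨H, hH, hH'⟩ := hhom D (le_refl _)
  have hN' : (N : ℚ) ≠ 0 := by exact_mod_cast hN
  have hH0 : H ≠ 0 := by
    rintro rfl
    rw [map_zero] at hH'
    exact mul_ne_zero (C_ne_zero.2 hN') hG hH'.symm
  have hP0 : (∏ a : Fin (m + 1) × Fin (m + 1) × Fin (m + 1), sqForm a) ≠ 0 :=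
    Finset.prod_ne_zero_iff.2 fun a _ => sqForm_ne a
  have hPh : ∃ e, (∏ a : Fin (m + 1) × Fin (m + 1) × Fin (m + 1), sqForm a).IsHomogeneous e :=
    ⟨_, IsHomogeneous.prod _ _ _ fun a _ => sqForm_hom a⟩
  obtain ⟨e, he⟩ := hPh
  refine ⟨H * ∏ a, sqForm a, Real.exp (C₀ + C₁), mul_ne_zero hH0 hP0, ⟨D + e, hH.mul he⟩, ?_⟩
  intro x hg hGx s
  rw [map_mul, map_prod, mul_ne_zero_iff, Finset.prod_ne_zero_iff] at hGx
  have h0 : ∀ t, eval x (sqForm t) ≠ 0 := fun t => hGx.2 t (Finset.mem_univ t)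
  have hx : x 0 ≠ 0 := by
    intro h1
    apply h0 0
    rw [sqForm_zero, map_pow, eval_X, h1, zero_pow two_ne_zero]
  have hx' : (x 0 : ℚ) ≠ 0 := by exact_mod_cast hx
  have hx0 : x ≠ 0 := fun h => hx (by rw [h]; rfl)
  have hy : eval (aff x) G ≠ 0 := by
    intro h1
    apply hGx.1
    have h2 := eval_x hH hx
    rw [hH', map_mul, h1, mul_zero, mul_zero] at h2
    exact_mod_cast h2
  have hN1 : (∏ a, eval x (sqForm a)).natAbs ≠ 0 :=
    Int.natAbs_ne_zero.2 (Finset.prod_ne_zero_iff.2 fun a _ => h0 a)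
  obtain ⟨R, hR⟩ : ∃ R : ℝ, R = ∏ p ∈ (∏ a, eval x (sqForm a)).natAbs.primeFactors, (p : ℝ) := ⟨_, rfl⟩
  have hR1 : 1 ≤ R := hR ▸ SqInt_rad_pos _
  have hset : {v : FinitePlace ℚ | ∃ p ∈ sqPoly (Fin m), v (eval (aff x) p) ≠ 1} =
      {v : FinitePlace ℚ | pr v ∣ (∏ a, eval x (sqForm a)).natAbs} :=
    Set.ext fun v => places hx hg v
  have h1 := (hmain _ hy).2
  rw [hset, finsum_pr _ hN1, ← hR, height_aff hx hg] at h1
  have h2 := (hle x hx h0).trans (add_le_add_left h1 C₁)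
  rw [← hR]
  have hx1 : 0 < ‖x‖ := norm_pos_iff.2 hx0
  by_cases hz : sqDet x = 0
  · rw [hz, Finset.gcd_eq_zero_iff.2 (by simp)]
    simp
  · have hne : Nonempty (Fin (m + 1) → Fin (m + 1) × Fin (m + 1) × Fin (m + 1)) := ⟨fun _ => 0⟩
    rw [sqHeight_int _ hz] at h2
    have hgp := sqGcd_pos _ hz
    obtain ⟨γ, hγ⟩ : ∃ γ : ℤ, γ = Finset.univ.gcd (sqDet x) := ⟨_, rfl⟩
    rw [← hγ] at hgp h2 ⊢
    have hgp' : (0 : ℝ) < (γ : ℝ) := by exact_mod_cast hgp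
    have h3 : 0 < ‖sqDet x‖ := norm_pos_iff.2 hz
    have h4 : ‖sqDet x‖ ≤ Real.exp (C₀ + C₁) * ‖x‖ ^ ε * R * (γ : ℝ) := by
      rw [← Real.log_le_log_iff h3 (by positivity), Real.log_mul (by positivity) (by positivity),
        Real.log_mul (by positivity) (by positivity), Real.log_mul (by positivity) (by positivity),
        Real.log_rpow (by positivity), Real.log_exp]
      linarith
    refine le_trans ?_ h4
    have h5 := norm_le_pi_norm (sqDet x) s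
    rwa [Int.norm_eq_abs] at h5

/-- The explicit inequality for integers is the abc inequality for the polynomials
`x_i ^ 2 + x_j - x_k`. -/
theorem sqInt_iff {m : ℕ} : SqInt m ↔ Ineq (sqPoly (Fin m)) := ⟨ineq_of_sqInt, sqInt_of_ineq⟩

end Pool.Agent.Lib.MP_17a322_nt.GQ
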