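import Pool.Agent.Lib.MP_17a322_nt.FL.Fin
import Pool.Agent.Lib.MP_17a322_nt.GQ.C3
import Pool.Agent.Lib.MP_17a322_nt.GQ.C5
import Pool.Agent.Lib.MP_17a322_nt.GQ.Data
import Pool.Agent.Lib.MP_17a322_nt.GQ.K4
import Pool.Agent.Lib.MP_17a322_nt.GQ.Sq
import Pool.Agent.Lib.MP_17a322_nt.GQ.SqInt

/-!
The abc inequality for the polynomials `x_i ^ 2 + x_j - x_k` implies Vojta's conjecture: the theorem.
-/

universe u v

namespace Pool.Agent.Lib.MP_17a322_nt.GQ

open MvPolynomial
open Pool.Agent.Lib.MP_17a322_nt.EQ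
open Pool.Agent.Lib.MP_17a322_nt.JAC
open Pool.Agent.Lib.MP_17a322_nt.ABN
open Pool.Agent.Lib.MP_17a322_nt.FL
open Pool.Agent.Lib.MP_17a322_nt.RAT (VojtaGaussRat)

private theorem Fin_xo {α β : Type} (e : α ≃ β) (o : Option α) :
    rename e (xo o) = xo (Equiv.optionCongr e o) := by
  cases o with
  | none => exact map_one _
  | some l => exact rename_X _ _

/-- The set `sqPoly` does not depend on the names of the variables. -/
theorem rename_sqPoly {α β : Type} [Fintype α] [Fintype β] (e : α ≃ β) (p : MvPolynomial α ℚ) (hp : p ∈ sqPoly α) :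
    rename e p ∈ sqPoly β := by
  rw [mem_sqPoly] at hp ⊢
  obtain ⟨i, j, k, rfl⟩ := hp
  exact ⟨_, _, _, by rw [map_sub, map_add, map_pow, Fin_xo, Fin_xo, Fin_xo]⟩

/-- The abc inequality for all finite sets of rational polynomials which contain the variables follows from the one
for the polynomials `x_i ^ 2 + x_j - x_k`. -/
theorem poly_of_sq (h : ∀ n, Ineq (sqPoly (Fin n))) (n : ℕ) : PolyABC ℚ n := by
  classical
  intro α _ _ hn P hP hX
  obtain ⟨β, _, _, R, Φ, c, node, a, hΦ, hR, hc, hdet, ha, hnode, hmem⟩ := exists_data P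
  have h1 : Ineq (sqPoly (α ⊕ β)) := by
    let e : Fin (Fintype.card (α ⊕ β)) ≃ α ⊕ β := (Fintype.equivFin (α ⊕ β)).symm
    refine ineq_rename e _ _ (fun q hq => ⟨rename e.symm q, rename_sqPoly e.symm q hq, ?_⟩)
      (fun p hp => rename_sqPoly e p hp) (h _)
    rw [rename_rename, Equiv.self_comp_symm, rename_id]
    rfl
  exact ineq_of_quad P hP hX R Φ hΦ hR c hc hdet node a ha hnode (sqPoly (α ⊕ β))
    (fun q hq => totalDegree_le_of_mem_sqPoly hq) X_mem_sqPoly hmem h1

/-- The abc inequality for the polynomials `x_i ^ 2 + x_j - x_k` is equivalent to the case `D = 0` of Vojta's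
conjecture for the rational projective varieties over any number field. -/
theorem sq_iff_rat (L : Type v) [Field L] [NumberField L] : (∀ n, Ineq (sqPoly (Fin n))) ↔ VojtaGaussRat L := by
  constructor
  · intro h
    exact (rat_iff_gauss L).2 (gauss_any ℚ L (gauss_of_poly (poly_of_sq h)))
  · intro h n ε hε
    exact abc_poly n (Fintype.card_fin n) ((forms_iff_rat ℚ L).2 h n) (sqPoly (Fin n))
      (fun p hp => ne_zero_of_mem_sqPoly hp) ε hε

/-- The explicit inequalities for integers are equivalent to the case `D = 0` of Vojta's conjecture for the rational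
projective varieties over any number field. -/
theorem int_iff_rat (L : Type v) [Field L] [NumberField L] : (∀ n, SqInt n) ↔ VojtaGaussRat L :=
  (forall_congr' fun _ => sqInt_iff).trans (sq_iff_rat L)

end Pool.Agent.Lib.MP_17a322_nt.GQ
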