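import Mathlib

/-!
The abc inequality for quadratic forms in `n + 1` variables, and for polynomials in `n` variables: definitions.
Heights are not divided by `[K : ℚ]`.
-/

universe u

namespace Pool.Agent.Lib.MP_17a322_nt.GQ

open MvPolynomial Height NumberField

/-- The abc inequality over the number field `K` for quadratic forms in `n + 1` variables: the case `d = 2` of
`ABCForms`. For quadratic forms `f_a`, `a ∈ κ`, in the variables `X_0, ..., X_n`, and `ε > 0`, outside a
hypersurface `G = 0` the height of the vector with the coordinates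
`det (∂ f_a / ∂ X_j (w))_{a ∈ s} * ∏_{a ∉ s} f_a(w)`, where `s` runs over the subsets of `κ` with `n + 1`
elements (in the definition `s` is a map to `κ`; if it is not injective the coordinate is zero), is at
most the sum of `log q_v` over the finite places `v` at which the absolute values of the numbers
`f_a(w)` are not all equal, plus `ε h(w) + O(1)`. -/
def ABCQuad (K : Type u) [Field K] [NumberField K] (n : ℕ) : Prop :=
  ∀ (κ : Type) [Fintype κ] [DecidableEq κ] (f : κ → MvPolynomial (Fin (n + 1)) K),
    (∀ a, (f a).IsHomogeneous 2) → ∀ ε : ℝ, 0 < ε →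
    ∃ (G : MvPolynomial (Fin (n + 1)) K) (C : ℝ), G ≠ 0 ∧ (∃ d', G.IsHomogeneous d') ∧
      ∀ w : Fin (n + 1) → K, eval w G ≠ 0 →
        logHeight (fun s : Fin (n + 1) → κ => (Matrix.of fun i j => eval w (pderiv j (f (s i)))).det *
            ∏ a ∈ (Finset.univ.image s)ᶜ, eval w (f a)) ≤
          (∑ᶠ v ∈ {v : FinitePlace K | ∃ a b, v (eval w (f a)) ≠ v (eval w (f b))},
            Real.log (Ideal.absNorm v.maximalIdeal.asIdeal)) + ε * logHeight w + C

/-- The determinants of the logarithmic derivatives of the elements of a finite set `P` of polynomials at a point. -/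
noncomputable def vec {K : Type u} [Field K] {α : Type} [Fintype α] [DecidableEq α] (P : Finset (MvPolynomial α K))
    (y : α → K) : (α → P) → K :=
  fun I => (Matrix.of fun k l => eval y (pderiv l (I k).1) / eval y (I k).1).det

/-- The abc inequality for a finite set `P` of polynomials. -/
def Ineq {K : Type u} [Field K] [NumberField K] {α : Type} [Fintype α] [DecidableEq α]
    (P : Finset (MvPolynomial α K)) : Prop :=
  ∀ ε : ℝ, 0 < ε → ∃ (G : MvPolynomial α K) (C : ℝ), G ≠ 0 ∧ ∀ y : α → K, eval y G ≠ 0 → (∀ p ∈ P, eval y p ≠ 0) ∧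
    logHeight (vec P y) ≤
      (∑ᶠ v ∈ {v : FinitePlace K | ∃ p ∈ P, v (eval y p) ≠ 1}, Real.log (Ideal.absNorm v.maximalIdeal.asIdeal)) +
        ε * logHeight (fun o : Option α => o.elim 1 y) + C

/-- The abc inequality over the number field `K` for the finite sets `P` of nonzero polynomials in `n` variables
which contain the variables. -/
def PolyABC (K : Type u) [Field K] [NumberField K] (n : ℕ) : Prop :=
  ∀ (α : Type) [Fintype α] [DecidableEq α], Fintype.card α = n →
    ∀ P : Finset (MvPolynomial α K), (∀ p ∈ P, p ≠ 0) → (∀ l, (X l : MvPolynomial α K) ∈ P) → Ineq P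

end Pool.Agent.Lib.MP_17a322_nt.GQ
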