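import Mathlib

/-!
The explicit inequality for integers: definitions.
-/

namespace Pool.Agent.Lib.MP_17a322_nt.GQ

open MvPolynomial

/-- The quadratic forms `X_i ^ 2 + X_0 X_j - X_0 X_k`, `0 ≤ i, j, k ≤ n`, with integer coefficients. -/
noncomputable def sqForm {n : ℕ} (t : Fin (n + 1) × Fin (n + 1) × Fin (n + 1)) : MvPolynomial (Fin (n + 1)) ℤ :=
  X t.1 ^ 2 + X 0 * X t.2.1 - X 0 * X t.2.2

/-- For `n + 1` of the forms: the determinant of their gradients times the product of the other forms, at `w`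
(zero if two of the `n + 1` indices are equal). -/
noncomputable def sqDet {n : ℕ} (w : Fin (n + 1) → ℤ) (s : Fin (n + 1) → Fin (n + 1) × Fin (n + 1) × Fin (n + 1)) : ℤ :=
  (Matrix.of fun i j => eval w (pderiv j (sqForm (s i)))).det * ∏ a ∈ (Finset.univ.image s)ᶜ, eval w (sqForm a)

/-- The explicit inequality for integers: for `ε > 0` there are a form `G ≠ 0` and a constant `C` such that for all
vectors `w` of `n + 1` integers with greatest common divisor one and `G(w) ≠ 0` every number `sqDet w s` is at most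
`C |w| ^ ε` times the radical of the product of the values at `w` of the forms `X_i ^ 2 + X_0 X_j - X_0 X_k` times
the greatest common divisor of the numbers `sqDet w t`. -/
def SqInt (n : ℕ) : Prop :=
  ∀ ε : ℝ, 0 < ε → ∃ (G : MvPolynomial (Fin (n + 1)) ℤ) (C : ℝ), G ≠ 0 ∧ (∃ d, G.IsHomogeneous d) ∧
    ∀ w : Fin (n + 1) → ℤ, Finset.univ.gcd w = 1 → eval w G ≠ 0 → ∀ s,
      |(sqDet w s : ℝ)| ≤ C * ‖w‖ ^ ε * (∏ p ∈ (∏ a, eval w (sqForm a)).natAbs.primeFactors, (p : ℝ)) *
        (Finset.univ.gcd (sqDet w) : ℤ)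

end Pool.Agent.Lib.MP_17a322_nt.GQ
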