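import Pool.Agent.Lib.MP_17a322_nt.GQ.Sq
import Pool.Agent.Lib.MP_17a322_nt.GQ.Defs
import Pool.Agent.Lib.MP_17a322_nt.GQ.SqDef

/-!
The forms `X_i ^ 2 + X_0 X_j - X_0 X_k`: algebra.
-/

namespace Pool.Agent.Lib.MP_17a322_nt.GQ

open MvPolynomial

/-- Dehomogenisation. -/
noncomputable def dh {m : ℕ} : MvPolynomial (Fin (m + 1)) ℤ →ₐ[ℤ] MvPolynomial (Fin m) ℚ :=
  aeval (Fin.cons 1 X : Fin (m + 1) → MvPolynomial (Fin m) ℚ)

/-- The point `(1, y)`. -/
def hat {m : ℕ} (y : Fin m → ℚ) : Fin (m + 1) → ℚ := Fin.cons 1 y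

theorem eval_dh {m : ℕ} (y : Fin m → ℚ) (g : MvPolynomial (Fin (m + 1)) ℤ) :
    eval y (dh g) = aeval (hat y) g := by
  have h : ((aeval (R := ℚ) y).restrictScalars ℤ).comp dh = aeval (hat y) := by
    apply algHom_ext
    intro i
    rw [AlgHom.comp_apply, dh, aeval_X, aeval_X]
    refine Fin.cases ?_ (fun l => ?_) i
    · simp [hat]
    · simp [hat]
  have h2 := congrArg (fun f => f g) h
  simpa [AlgHom.comp_apply, aeval_eq_eval] using h2

theorem pderiv_dh {m : ℕ} (l : Fin m) (g : MvPolynomial (Fin (m + 1)) ℤ) :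
    pderiv l (dh g) = dh (pderiv l.succ g) := by
  induction g using MvPolynomial.induction_on with
  | C a => simp [dh]
  | add p q hp hq => simp only [map_add, hp, hq]
  | mul_X p i hp =>
    rw [map_mul, Derivation.leibniz, Derivation.leibniz, hp]
    have h1 : pderiv l (dh (X i : MvPolynomial (Fin (m + 1)) ℤ)) = dh (pderiv l.succ (X i)) := by
      rw [dh, aeval_X]
      refine Fin.cases ?_ (fun k => ?_) i
      · simp
      · rw [Fin.cons_succ]
        by_cases hk : l = k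
        · subst hk
          rw [pderiv_X_self, pderiv_X_self, map_one]
        · rw [pderiv_X_of_ne (Ne.symm hk), pderiv_X_of_ne (fun h => hk (Fin.succ_injective _ h).symm), map_zero]
    rw [h1]
    simp only [smul_eq_mul, map_add, map_mul]

theorem sqForm_hom {m : ℕ} (t : Fin (m + 1) × Fin (m + 1) × Fin (m + 1)) : (sqForm t).IsHomogeneous 2 := by
  refine IsHomogeneous.sub (IsHomogeneous.add ?_ ?_) ?_
  · exact (isHomogeneous_X ℤ t.1).pow 2
  · exact (isHomogeneous_X ℤ 0).mul (isHomogeneous_X ℤ t.2.1)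
  · exact (isHomogeneous_X ℤ 0).mul (isHomogeneous_X ℤ t.2.2)

theorem sqForm_zero {m : ℕ} : sqForm (0 : Fin (m + 1) × Fin (m + 1) × Fin (m + 1)) = X 0 ^ 2 := by
  change (X 0 ^ 2 + X 0 * X 0 - X 0 * X 0 : MvPolynomial (Fin (m + 1)) ℤ) = X 0 ^ 2
  ring

theorem dh_X {m : ℕ} (i : Fin (m + 1)) : dh (X i : MvPolynomial (Fin (m + 1)) ℤ) =
    (Fin.cons 1 X : Fin (m + 1) → MvPolynomial (Fin m) ℚ) i := by
  rw [dh, aeval_X]

/-- The correspondence of the indices. -/
theorem xo_eq {m : ℕ} (i : Fin (m + 1)) : ∃ o : Option (Fin m),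
    (Fin.cons 1 X : Fin (m + 1) → MvPolynomial (Fin m) ℚ) i = xo o := by
  refine Fin.cases ⟨none, ?_⟩ (fun l => ⟨some l, ?_⟩) i
  · simp [xo]
  · simp [xo]

theorem eq_xo {m : ℕ} (o : Option (Fin m)) : ∃ i : Fin (m + 1),
    (Fin.cons 1 X : Fin (m + 1) → MvPolynomial (Fin m) ℚ) i = xo o := by
  cases o with
  | none => exact ⟨0, by simp [xo]⟩
  | some l => exact ⟨l.succ, by simp [xo]⟩

/-- The value of a form at a multiple of a point. -/
theorem aeval_scale {m : ℕ} {g : MvPolynomial (Fin (m + 1)) ℤ} {d : ℕ} (hg : g.IsHomogeneous d) (t : ℚ)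
    (w : Fin (m + 1) → ℚ) : aeval (fun i => t * w i) g = t ^ d * aeval w g := by
  rw [aeval_def, aeval_def, eval₂_eq, eval₂_eq, Finset.mul_sum]
  apply Finset.sum_congr rfl
  intro a ha
  have h2 : ∀ i ∈ a.support, (t * w i) ^ a i = t ^ a i * w i ^ a i := fun i _ => mul_pow _ _ _
  rw [Finset.prod_congr rfl h2, Finset.prod_mul_distrib, Finset.prod_pow_eq_pow_sum]
  have h3 : d = a.degree := hg.degree_eq_sum_deg_support ha
  rw [h3, Finsupp.degree_apply]
  ring

theorem dh_ne {m : ℕ} {g : MvPolynomial (Fin (m + 1)) ℤ} {d : ℕ} (hg : g.IsHomogeneous d) (h0 : g ≠ 0) :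
    dh g ≠ 0 := by
  intro h
  apply h0
  have h1 : map (Int.castRingHom ℚ) g * X 0 = 0 := by
    apply MvPolynomial.funext
    intro w
    rw [map_mul, eval_X, map_zero]
    by_cases hw : w 0 = 0
    · rw [hw, mul_zero]
    · have h2 := aeval_scale hg (w 0) (hat fun l => w l.succ / w 0)
      have h3 : (fun i => w 0 * hat (fun l => w l.succ / w 0) i) = w := by
        funext i
        refine Fin.cases ?_ (fun l => ?_) i
        · simp [hat]
        · simp only [hat, Fin.cons_succ]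
          field_simp
      rw [h3, ← eval_dh, h, map_zero, mul_zero] at h2
      rw [eval_map]
      have h4 : eval₂ (Int.castRingHom ℚ) w g = aeval w g := rfl
      rw [h4, h2, zero_mul]
  rcases mul_eq_zero.1 h1 with h2 | h2
  · exact map_injective _ (Int.castRingHom ℚ).injective_int (h2.trans (map_zero _).symm)
  · exact absurd h2 (X_ne_zero 0)

theorem dh_mem {m : ℕ} (t : Fin (m + 1) × Fin (m + 1) × Fin (m + 1)) : dh (sqForm t) ∈ sqPoly (Fin m) := by
  rw [mem_sqPoly]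
  obtain ⟨a, ha⟩ := xo_eq t.1
  obtain ⟨b, hb⟩ := xo_eq t.2.1
  obtain ⟨c, hc⟩ := xo_eq t.2.2
  refine ⟨a, b, c, ?_⟩
  rw [sqForm, map_sub, map_add, map_mul, map_mul, map_pow, dh_X, dh_X, dh_X, dh_X, ha, hb, hc, Fin.cons_zero,
    one_mul, one_mul]

theorem exists_dh {m : ℕ} {p : MvPolynomial (Fin m) ℚ} (hp : p ∈ sqPoly (Fin m)) : ∃ t, dh (sqForm t) = p := by
  rw [mem_sqPoly] at hp
  obtain ⟨i, j, k, rfl⟩ := hp
  obtain ⟨a, ha⟩ := eq_xo i
  obtain ⟨b, hb⟩ := eq_xo j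
  obtain ⟨c, hc⟩ := eq_xo k
  refine ⟨(a, b, c), ?_⟩
  rw [sqForm, map_sub, map_add, map_mul, map_mul, map_pow, dh_X, dh_X, dh_X, dh_X, ha, hb, hc, Fin.cons_zero,
    one_mul, one_mul]

theorem sqForm_ne {m : ℕ} (t : Fin (m + 1) × Fin (m + 1) × Fin (m + 1)) : sqForm t ≠ 0 := by
  intro h
  have h1 := ne_zero_of_mem_sqPoly (dh_mem t)
  rw [h, map_zero] at h1
  exact h1 rfl

end Pool.Agent.Lib.MP_17a322_nt.GQ
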