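import Pool.Agent.Lib.MP_17a322_nt.GQ.SqB
import Pool.Agent.Lib.MP_17a322_nt.GQ.K1

/-!
The forms `X_i ^ 2 + X_0 X_j - X_0 X_k`: heights and places.
-/

namespace Pool.Agent.Lib.MP_17a322_nt.GQ

open MvPolynomial Height NumberField

variable {m : ℕ} {x : Fin (m + 1) → ℤ}

private theorem SqC_iSup {ι : Type*} [Fintype ι] [Nonempty ι] (y : ι → ℤ) :
    (((⨆ i, |y i|) : ℤ) : ℝ) = ‖y‖ := by
  rw [Finite.map_iSup_of_monotone _ Int.cast_mono]
  apply le_antisymm
  · apply ciSup_le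
    intro i
    have := norm_le_pi_norm y i
    rw [Int.norm_eq_abs] at this
    rw [Int.cast_abs]
    exact this
  · rw [pi_norm_le_iff_of_nonempty]
    intro i
    rw [Int.norm_eq_abs, ← Int.cast_abs]
    exact Finite.le_ciSup_of_le i (le_refl _)

/-- The height of a vector of integers. -/
theorem sqHeight_int {ι : Type*} [Fintype ι] [Nonempty ι] (x : ι → ℤ) (hx : x ≠ 0) :
    logHeight (fun i => (x i : ℚ)) = Real.log ‖x‖ - Real.log ((Finset.univ.gcd x : ℤ) : ℝ) := by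
  obtain ⟨y, hy, hg⟩ := Finset.extract_gcd (s := Finset.univ) x Finset.univ_nonempty
  set g : ℤ := Finset.univ.gcd x with hgdef
  have hg0 : g ≠ 0 := by
    intro h
    apply hx
    funext i
    rw [hy i (Finset.mem_univ i), h, zero_mul, Pi.zero_apply]
  have hgnn : 0 ≤ g := by
    have h1 : normalize g = g := Finset.normalize_gcd
    rw [← h1, ← Int.abs_eq_normalize]
    exact abs_nonneg g
  have hgp : 0 < g := lt_of_le_of_ne hgnn (Ne.symm hg0)
  have h1 : (fun i => (x i : ℚ)) = (g : ℚ) • (((↑) : ℤ → ℚ) ∘ y) := by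
    funext i
    rw [Pi.smul_apply, smul_eq_mul, Function.comp_apply, hy i (Finset.mem_univ i), Int.cast_mul]
  have h2 : x = g • y := by
    funext i
    rw [Pi.smul_apply, smul_eq_mul, ← hy i (Finset.mem_univ i)]
  have hy0 : y ≠ 0 := by
    intro h
    apply hx
    rw [h2, h, smul_zero]
  have h3 : ‖x‖ = (g : ℝ) * ‖y‖ := by
    rw [← SqC_iSup, ← SqC_iSup, ← Int.cast_mul]
    congr 1
    have h4 : ∀ i, |x i| = g * |y i| := by
      intro i
      rw [hy i (Finset.mem_univ i), abs_mul, abs_of_pos hgp]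
    simp only [h4]
    obtain ⟨i₀, hi₀⟩ := exists_eq_ciSup_of_finite (f := fun i => |y i|)
    apply le_antisymm
    · apply ciSup_le
      intro i
      exact mul_le_mul_of_nonneg_left (Finite.le_ciSup_of_le i (le_refl _)) hgnn
    · rw [← hi₀]
      exact Finite.le_ciSup_of_le i₀ (le_refl _)
  rw [h1, logHeight_smul_eq_logHeight _ (Int.cast_ne_zero.2 hg0), Rat.logHeight_eq_max_abs_of_gcd_eq_one hg,
    SqC_iSup, h3, Real.log_mul (Int.cast_ne_zero.2 hg0) (norm_ne_zero_iff.2 hy0)]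
  ring

theorem sqGcd_pos {ι : Type*} [Fintype ι] (x : ι → ℤ) (hx : x ≠ 0) : 0 < Finset.univ.gcd x := by
  have h1 : normalize (Finset.univ.gcd x) = Finset.univ.gcd x := Finset.normalize_gcd
  have h2 : 0 ≤ Finset.univ.gcd x := by
    rw [← h1, ← Int.abs_eq_normalize]
    exact abs_nonneg _
  refine lt_of_le_of_ne h2 fun h => hx ?_
  funext i
  exact Finset.gcd_eq_zero_iff.1 h.symm i (Finset.mem_univ i)

/-- The vector of the determinants, up to a factor. -/
noncomputable def sqD (x : Fin (m + 1) → ℤ) (s : Fin (m + 1) → Fin (m + 1) × Fin (m + 1) × Fin (m + 1)) : ℚ :=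
  ∑ i : Fin (m + 1), (-1) ^ (i : ℕ) * 2 * vec (sqPoly (Fin m)) (aff x) (dhs fun k => s (i.succAbove k))

theorem height_sqDet (hx : x 0 ≠ 0) (h0 : ∀ t, eval x (sqForm t) ≠ 0) :
    logHeight (fun s => ((sqDet x s : ℤ) : ℚ)) = logHeight (sqD x) := by
  have hx' : (x 0 : ℚ) ≠ 0 := by exact_mod_cast hx
  have hN : ((∏ a, eval x (sqForm a) : ℤ) : ℚ) ≠ 0 := by
    exact_mod_cast Finset.prod_ne_zero_iff.2 fun a _ => h0 a
  have h1 : (fun s => ((sqDet x s : ℤ) : ℚ)) =
      (((∏ a, eval x (sqForm a) : ℤ) : ℚ) * ((x 0 : ℚ) ^ (m + 1))⁻¹) • sqD x := by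
    funext s
    have h2 := det_lg hx h0 s
    rw [Pi.smul_apply, sqD, ← h2, cast_sqDet h0, smul_eq_mul]
    have h3 : (x 0 : ℚ) ^ (m + 1) ≠ 0 := pow_ne_zero _ hx'
    field_simp
  rw [h1, logHeight_smul_eq_logHeight _ (mul_ne_zero hN (inv_ne_zero (pow_ne_zero _ hx')))]

theorem height_le (hx : x 0 ≠ 0) (h0 : ∀ t, eval x (sqForm t) ≠ 0) :
    logHeight (vec (sqPoly (Fin m)) (aff x)) ≤ logHeight (fun s => ((sqDet x s : ℤ) : ℚ)) := by
  rw [height_sqDet hx h0]
  choose! lift hl using fun (p : MvPolynomial (Fin m) ℚ) (hp : p ∈ sqPoly (Fin m)) => exists_dh hp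
  obtain ⟨f, hf⟩ : ∃ f : (Fin m → sqPoly (Fin m)) → (Fin (m + 1) → Fin (m + 1) × Fin (m + 1) × Fin (m + 1)),
      f = fun I => Fin.cons 0 (fun k => lift (I k).1) := ⟨_, rfl⟩
  have hf0 : ∀ I, f I 0 = 0 := fun I => by
    subst hf
    rfl
  have hfs : ∀ I k, f I (Fin.succ k) = lift (I k).1 := fun I k => by
    subst hf
    rfl
  have h1 : (2 : ℚ) • vec (sqPoly (Fin m)) (aff x) = sqD x ∘ f := by
    funext I
    rw [Function.comp_apply, sqD, Fin.sum_univ_succ, Pi.smul_apply, smul_eq_mul]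
    have h2 : ∀ k : Fin m, (-1 : ℚ) ^ ((k.succ : Fin (m + 1)) : ℕ) * 2 *
        vec (sqPoly (Fin m)) (aff x) (dhs fun j => f I (k.succ.succAbove j)) = 0 := by
      intro k
      have h3 : vec (sqPoly (Fin m)) (aff x) (dhs fun j => f I (k.succ.succAbove j)) = 0 := by
        have : NeZero m := ⟨fun h => by subst h; exact k.elim0⟩
        apply Matrix.det_eq_zero_of_row_eq_zero (0 : Fin m)
        intro l
        have h4 : (dhs (fun j => f I (k.succ.succAbove j)) 0).1 = 1 := by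
          have h5 : k.succ.succAbove (0 : Fin m) = 0 := Fin.succ_succAbove_zero k
          simp only [dhs]
          rw [h5, hf0, sqForm_zero, map_pow, dh_X, Fin.cons_zero, one_pow]
        rw [Matrix.of_apply, h4, pderiv_one, map_zero, zero_div]
      rw [h3, mul_zero]
    rw [Finset.sum_eq_zero fun k _ => h2 k, add_zero]
    have h3 : (dhs fun j => f I ((0 : Fin (m + 1)).succAbove j)) = I := by
      funext j
      apply Subtype.ext
      simp only [dhs]
      rw [Fin.succAbove_zero, hfs]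
      exact hl _ (I j).2
    rw [h3]
    simp
  rw [← logHeight_smul_eq_logHeight _ (two_ne_zero (α := ℚ)), h1]
  exact logHeight_comp_le _ _

theorem le_height (m : ℕ) : ∃ C : ℝ, 0 ≤ C ∧ ∀ x : Fin (m + 1) → ℤ, x 0 ≠ 0 → (∀ t, eval x (sqForm t) ≠ 0) →
    logHeight (fun s => ((sqDet x s : ℤ) : ℚ)) ≤ logHeight (vec (sqPoly (Fin m)) (aff x)) + C := by
  classical
  obtain ⟨A, hA⟩ : ∃ A : (Fin (m + 1) → Fin (m + 1) × Fin (m + 1) × Fin (m + 1)) × (Fin m → sqPoly (Fin m)) → ℚ,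
      A = fun p => ∑ i : Fin (m + 1), if (dhs fun k => p.1 (i.succAbove k)) = p.2 then (-1) ^ (i : ℕ) * 2 else 0 :=
    ⟨_, rfl⟩
  refine ⟨|totalWeight ℚ * Real.log (Nat.card (Fin m → sqPoly (Fin m))) + logHeight A|, abs_nonneg _, ?_⟩
  intro x hx h0
  rw [height_sqDet hx h0]
  have h1 : sqD x = fun s => ∑ I, A (s, I) * vec (sqPoly (Fin m)) (aff x) I := by
    funext s
    rw [sqD, hA]
    simp only [Finset.sum_mul]
    rw [Finset.sum_comm]
    apply Finset.sum_congr rfl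
    intro i _
    simp only [ite_mul, zero_mul]
    rw [Finset.sum_ite_eq]
    simp
  rw [h1]
  have h2 := logHeight_linearMap_apply_le A (vec (sqPoly (Fin m)) (aff x))
  have h3 := le_abs_self (totalWeight ℚ * Real.log (Nat.card (Fin m → sqPoly (Fin m))) + logHeight A)
  linarith

/-- The height of the point. -/
theorem height_aff (hx : x 0 ≠ 0) (hg : Finset.univ.gcd x = 1) :
    logHeight (fun o : Option (Fin m) => o.elim 1 (aff x)) = Real.log ‖x‖ := by
  have hx' : (x 0 : ℚ) ≠ 0 := by exact_mod_cast hx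
  have hx0 : x ≠ 0 := fun h => hx (by rw [h]; rfl)
  have h1 : (fun o : Option (Fin m) => o.elim 1 (aff x)) ∘ finSuccEquiv m = hat (aff x) := by
    funext i
    refine Fin.cases ?_ (fun l => ?_) i
    · simp [hat]
    · simp [hat]
  have h2 : (x 0 : ℚ) • hat (aff x) = fun i => (x i : ℚ) := by
    rw [← hat_aff hx]
    rfl
  rw [← logHeight_comp_equiv (finSuccEquiv m), h1, ← logHeight_smul_eq_logHeight _ hx', h2, sqHeight_int x hx0, hg]
  simp

private theorem SqC_vint (v : FinitePlace ℚ) (z : ℤ) : v (z : ℚ) = v ((z.natAbs : ℕ) : ℚ) := by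
  rcases Int.natAbs_eq z with h | h
  · conv_lhs => rw [h]
    rw [Int.cast_natCast]
  · conv_lhs => rw [h]
    rw [Int.cast_neg, Int.cast_natCast, map_neg_eq_map]

private theorem SqC_lt (v : FinitePlace ℚ) (z : ℤ) : v (z : ℚ) < 1 ↔ pr v ∣ z.natAbs := by
  rw [SqC_vint, apply_lt_one_iff]

private theorem SqC_eq (v : FinitePlace ℚ) (z : ℤ) (h : ¬ pr v ∣ z.natAbs) : v (z : ℚ) = 1 := by
  rw [SqC_vint, apply_eq_one _ _ h]

private theorem SqC_prod (x : Fin (m + 1) → ℤ) : (∏ a, eval x (sqForm a)).natAbs =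
    ∏ a, (eval x (sqForm a)).natAbs := map_prod Int.natAbsHom _ _

theorem places (hx : x 0 ≠ 0) (hg : Finset.univ.gcd x = 1) (v : FinitePlace ℚ) :
    (∃ p ∈ sqPoly (Fin m), v (eval (aff x) p) ≠ 1) ↔ pr v ∣ (∏ a, eval x (sqForm a)).natAbs := by
  have hx' : (x 0 : ℚ) ≠ 0 := by exact_mod_cast hx
  have hkey : v (x 0 : ℚ) = 1 → ∀ a : Fin (m + 1) × Fin (m + 1) × Fin (m + 1),
      v (eval (aff x) (dh (sqForm a))) = v ((eval x (sqForm a) : ℤ) : ℚ) := by
    intro h a
    rw [eval_x (sqForm_hom a) hx, map_mul, map_pow, h, one_pow, one_mul]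
  constructor
  · intro h
    by_contra hN
    have h1 : ∀ a, ¬ pr v ∣ (eval x (sqForm a)).natAbs := by
      intro a hdv
      apply hN
      rw [SqC_prod]
      exact hdv.trans (Finset.dvd_prod_of_mem _ (Finset.mem_univ a))
    have h2 : v (x 0 : ℚ) = 1 := by
      have h3 := SqC_eq v _ (h1 0)
      rw [sqForm_zero, map_pow, eval_X, Int.cast_pow, map_pow] at h3
      exact (pow_eq_one_iff_of_nonneg (apply_nonneg v _) two_ne_zero).1 h3
    obtain ⟨p, hp, hpv⟩ := h
    obtain ⟨a, rfl⟩ := exists_dh hp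
    apply hpv
    rw [hkey h2 a]
    exact SqC_eq v _ (h1 a)
  · intro hN
    rw [SqC_prod, (pr_prime v).prime.dvd_finsetProd_iff] at hN
    obtain ⟨a, -, hdv⟩ := hN
    by_contra hcon
    push Not at hcon
    have h1 : ∀ i, v (x i : ℚ) = v (x 0 : ℚ) := by
      intro i
      refine Fin.cases rfl (fun l => ?_) i
      have h2 := hcon _ (X_mem_sqPoly l)
      rw [eval_X, aff, map_div₀] at h2
      have h3 : v (x 0 : ℚ) ≠ 0 := (map_ne_zero v).2 hx'
      field_simp at h2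
      exact h2
    have h2 : v (x 0 : ℚ) = 1 := by
      by_contra h3
      have h4 : ∀ i, (pr v : ℤ) ∣ x i := by
        intro i
        have h5 : pr v ∣ (x i).natAbs := by
          by_contra h6
          exact h3 ((h1 i).symm.trans (SqC_eq v _ h6))
        exact Int.natCast_dvd.2 h5
      have h5 : (pr v : ℤ) ∣ Finset.univ.gcd x := Finset.dvd_gcd fun i _ => h4 i
      rw [hg] at h5
      have h6 := Int.natCast_dvd.1 h5
      exact (pr_prime v).one_lt.ne' (Nat.dvd_one.1 h6)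
    have h3 := hcon _ (dh_mem a)
    rw [hkey h2 a] at h3
    exact absurd h3 (ne_of_lt ((SqC_lt v _).2 hdv))

theorem finsum_pr (n : ℕ) (hn : n ≠ 0) :
    (∑ᶠ v ∈ {v : FinitePlace ℚ | pr v ∣ n}, Real.log (Ideal.absNorm v.maximalIdeal.asIdeal)) =
      Real.log (∏ p ∈ n.primeFactors, (p : ℝ)) := by
  rw [Real.log_prod fun p hp => by
    have := (Nat.prime_of_mem_primeFactors hp).ne_zero
    exact_mod_cast this, ← finsum_mem_coe_finset]
  apply finsum_mem_eq_of_bijOn pr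
  · refine ⟨fun v hv => ?_, fun v _ w _ h => pr_inj h, fun p hp => ?_⟩
    · exact Nat.mem_primeFactors.2 ⟨pr_prime v, hv, hn⟩
    · obtain ⟨v, rfl⟩ := exists_pr (Nat.prime_of_mem_primeFactors hp)
      exact ⟨v, Nat.dvd_of_mem_primeFactors hp, rfl⟩
  · intro v _
    rw [absNorm_pr]

end Pool.Agent.Lib.MP_17a322_nt.GQ
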