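import Pool.Agent.Lib.MP_17a322_nt.GQ.K1

/-!
The choice of a rational number which is very divisible by the primes of a given set, very small, and has only one
further prime.
-/

namespace Pool.Agent.Lib.MP_17a322_nt.GQ

open NumberField IsDedekindDomain Height

/-- If all primes up to `2 ^ k` divide `B` then `B` is large (Bertrand). -/
private theorem K1b_bertrand (k B : ℕ) (hB : B ≠ 0) (h : ∀ p : ℕ, p.Prime → p ≤ 2 ^ k → p ∣ B) :
    2 ^ (∑ i ∈ Finset.range k, i) ≤ B := by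
  have hp : ∀ i : ℕ, ∃ p : ℕ, p.Prime ∧ 2 ^ i < p ∧ p ≤ 2 ^ (i + 1) := by
    intro i
    obtain ⟨p, h1, h2, h3⟩ := Nat.exists_prime_lt_and_le_two_mul (2 ^ i) (by positivity)
    exact ⟨p, h1, h2, by rw [pow_succ]; omega⟩
  choose p hp1 hp2 hp3 using hp
  have hinj : Function.Injective p := by
    have hmono : StrictMono p := strictMono_nat_of_lt_succ fun i => by
      have h1 := hp3 i
      have h2 := hp2 (i + 1)
      omega
    exact hmono.injective
  have hdvd : ∏ q ∈ (Finset.range k).image p, q ∣ B := by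
    apply Finset.prod_primes_dvd
    · intro q hq
      rw [Finset.mem_image] at hq
      obtain ⟨i, _, rfl⟩ := hq
      exact (hp1 i).prime
    · intro q hq
      rw [Finset.mem_image] at hq
      obtain ⟨i, hi, rfl⟩ := hq
      apply h _ (hp1 i)
      refine (hp3 i).trans (Nat.pow_le_pow_right (by norm_num) ?_)
      exact Nat.succ_le_of_lt (Finset.mem_range.1 hi)
  rw [Finset.prod_image fun a _ b _ hab => hinj hab] at hdvd
  refine le_trans ?_ (Nat.le_of_dvd (Nat.pos_of_ne_zero hB) hdvd)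
  rw [← Finset.prod_pow_eq_pow_sum]
  exact Finset.prod_le_prod' fun i _ => (hp2 i).le

/-- A small prime which does not divide `B`. -/
theorem exists_small_prime (ε : ℝ) (hε : 0 < ε) : ∃ C : ℝ, 0 ≤ C ∧ ∀ (B : ℕ) (M : ℝ), B ≠ 0 →
    Real.log B ≤ M → ∃ p : ℕ, p.Prime ∧ ¬ p ∣ B ∧ Real.log p ≤ ε * M + C := by
  have hl2 : 0 < Real.log 2 := Real.log_pos (by norm_num)
  set L : ℕ := ⌈2 / ε⌉₊ + 3 with hL
  refine ⟨(1 + L) * Real.log 2, by positivity, fun B M hB hM => ?_⟩
  have hM0 : 0 ≤ M := (Real.log_nonneg (by exact_mod_cast Nat.one_le_iff_ne_zero.2 hB)).trans hM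
  set k : ℕ := ⌈ε * M / Real.log 2⌉₊ + L with hk
  have hk1 : ε * M / Real.log 2 + L ≤ k := by
    rw [hk]
    push_cast
    have := Nat.le_ceil (ε * M / Real.log 2)
    linarith
  have hk2 : (k : ℝ) ≤ ε * M / Real.log 2 + 1 + L := by
    rw [hk]
    push_cast
    have := (Nat.ceil_lt_add_one (a := ε * M / Real.log 2) (by positivity)).le
    linarith
  have hLr : 2 / ε + 3 ≤ (L : ℝ) := by
    rw [hL]
    push_cast
    have := Nat.le_ceil (2 / ε)
    linarith
  have h2ε : 0 < 2 / ε := by positivity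
  have hq : 0 ≤ ε * M / Real.log 2 := by positivity
  by_contra hne
  push Not at hne
  have hall : ∀ p : ℕ, p.Prime → p ≤ 2 ^ k → p ∣ B := by
    intro p hp hpk
    by_contra hnd
    have h1 := hne p hp hnd
    have h2 : Real.log p ≤ k * Real.log 2 := by
      rw [← Real.log_pow]
      apply Real.log_le_log (by exact_mod_cast hp.pos)
      exact_mod_cast hpk
    have h3 : (k : ℝ) * Real.log 2 ≤ (ε * M / Real.log 2 + 1 + L) * Real.log 2 :=
      mul_le_mul_of_nonneg_right hk2 hl2.le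
    have h4 : (ε * M / Real.log 2 + 1 + L) * Real.log 2 = ε * M + (1 + L) * Real.log 2 := by
      field_simp
      ring
    linarith
  have h1 := K1b_bertrand k B hB hall
  have h2 : ((∑ i ∈ Finset.range k, i : ℕ) : ℝ) * Real.log 2 ≤ M := by
    rw [← Real.log_pow]
    refine le_trans (Real.log_le_log (by positivity) ?_) hM
    exact_mod_cast h1
  have h3 : ((∑ i ∈ Finset.range k, i : ℕ) : ℝ) * 2 = k * (k - 1) := by
    have h4 := Finset.sum_range_id_mul_two k
    have h5 : 1 ≤ k := by omega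
    have h6 : (((∑ i ∈ Finset.range k, i) * 2 : ℕ) : ℝ) = ((k * (k - 1) : ℕ) : ℝ) := by rw [h4]
    rw [Nat.cast_mul, Nat.cast_mul, Nat.cast_sub h5] at h6
    push_cast at h6 ⊢
    linarith
  have h7 : M < (k * (k - 1)) / 2 * Real.log 2 := by
    have h8 : ε * M / Real.log 2 + 1 ≤ k := by linarith
    have h9 : 2 / ε + 2 ≤ (k : ℝ) - 1 := by linarith
    have h10 : (ε * M / Real.log 2 + 1) * (2 / ε + 2) ≤ k * (k - 1) :=
      mul_le_mul h8 h9 (by positivity) (by linarith)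
    have h11 : M < (ε * M / Real.log 2 + 1) * (2 / ε + 2) / 2 * Real.log 2 := by
      have h12 : (ε * M / Real.log 2 + 1) * (2 / ε + 2) / 2 * Real.log 2 =
          M + ε * M + (1 / ε + 1) * Real.log 2 := by
        field_simp
      rw [h12]
      have : 0 < (1 / ε + 1) * Real.log 2 := by positivity
      have : 0 ≤ ε * M := by positivity
      linarith
    refine h11.trans_le ?_
    apply mul_le_mul_of_nonneg_right _ hl2.le
    linarith
  have h13 : ((∑ i ∈ Finset.range k, i : ℕ) : ℝ) = (k * (k - 1)) / 2 := by linarith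
  rw [h13] at h2
  linarith

theorem apply_pow (v : FinitePlace ℚ) (q j : ℕ) (hq : q.Prime) (h : q ≠ pr v) : v ((q ^ j : ℕ) : ℚ) = 1 := by
  rw [Nat.cast_pow, map_pow, apply_eq_one v q, one_pow]
  intro hd
  exact h ((Nat.prime_dvd_prime_iff_eq (pr_prime v) hq).1 hd).symm

theorem apply_natCast (v : FinitePlace ℚ) (n : ℕ) (hn : n ≠ 0) :
    v (n : ℚ) = ((pr v : ℝ)⁻¹) ^ n.factorization (pr v) := by
  have h1 := Nat.ordProj_mul_ordCompl_eq_self n (pr v)
  have h2 := Nat.not_dvd_ordCompl (pr_prime v) hn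
  have h3 : (n : ℚ) = ((pr v : ℕ) : ℚ) ^ n.factorization (pr v) * ((n / pr v ^ n.factorization (pr v) : ℕ) : ℚ) := by
    rw [← Nat.cast_pow, ← Nat.cast_mul, h1]
  rw [h3, map_mul, map_pow, apply_pr, apply_eq_one v _ h2, mul_one]

/-- The choice of `δ`: a positive rational number which is more divisible than `B` at the places of `S`, whose only
other prime is `pr v₀`, which does not divide `B` and is small, which is small, and has a small height. -/
theorem exists_delta (A ε : ℝ) (hA : 0 ≤ A) (hε : 0 < ε) : ∃ C : ℝ, 0 ≤ C ∧ ∀ (S : Set (FinitePlace ℚ)) (B : ℤ),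
    B ≠ 0 → (∀ v ∈ S, v (B : ℚ) < 1) → ∀ M : ℝ, Real.log |(B : ℝ)| ≤ M →
      ∃ (v₀ : FinitePlace ℚ) (δ : ℚ), 0 < δ ∧ v₀ ∉ S ∧ v₀ (B : ℚ) = 1 ∧
        Real.log (Ideal.absNorm v₀.maximalIdeal.asIdeal) ≤ ε * M + C ∧ (∀ v ∈ S, v δ < v (B : ℚ)) ∧
          (∀ v, v ∉ S → v ≠ v₀ → v δ = 1) ∧ (δ : ℝ) ≤ Real.exp (-(A * M)) ∧
            logHeight₁ δ ≤ C * M + C := by
  classical
  obtain ⟨C₁, hC₁, hp⟩ := exists_small_prime ε hε
  refine ⟨4 + ε + A + C₁, by positivity, fun S B hB hS M hM => ?_⟩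
  set b : ℕ := B.natAbs with hb
  have hb0 : b ≠ 0 := Int.natAbs_ne_zero.2 hB
  have hbr : ((b : ℕ) : ℝ) = |(B : ℝ)| := by
    rw [hb, Nat.cast_natAbs, Int.cast_abs]
  have hM' : Real.log b ≤ M := by rw [hbr]; exact hM
  have hM0 : 0 ≤ M := (Real.log_nonneg (by exact_mod_cast Nat.one_le_iff_ne_zero.2 hb0)).trans hM'
  have hvB : ∀ v : FinitePlace ℚ, v (B : ℚ) = v ((b : ℕ) : ℚ) := by
    intro v
    have h1 : ((b : ℕ) : ℚ) = |(B : ℚ)| := by
      rw [hb, Nat.cast_natAbs, Int.cast_abs]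
    rw [h1]
    rcases abs_choice (B : ℚ) with h2 | h2
    · rw [h2]
    · rw [h2]
      exact (v.1.map_neg (B : ℚ)).symm
  obtain ⟨p, hpp, hpb, hpl⟩ := hp b M hb0 hM'
  obtain ⟨v₀, hv₀⟩ := exists_pr hpp
  set T : Finset ℕ := b.primeFactors.filter fun q => ∃ v ∈ S, pr v = q with hT
  set N : ℕ := ∏ q ∈ T, q ^ (1 + b.factorization q) with hN
  have hTp : ∀ q ∈ T, q.Prime := fun q hq => Nat.prime_of_mem_primeFactors (Finset.mem_filter.1 hq).1
  have hN0 : N ≠ 0 := Finset.prod_ne_zero_iff.2 fun q hq => pow_ne_zero _ (hTp q hq).ne_zero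
  have hNle : N ≤ b * b := by
    have h1 : N = (∏ q ∈ T, q) * ∏ q ∈ T, q ^ b.factorization q := by
      rw [hN, ← Finset.prod_mul_distrib]
      exact Finset.prod_congr rfl fun q _ => by rw [pow_add, pow_one]
    rw [h1]
    apply Nat.mul_le_mul
    · refine Nat.le_of_dvd (Nat.pos_of_ne_zero hb0) (dvd_trans (Finset.prod_dvd_prod_of_subset T
        b.primeFactors _ (Finset.filter_subset _ _)) (Nat.prod_primeFactors_dvd b))
    · have h2 : ∏ q ∈ b.primeFactors, q ^ b.factorization q = b := Nat.prod_factorization_pow_eq_self hb0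
      refine le_trans (Nat.le_of_dvd ?_ (Finset.prod_dvd_prod_of_subset T b.primeFactors _
        (Finset.filter_subset _ _))) h2.le
      rw [h2]
      exact Nat.pos_of_ne_zero hb0
  have hNr : (1 : ℝ) ≤ N := by exact_mod_cast Nat.one_le_iff_ne_zero.2 hN0
  have hlN : Real.log N ≤ 2 * M := by
    have h1 : Real.log N ≤ Real.log (b * b) := by
      apply Real.log_le_log (by linarith)
      exact_mod_cast hNle
    rw [Real.log_mul (by exact_mod_cast hb0) (by exact_mod_cast hb0)] at h1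
    linarith
  have hp1 : (1 : ℝ) < p := by exact_mod_cast hpp.one_lt
  have hAM : 0 ≤ A * M := mul_nonneg hA hM0
  have hx : (1 : ℝ) ≤ N * Real.exp (A * M) := by
    have := Real.one_le_exp hAM
    nlinarith
  obtain ⟨m, hm1, hm2⟩ := exists_nat_pow_near hx hp1
  have hpm : (0 : ℝ) < (p : ℝ) ^ (m + 1) := by positivity
  have hpQ : ((p : ℕ) : ℚ) ≠ 0 := Nat.cast_ne_zero.2 hpp.ne_zero
  have hNQ : ((N : ℕ) : ℚ) ≠ 0 := Nat.cast_ne_zero.2 hN0
  have hvp : ∀ v : FinitePlace ℚ, v ≠ v₀ → v (((p ^ (m + 1) : ℕ) : ℚ)) = 1 := by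
    intro v hv
    apply apply_pow v p (m + 1) hpp
    intro h
    exact hv (pr_inj (by rw [← h, hv₀]))
  have hSpr : ∀ v ∈ S, pr v ∣ b := by
    intro v hv
    rw [← apply_lt_one_iff, ← hvB]
    exact hS v hv
  have hv₀S : v₀ ∉ S := fun h => hpb (hv₀ ▸ hSpr v₀ h)
  have hTmem : ∀ v : FinitePlace ℚ, pr v ∈ T ↔ v ∈ S := by
    intro v
    rw [hT, Finset.mem_filter]
    constructor
    · rintro ⟨_, w, hw, hwv⟩
      rw [← pr_inj hwv]
      exact hw
    · intro hv
      exact ⟨Nat.mem_primeFactors.2 ⟨pr_prime v, hSpr v hv, hb0⟩, v, hv, rfl⟩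
  have hvN1 : ∀ v : FinitePlace ℚ, v ∉ S → v ((N : ℕ) : ℚ) = 1 := by
    intro v hv
    rw [hN, Nat.cast_prod, map_prod]
    apply Finset.prod_eq_one
    intro q hq
    apply apply_pow v q _ (hTp q hq)
    intro h
    exact hv ((hTmem v).1 (h ▸ hq))
  have hvN2 : ∀ v ∈ S, v ((N : ℕ) : ℚ) = ((pr v : ℝ)⁻¹) ^ (1 + b.factorization (pr v)) := by
    intro v hv
    rw [hN, Nat.cast_prod, map_prod, Finset.prod_eq_single (pr v)]
    · rw [Nat.cast_pow, map_pow, apply_pr]
    · intro q hq hqv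
      exact apply_pow v q _ (hTp q hq) hqv
    · intro h
      exact absurd ((hTmem v).2 hv) h
  refine ⟨v₀, (N : ℚ) / ((p ^ (m + 1) : ℕ) : ℚ), ?_, hv₀S, ?_, ?_, ?_, ?_, ?_, ?_⟩
  · apply div_pos
    · exact_mod_cast Nat.pos_of_ne_zero hN0
    · exact_mod_cast pow_pos hpp.pos (m + 1)
  · rw [hvB]
    apply apply_eq_one
    rw [hv₀]
    exact hpb
  · rw [absNorm_pr, hv₀]
    have : 0 ≤ (4 + ε + A) := by positivity
    linarith
  · intro v hv
    have h1 : v ≠ v₀ := fun h => hv₀S (h ▸ hv)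
    rw [map_div₀, hvp v h1, div_one, hvN2 v hv, hvB, apply_natCast v b hb0, add_comm, pow_succ]
    have h2 : (1 : ℝ) < pr v := by exact_mod_cast (pr_prime v).one_lt
    have h3 : ((pr v : ℝ)⁻¹) < 1 := inv_lt_one_of_one_lt₀ h2
    have h4 : 0 < ((pr v : ℝ)⁻¹) ^ b.factorization (pr v) := by positivity
    exact mul_lt_of_lt_one_right h4 h3
  · intro v hv hv0
    rw [map_div₀, hvp v hv0, hvN1 v hv, div_one]
  · push_cast
    rw [div_le_iff₀ hpm, Real.exp_neg]
    have h1 := Real.exp_pos (A * M)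
    rw [← div_le_iff₀' (by positivity), div_inv_eq_mul]
    exact hm2.le
  · have hcast : (N : ℚ) / ((p ^ (m + 1) : ℕ) : ℚ) = (N : ℚ) * (((p ^ (m + 1) : ℕ) : ℚ))⁻¹ := div_eq_mul_inv _ _
    rw [hcast]
    refine (logHeight₁_mul_le _ _).trans ?_
    rw [logHeight₁_inv]
    have : NeZero N := ⟨hN0⟩
    have : NeZero (p ^ (m + 1)) := ⟨pow_ne_zero _ hpp.ne_zero⟩
    rw [Rat.logHeight₁_natCast, Rat.logHeight₁_natCast]
    have h1 : Real.log (((p ^ (m + 1) : ℕ) : ℝ)) ≤ Real.log p + (Real.log N + A * M) := by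
      push_cast
      have h2 : (p : ℝ) ^ (m + 1) ≤ p * (N * Real.exp (A * M)) := by
        rw [pow_succ, mul_comm]
        exact mul_le_mul_of_nonneg_left hm1 (by positivity)
      have h3 := Real.log_le_log hpm h2
      rw [Real.log_mul (by positivity) (by positivity), Real.log_mul (by positivity) (by positivity),
        Real.log_exp] at h3
      exact h3
    have h4 : 0 ≤ (4 + ε + A) := by positivity
    have h5 : 0 ≤ C₁ * M := mul_nonneg hC₁ hM0
    nlinarith

end Pool.Agent.Lib.MP_17a322_nt.GQ
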