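import Pool.Agent.Lib.MP_17a322_nt.GQ.K1b

/-!
The choice of a small and very divisible parameter for a finite set of polynomials.
-/

namespace Pool.Agent.Lib.MP_17a322_nt.GQ

open NumberField IsDedekindDomain Height MvPolynomial

theorem apply_int_le_one (v : FinitePlace ℚ) (n : ℤ) : v (n : ℚ) ≤ 1 := by
  have h := FinitePlace.norm_le_one (K := ℚ) v.maximalIdeal (n : 𝓞 ℚ)
  have h2 := FinitePlace.norm_embedding_eq v (algebraMap (𝓞 ℚ) ℚ (n : 𝓞 ℚ))
  have h3 : algebraMap (𝓞 ℚ) ℚ (n : 𝓞 ℚ) = (n : ℚ) := map_intCast _ n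
  rw [h2, h3] at h
  exact h

private theorem K1c_nonarch (v : FinitePlace ℚ) (x y : ℚ) (η : ℝ) (hx : v x ≤ η) (hy : v y ≤ η) :
    v (x + y) ≤ η := (FinitePlace.add_le v x y).trans (max_le hx hy)

/-- Integrality, size and continuity of the values of a polynomial. -/
private theorem K1c_poly {σ : Type} (u : MvPolynomial σ ℚ) :
    ∃ (N D : ℕ) (K : ℝ), N ≠ 0 ∧ 1 ≤ K ∧
      (∀ (x : σ → ℚ) (b : ℕ), (∀ i, ∃ z : ℤ, (b : ℚ) * x i = z) →
        ∃ z : ℤ, (N : ℚ) * (b : ℚ) ^ D * eval x u = z) ∧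
      (∀ (x : σ → ℚ) (R : ℝ), 1 ≤ R → (∀ i, |((x i : ℚ) : ℝ)| ≤ R) →
        |((eval x u : ℚ) : ℝ)| ≤ K * R ^ D) ∧
      (∀ (v : FinitePlace ℚ) (x : σ → ℚ) (b : ℕ), (∀ i, v (b * x i) ≤ 1) →
        v ((N : ℚ) * (b : ℚ) ^ D * eval x u) ≤ 1) ∧
      (∀ (v : FinitePlace ℚ) (x y : σ → ℚ) (b : ℕ) (η : ℝ), 0 ≤ η → (∀ i, v (b * x i) ≤ 1) →
        (∀ i, v (b * y i) ≤ 1) → (∀ i, v (b * (x i - y i)) ≤ η) →
          v ((N : ℚ) * (b : ℚ) ^ D * (eval x u - eval y u)) ≤ η) ∧
      (∀ (x y : σ → ℚ) (R η : ℝ), 1 ≤ R → 0 ≤ η → (∀ i, |((x i : ℚ) : ℝ)| ≤ R) →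
        (∀ i, |((y i : ℚ) : ℝ)| ≤ R) → (∀ i, |((x i - y i : ℚ) : ℝ)| ≤ η) →
          |((eval x u - eval y u : ℚ) : ℝ)| ≤ K * R ^ D * η) := by
  induction u using MvPolynomial.induction_on with
  | C a =>
    refine ⟨a.den, 0, max 1 |(a : ℝ)|, a.den_nz, le_max_left _ _, ?_, ?_, ?_, ?_, ?_⟩
    · intro x b _
      refine ⟨a.num, ?_⟩
      rw [pow_zero, mul_one, eval_C, mul_comm, Rat.mul_den_eq_num]
    · intro x R _ _
      rw [eval_C, pow_zero, mul_one]
      exact le_max_right _ _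
    · intro v x b _
      rw [pow_zero, mul_one, eval_C, mul_comm, Rat.mul_den_eq_num]
      exact apply_int_le_one v a.num
    · intro v x y b η hη _ _ _
      rw [eval_C, eval_C, sub_self, mul_zero, map_zero]
      exact hη
    · intro x y R η _ hη _ _ _
      rw [eval_C, eval_C, sub_self]
      simp only [Rat.cast_zero, abs_zero]
      positivity
  | add p q hp hq =>
    obtain ⟨N, D, K, hN, hK, p1, p2, p3, p4, p5⟩ := hp
    obtain ⟨N', D', K', hN', hK', q1, q2, q3, q4, q5⟩ := hq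
    have hbN : ∀ (v : FinitePlace ℚ) (b : ℕ), v ((N' : ℚ) * (b : ℚ) ^ D') ≤ 1 := by
      intro v b
      have h := apply_le_one v (N' * b ^ D')
      push_cast at h
      exact h
    have hbN' : ∀ (v : FinitePlace ℚ) (b : ℕ), v ((N : ℚ) * (b : ℚ) ^ D) ≤ 1 := by
      intro v b
      have h := apply_le_one v (N * b ^ D)
      push_cast at h
      exact h
    refine ⟨N * N', D + D', K + K', mul_ne_zero hN hN', by linarith, ?_, ?_, ?_, ?_, ?_⟩
    · intro x b hb
      obtain ⟨z, hz⟩ := p1 x b hb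
      obtain ⟨z', hz'⟩ := q1 x b hb
      refine ⟨(N' : ℤ) * (b : ℤ) ^ D' * z + (N : ℤ) * (b : ℤ) ^ D * z', ?_⟩
      push_cast
      rw [← hz, ← hz', map_add, pow_add]
      ring
    · intro x R hR hx
      rw [map_add, Rat.cast_add]
      refine (abs_add_le _ _).trans ?_
      have h1 := p2 x R hR hx
      have h2 := q2 x R hR hx
      have h3 : R ^ D ≤ R ^ (D + D') := pow_le_pow_right₀ hR (Nat.le_add_right _ _)
      have h4 : R ^ D' ≤ R ^ (D + D') := pow_le_pow_right₀ hR (Nat.le_add_left _ _)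
      have h5 := mul_le_mul_of_nonneg_left h3 (by linarith : 0 ≤ K)
      have h6 := mul_le_mul_of_nonneg_left h4 (by linarith : 0 ≤ K')
      linarith
    · intro v x b hb
      have h1 : (((N * N' : ℕ) : ℚ)) * (b : ℚ) ^ (D + D') * eval x (p + q) =
          ((N' : ℚ) * (b : ℚ) ^ D') * ((N : ℚ) * (b : ℚ) ^ D * eval x p) +
            ((N : ℚ) * (b : ℚ) ^ D) * ((N' : ℚ) * (b : ℚ) ^ D' * eval x q) := by
        push_cast
        rw [map_add, pow_add]
        ring
      rw [h1]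
      apply K1c_nonarch
      · rw [map_mul]
        exact mul_le_one₀ (hbN v b) (apply_nonneg v _) (p3 v x b hb)
      · rw [map_mul]
        exact mul_le_one₀ (hbN' v b) (apply_nonneg v _) (q3 v x b hb)
    · intro v x y b η hη hx hy hxy
      have h1 : (((N * N' : ℕ) : ℚ)) * (b : ℚ) ^ (D + D') * (eval x (p + q) - eval y (p + q)) =
          ((N' : ℚ) * (b : ℚ) ^ D') * ((N : ℚ) * (b : ℚ) ^ D * (eval x p - eval y p)) +
            ((N : ℚ) * (b : ℚ) ^ D) * ((N' : ℚ) * (b : ℚ) ^ D' * (eval x q - eval y q)) := by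
        push_cast
        rw [map_add, map_add, pow_add]
        ring
      rw [h1]
      apply K1c_nonarch
      · rw [map_mul]
        calc _ ≤ 1 * η := mul_le_mul (hbN v b) (p4 v x y b η hη hx hy hxy) (apply_nonneg v _) zero_le_one
          _ = η := one_mul η
      · rw [map_mul]
        calc _ ≤ 1 * η := mul_le_mul (hbN' v b) (q4 v x y b η hη hx hy hxy) (apply_nonneg v _) zero_le_one
          _ = η := one_mul η
    · intro x y R η hR hη hx hy hxy
      have h0 : ((eval x (p + q) - eval y (p + q) : ℚ) : ℝ) =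
          ((eval x p - eval y p : ℚ) : ℝ) + ((eval x q - eval y q : ℚ) : ℝ) := by
        rw [map_add, map_add]
        push_cast
        ring
      rw [h0]
      refine (abs_add_le _ _).trans ?_
      have h1 := p5 x y R η hR hη hx hy hxy
      have h2 := q5 x y R η hR hη hx hy hxy
      have h3 : R ^ D ≤ R ^ (D + D') := pow_le_pow_right₀ hR (Nat.le_add_right _ _)
      have h4 : R ^ D' ≤ R ^ (D + D') := pow_le_pow_right₀ hR (Nat.le_add_left _ _)
      have h5 := mul_le_mul_of_nonneg_right (mul_le_mul_of_nonneg_left h3 (by linarith : 0 ≤ K)) hη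
      have h6 := mul_le_mul_of_nonneg_right (mul_le_mul_of_nonneg_left h4 (by linarith : 0 ≤ K')) hη
      linarith
  | mul_X p i hp =>
    obtain ⟨N, D, K, hN, hK, p1, p2, p3, p4, p5⟩ := hp
    refine ⟨N, D + 1, 2 * K, hN, by linarith, ?_, ?_, ?_, ?_, ?_⟩
    · intro x b hb
      obtain ⟨z, hz⟩ := p1 x b hb
      obtain ⟨z', hz'⟩ := hb i
      refine ⟨z * z', ?_⟩
      push_cast
      rw [← hz, ← hz', map_mul, eval_X, pow_succ]
      ring
    · intro x R hR hx
      rw [map_mul, eval_X, Rat.cast_mul, abs_mul]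
      have h1 := p2 x R hR hx
      have h2 := hx i
      have h3 : 0 ≤ K * R ^ D := by positivity
      have h4 := mul_le_mul h1 h2 (abs_nonneg _) h3
      have h5 : 2 * K * R ^ (D + 1) = 2 * (K * R ^ D * R) := by rw [pow_succ]; ring
      rw [h5]
      have h6 : 0 ≤ K * R ^ D * R := by positivity
      linarith
    · intro v x b hb
      have h1 : (N : ℚ) * (b : ℚ) ^ (D + 1) * eval x (p * X i) =
          ((N : ℚ) * (b : ℚ) ^ D * eval x p) * (b * x i) := by
        rw [map_mul, eval_X, pow_succ]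
        ring
      rw [h1, map_mul]
      exact mul_le_one₀ (p3 v x b hb) (apply_nonneg v _) (hb i)
    · intro v x y b η hη hx hy hxy
      have h1 : (N : ℚ) * (b : ℚ) ^ (D + 1) * (eval x (p * X i) - eval y (p * X i)) =
          ((N : ℚ) * (b : ℚ) ^ D * (eval x p - eval y p)) * (b * x i) +
            ((N : ℚ) * (b : ℚ) ^ D * eval y p) * (b * (x i - y i)) := by
        rw [map_mul, map_mul, eval_X, eval_X, pow_succ]
        ring
      rw [h1]
      apply K1c_nonarch
      · rw [map_mul]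
        calc _ ≤ η * 1 := mul_le_mul (p4 v x y b η hη hx hy hxy) (hx i) (apply_nonneg v _) hη
          _ = η := mul_one η
      · rw [map_mul]
        calc _ ≤ 1 * η := mul_le_mul (p3 v y b hy) (hxy i) (apply_nonneg v _) zero_le_one
          _ = η := one_mul η
    · intro x y R η hR hη hx hy hxy
      have h0 : ((eval x (p * X i) - eval y (p * X i) : ℚ) : ℝ) =
          ((eval x p - eval y p : ℚ) : ℝ) * (x i : ℝ) + ((eval y p : ℚ) : ℝ) * ((x i - y i : ℚ) : ℝ) := by
        rw [map_mul, map_mul, eval_X, eval_X]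
        push_cast
        ring
      rw [h0]
      refine (abs_add_le _ _).trans ?_
      rw [abs_mul, abs_mul]
      have h1 := p5 x y R η hR hη hx hy hxy
      have h2 := p2 y R hR hy
      have h3 := mul_le_mul h1 (hx i) (abs_nonneg _) (by positivity : 0 ≤ K * R ^ D * η)
      have h4 := mul_le_mul h2 (hxy i) (abs_nonneg _) (by positivity : 0 ≤ K * R ^ D)
      have h5 : 2 * K * R ^ (D + 1) * η = K * R ^ D * η * R + K * R ^ D * η * R := by
        rw [pow_succ]
        ring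
      rw [h5]
      have h6 : K * R ^ D * η ≤ K * R ^ D * η * R := by
        have h7 : 0 ≤ K * R ^ D * η := by positivity
        nlinarith
      linarith

/-- The absolute value and the denominator of a coordinate are at most the exponential of the height. -/
private theorem K1c_coord {α : Type} [Fintype α] (w : α → ℚ) (l : α) :
    |((w l : ℚ) : ℝ)| ≤ Real.exp (logHeight (fun o : Option α => o.elim 1 w)) ∧
      Real.log (w l).den ≤ logHeight (fun o : Option α => o.elim 1 w) := by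
  have h1 : logHeight₁ (w l) ≤ logHeight (fun o : Option α => o.elim 1 w) := by
    rw [logHeight₁_eq_logHeight]
    have h2 := logHeight_comp_le (![some l, none] : Fin 2 → Option α) (fun o : Option α => o.elim 1 w)
    have h3 : (fun o : Option α => o.elim 1 w) ∘ (![some l, none] : Fin 2 → Option α) = ![w l, 1] := by
      funext i
      fin_cases i <;> rfl
    rw [h3] at h2
    exact h2
  rw [Rat.logHeight₁_eq_log_max] at h1
  have hden : (1 : ℝ) ≤ (w l).den := by exact_mod_cast (w l).den_pos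
  constructor
  · have h2 : |((w l : ℚ) : ℝ)| ≤ (max (w l).num.natAbs (w l).den : ℕ) := by
      have h3 : |((w l : ℚ) : ℝ)| = ((w l).num.natAbs : ℝ) / (w l).den := by
        rw [Rat.cast_def, abs_div, Nat.cast_natAbs, Int.cast_abs, Nat.abs_cast]
      rw [h3]
      refine (div_le_self (Nat.cast_nonneg _) hden).trans ?_
      exact_mod_cast le_max_left _ _
    refine h2.trans ?_
    rw [← Real.log_le_iff_le_exp]
    · exact h1
    · have : (w l).den ≤ max (w l).num.natAbs (w l).den := le_max_right _ _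
      have h4 : 0 < (w l).den := (w l).den_pos
      exact_mod_cast lt_of_lt_of_le h4 this
  · refine le_trans ?_ h1
    apply Real.log_le_log (by linarith)
    exact_mod_cast le_max_right _ _

/-- THE CHOICE OF THE PARAMETER. For a finite set of polynomials `u(w, t)` and a finite set `T` of finite places: for
all `w` with `u(w, 0) ≠ 0` there is a rational number `δ > 0` of height `O(h(w) + 1)`, a unit outside the set `S` of
bad places (which contains `T`) and one small place `v₀`, such that for `t = (c_k δ)` with bounded natural numbers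
`c_k` the numbers `u(w, t)` are very close to `u(w, 0)` at the places of `S` and at infinity. -/
theorem sel_aux {α β : Type} [Fintype α] [Fintype β] (U : Finset (MvPolynomial (α ⊕ β) ℚ)) (ε : ℝ) (hε : 0 < ε) :
    ∃ C : ℝ, 0 ≤ C ∧ ∀ (T : Finset (FinitePlace ℚ)) (c₀ : ℕ), ∃ C' : ℝ, 0 ≤ C' ∧
      ∀ w : α → ℚ, (∀ u ∈ U, eval (Sum.elim w 0) u ≠ 0) →
      ∀ S : Set (FinitePlace ℚ), (∀ v ∈ S, (∃ u ∈ U, v (eval (Sum.elim w 0) u) ≠ 1) ∨
        (∃ l, 1 < v (w l)) ∨ v ∈ T) →
        ∃ (v₀ : FinitePlace ℚ) (δ : ℚ), 0 < δ ∧ v₀ ∉ S ∧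
          Real.log (Ideal.absNorm v₀.maximalIdeal.asIdeal) ≤
            ε * logHeight (fun o : Option α => o.elim 1 w) + C' ∧
          (∀ v, v ∉ S → v ≠ v₀ → v δ = 1) ∧ (∀ v ∈ S, v δ < 1) ∧
          logHeight₁ δ ≤ C * logHeight (fun o : Option α => o.elim 1 w) + C' ∧
          (∀ l, v₀ (w l) ≤ 1) ∧ (∀ u ∈ U, v₀ (eval (Sum.elim w 0) u) = 1) ∧ v₀ ∉ T ∧
          ∀ c : β → ℕ, (∀ k, c k ≤ c₀) → ∀ u ∈ U,
            (∀ v ∈ S, v (eval (Sum.elim w fun k => (c k : ℚ) * δ) u - eval (Sum.elim w 0) u) <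
              v (eval (Sum.elim w 0) u)) ∧
            |((eval (Sum.elim w fun k => (c k : ℚ) * δ) u - eval (Sum.elim w 0) u : ℚ) : ℝ)| ≤
              |((eval (Sum.elim w 0) u : ℚ) : ℝ)| / 2 := by
  classical
  choose N D K hN hK hint hsize hint' hdiff hreal using fun u : MvPolynomial (α ⊕ β) ℚ => K1c_poly u
  set n : ℝ := ((Fintype.card α : ℕ) : ℝ) with hn
  have hn0 : 0 ≤ n := Nat.cast_nonneg _
  have hlogN : ∀ u, 0 ≤ Real.log (N u) := fun u =>
    Real.log_nonneg (by exact_mod_cast Nat.one_le_iff_ne_zero.2 (hN u))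
  have hlogK : ∀ u, 0 ≤ Real.log (K u) := fun u => Real.log_nonneg (hK u)
  have hlogpr : ∀ v : FinitePlace ℚ, 0 ≤ Real.log (pr v) := fun v =>
    Real.log_nonneg (by exact_mod_cast (pr_prime v).one_lt.le)
  -- the constants
  set C₄ : ℝ := ∑ u ∈ U, (D u * (n + 1)) + n + 1 with hC₄
  have hC₄1 : 1 ≤ C₄ := by
    have : 0 ≤ ∑ u ∈ U, ((D u : ℝ) * (n + 1)) := Finset.sum_nonneg fun u _ => by positivity
    linarith
  set A : ℝ := ∑ u ∈ U, ((D u : ℝ) * (n + 1)) + 1 with hA
  have hA0 : 0 ≤ A := by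
    have : 0 ≤ ∑ u ∈ U, ((D u : ℝ) * (n + 1)) := Finset.sum_nonneg fun u _ => by positivity
    linarith
  obtain ⟨C₁, hC₁, hmain⟩ := exists_delta A (ε / C₄) hA0 (by positivity)
  refine ⟨C₁ * C₄, by positivity, fun T c₀ => ?_⟩
  have hterm : ∀ u, 0 ≤ Real.log (2 * K u * (c₀ + 1) * N u) + D u * Real.log (c₀ + 1) := by
    intro u
    have h1 : (1 : ℝ) ≤ 2 * K u * (c₀ + 1) * N u := by
      have h2 := hK u
      have h3 : (1 : ℝ) ≤ N u := by exact_mod_cast Nat.one_le_iff_ne_zero.2 (hN u)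
      have h4 : (1 : ℝ) ≤ (c₀ : ℝ) + 1 := by
        have : (0 : ℝ) ≤ c₀ := Nat.cast_nonneg _
        linarith
      have h5 : (1 : ℝ) ≤ 2 * K u := by linarith
      exact one_le_mul_of_one_le_of_one_le (one_le_mul_of_one_le_of_one_le h5 h4) h3
    have h2 := Real.log_nonneg h1
    have h3 : 0 ≤ Real.log ((c₀ : ℝ) + 1) := Real.log_nonneg (by
      have : (0 : ℝ) ≤ c₀ := Nat.cast_nonneg _
      linarith)
    positivity
  set E : ℝ := ∑ u ∈ U, (Real.log (2 * K u * (c₀ + 1) * N u) + D u * Real.log (c₀ + 1)) with hE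
  have hE0 : 0 ≤ E := Finset.sum_nonneg fun u _ => hterm u
  set C₅ : ℝ := ∑ u ∈ U, (2 * Real.log (N u) + Real.log (K u)) + ∑ v ∈ T, Real.log (pr v) + 1 + E with hC₅
  have hC₅E : 1 + E ≤ C₅ := by
    have h1 : 0 ≤ ∑ u ∈ U, (2 * Real.log (N u) + Real.log (K u)) :=
      Finset.sum_nonneg fun u _ => by have := hlogN u; have := hlogK u; positivity
    have h2 : 0 ≤ ∑ v ∈ T, Real.log (pr v) := Finset.sum_nonneg fun v _ => hlogpr v
    linarith
  have hC₅1 : 1 ≤ C₅ := by linarith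
  refine ⟨ε * C₅ + C₁ + C₁ * C₅, by positivity, fun w hw S hS => ?_⟩
  set h : ℝ := logHeight (fun o : Option α => o.elim 1 w) with hh
  have hh0 : 0 ≤ h := logHeight_nonneg _
  -- the denominators
  set b : ℕ := ∏ l, (w l).den with hb
  have hb0 : b ≠ 0 := Finset.prod_ne_zero_iff.2 fun l _ => (w l).den_nz
  have hbw : ∀ l, ∃ z : ℤ, (b : ℚ) * w l = z := by
    intro l
    refine ⟨(∏ j ∈ Finset.univ.erase l, ((w j).den : ℤ)) * (w l).num, ?_⟩
    rw [hb, Nat.cast_prod, ← Finset.mul_prod_erase Finset.univ _ (Finset.mem_univ l)]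
    push_cast
    have h1 : ((w l).num : ℚ) = w l * (w l).den := (Rat.mul_den_eq_num (w l)).symm
    rw [h1]
    ring
  have hby : ∀ i : α ⊕ β, ∃ z : ℤ, (b : ℚ) * Sum.elim w (0 : β → ℚ) i = z := by
    rintro (l | k)
    · exact hbw l
    · exact ⟨0, by simp⟩
  have hlogb : Real.log b ≤ n * h := by
    rw [hb, Nat.cast_prod, Real.log_prod (fun l _ => by exact_mod_cast (w l).den_nz)]
    refine (Finset.sum_le_card_nsmul _ _ h fun l _ => (K1c_coord w l).2).trans ?_
    rw [nsmul_eq_mul, Finset.card_univ]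
  have hlogb0 : 0 ≤ Real.log b := Real.log_nonneg (by exact_mod_cast Nat.one_le_iff_ne_zero.2 hb0)
  choose m hm using fun u => hint u (Sum.elim w 0) b hby
  have hNq : ∀ u, ((N u : ℕ) : ℚ) ≠ 0 := fun u => Nat.cast_ne_zero.2 (hN u)
  have hbq : ((b : ℕ) : ℚ) ≠ 0 := Nat.cast_ne_zero.2 hb0
  have hm0 : ∀ u ∈ U, m u ≠ 0 := by
    intro u hu h0
    have h1 := hm u
    rw [h0, Int.cast_zero] at h1
    exact (mul_ne_zero (mul_ne_zero (hNq u) (pow_ne_zero _ hbq)) (hw u hu)) h1
  set B : ℤ := (∏ u ∈ U, m u) * (b : ℤ) * (∏ u ∈ U, (N u : ℤ)) * ∏ v ∈ T, (pr v : ℤ) with hB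
  have hB0 : B ≠ 0 := by
    refine mul_ne_zero (mul_ne_zero (mul_ne_zero ?_ ?_) ?_) ?_
    · exact Finset.prod_ne_zero_iff.2 hm0
    · exact_mod_cast hb0
    · exact Finset.prod_ne_zero_iff.2 fun u _ => by exact_mod_cast hN u
    · exact Finset.prod_ne_zero_iff.2 fun v _ => by exact_mod_cast (pr_prime v).ne_zero
  have hvB : ∀ v : FinitePlace ℚ, ∀ z : ℤ, z ∣ B → v (B : ℚ) ≤ v (z : ℚ) := by
    rintro v z ⟨z', hz'⟩
    rw [hz', Int.cast_mul, map_mul]
    exact mul_le_of_le_one_right (apply_nonneg v _) (apply_int_le_one v z')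
  have dm : ∀ u ∈ U, m u ∣ B := fun u hu =>
    (((Finset.dvd_prod_of_mem m hu).mul_right _).mul_right _).mul_right _
  have db : (b : ℤ) ∣ B := ((Dvd.intro_left _ rfl).mul_right _).mul_right _
  have dN : ∀ u ∈ U, (N u : ℤ) ∣ B := fun u hu =>
    ((Finset.dvd_prod_of_mem (fun u => (N u : ℤ)) hu).mul_left _).mul_right _
  have dT : ∀ v ∈ T, (pr v : ℤ) ∣ B := fun v hv =>
    (Finset.dvd_prod_of_mem (fun v => (pr v : ℤ)) hv).mul_left _
  have hval : ∀ (v : FinitePlace ℚ), ∀ u, v (m u : ℚ) = v (N u : ℚ) * v (b : ℚ) ^ D u * v (eval (Sum.elim w 0) u) := by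
    intro v u
    rw [← hm u, map_mul, map_mul, map_pow]
  have hS' : ∀ v ∈ S, v (B : ℚ) < 1 := by
    intro v hv
    by_contra hge
    push Not at hge
    have hone : ∀ z : ℤ, z ∣ B → v (z : ℚ) = 1 := fun z hz =>
      le_antisymm (apply_int_le_one v z) (hge.trans (hvB v z hz))
    have hbone : v ((b : ℕ) : ℚ) = 1 := by
      have := hone _ db
      push_cast at this
      exact this
    rcases hS v hv with ⟨u, hu, hne⟩ | ⟨l, hl⟩ | hT
    · apply hne
      have h1 := hval v u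
      have h2 : v ((N u : ℕ) : ℚ) = 1 := by
        have := hone _ (dN u hu)
        push_cast at this
        exact this
      rw [hone _ (dm u hu), h2, hbone, one_pow, one_mul, one_mul] at h1
      exact h1.symm
    · obtain ⟨z, hz⟩ := hbw l
      have h1 := apply_int_le_one v z
      rw [← hz, map_mul, hbone, one_mul] at h1
      linarith
    · have h1 := hone _ (dT v hT)
      push_cast at h1
      have h2 := (apply_lt_one_iff v (pr v)).2 (dvd_refl _)
      linarith
  set M : ℝ := C₄ * h + C₅ with hM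
  have hR : (1 : ℝ) ≤ Real.exp h := Real.one_le_exp hh0
  have hyR : ∀ i : α ⊕ β, |((Sum.elim w (0 : β → ℚ) i : ℚ) : ℝ)| ≤ Real.exp h := by
    rintro (l | k)
    · exact (K1c_coord w l).1
    · simp only [Sum.elim_inr, Pi.zero_apply, Rat.cast_zero, abs_zero]
      exact (Real.exp_pos h).le
  have hlogm : ∀ u ∈ U, Real.log |(m u : ℝ)| ≤ Real.log (N u) + Real.log (K u) + D u * (n + 1) * h := by
    intro u hu
    have h1 : |(m u : ℝ)| = (N u : ℝ) * (b : ℝ) ^ D u * |((eval (Sum.elim w 0) u : ℚ) : ℝ)| := by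
      have h2 : (m u : ℝ) = (N u : ℝ) * (b : ℝ) ^ D u * ((eval (Sum.elim w 0) u : ℚ) : ℝ) := by
        have h3 := congrArg (fun q : ℚ => (q : ℝ)) (hm u)
        push_cast at h3
        exact h3.symm
      rw [h2, abs_mul, abs_mul, abs_pow, Nat.abs_cast, Nat.abs_cast]
    have hNr : (0 : ℝ) < N u := by exact_mod_cast Nat.pos_of_ne_zero (hN u)
    have hbr : (0 : ℝ) < b := by exact_mod_cast Nat.pos_of_ne_zero hb0
    have hKr : (0 : ℝ) < K u := by have := hK u; linarith
    have h4 : |(m u : ℝ)| ≤ (N u : ℝ) * (b : ℝ) ^ D u * (K u * Real.exp h ^ D u) := by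
      rw [h1]
      exact mul_le_mul_of_nonneg_left (hsize u _ _ hR hyR) (by positivity)
    have h5 := Real.log_le_log (abs_pos.2 (by exact_mod_cast hm0 u hu)) h4
    rw [Real.log_mul (by positivity) (by positivity), Real.log_mul hNr.ne' (by positivity),
      Real.log_mul hKr.ne' (by positivity), Real.log_pow, Real.log_pow, Real.log_exp] at h5
    have h6 : (D u : ℝ) * Real.log b ≤ D u * (n * h) := mul_le_mul_of_nonneg_left hlogb (Nat.cast_nonneg _)
    linarith
  have hlogB : Real.log |(B : ℝ)| ≤ M := by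
    have h1 : |(B : ℝ)| = (∏ u ∈ U, |(m u : ℝ)|) * b * (∏ u ∈ U, (N u : ℝ)) * ∏ v ∈ T, (pr v : ℝ) := by
      rw [hB]
      push_cast
      rw [abs_mul, abs_mul, abs_mul, Finset.abs_prod, Finset.abs_prod, Finset.abs_prod, Nat.abs_cast]
      simp only [Nat.abs_cast]
    have hmr : ∀ u ∈ U, |(m u : ℝ)| ≠ 0 := fun u hu => abs_ne_zero.2 (by exact_mod_cast hm0 u hu)
    have hNr : ∀ u ∈ U, (N u : ℝ) ≠ 0 := fun u _ => by exact_mod_cast hN u
    have hbr : (b : ℝ) ≠ 0 := by exact_mod_cast hb0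
    have hpr : ∀ v ∈ T, (pr v : ℝ) ≠ 0 := fun v _ => by exact_mod_cast (pr_prime v).ne_zero
    have e1 := Finset.prod_ne_zero_iff.2 hmr
    have e2 := Finset.prod_ne_zero_iff.2 hNr
    have e3 := Finset.prod_ne_zero_iff.2 hpr
    rw [h1, Real.log_mul (mul_ne_zero (mul_ne_zero e1 hbr) e2) e3, Real.log_mul (mul_ne_zero e1 hbr) e2,
      Real.log_mul e1 hbr, Real.log_prod hmr, Real.log_prod hNr, Real.log_prod hpr]
    have h2 : ∑ u ∈ U, Real.log |(m u : ℝ)| ≤
        ∑ u ∈ U, (Real.log (N u) + Real.log (K u) + D u * (n + 1) * h) := Finset.sum_le_sum hlogm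
    have h3 : ∑ u ∈ U, (Real.log (N u) + Real.log (K u) + D u * (n + 1) * h) =
        ∑ u ∈ U, (Real.log (N u) + Real.log (K u)) + (∑ u ∈ U, ((D u : ℝ) * (n + 1))) * h := by
      rw [Finset.sum_add_distrib, ← Finset.sum_mul]
    have h4 : ∑ u ∈ U, (2 * Real.log (N u) + Real.log (K u)) =
        ∑ u ∈ U, (Real.log (N u) + Real.log (K u)) + ∑ u ∈ U, Real.log (N u) := by
      rw [← Finset.sum_add_distrib]
      exact Finset.sum_congr rfl fun u _ => by ring
    rw [hM, hC₄, hC₅, h4]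
    rw [h3] at h2
    have h5 : 0 ≤ (n + 1) * h := by positivity
    linarith
  obtain ⟨v₀, δ, hδ, hv₀S, hv₀B, hv₀l, hvS, hvn, hδs, hδh⟩ := hmain S B hB0 hS' M hlogB
  have hM1 : 1 ≤ M := by
    rw [hM]
    have : 0 ≤ C₄ * h := by positivity
    linarith
  have hMh : h ≤ M := by
    rw [hM]
    nlinarith
  have hv₀one : ∀ z : ℤ, z ∣ B → v₀ (z : ℚ) = 1 := fun z hz =>
    le_antisymm (apply_int_le_one v₀ z) (hv₀B.symm.le.trans (hvB v₀ z hz))
  have hv₀b : v₀ ((b : ℕ) : ℚ) = 1 := by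
    have := hv₀one _ db
    push_cast at this
    exact this
  have hvδ : ∀ v ∈ S, v δ < 1 := fun v hv => (hvS v hv).trans (hS' v hv)
  have hCbig : 0 ≤ C₁ * C₅ := by positivity
  have hδr : (0 : ℝ) < δ := by exact_mod_cast hδ
  have hδ1 : (δ : ℝ) ≤ 1 := hδs.trans (by
    rw [Real.exp_le_one_iff]
    have : 0 ≤ A * M := by positivity
    linarith)
  refine ⟨v₀, δ, hδ, hv₀S, ?_, hvn, hvδ, ?_, ?_, ?_, ?_, ?_⟩
  · refine hv₀l.trans ?_
    have h1 : ε / C₄ * M = ε * h + ε / C₄ * C₅ := by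
      rw [hM]
      field_simp
    have h2 : ε / C₄ * C₅ ≤ ε * C₅ := by
      apply mul_le_mul_of_nonneg_right _ (by linarith)
      exact div_le_self hε.le hC₄1
    rw [h1]
    linarith
  · refine hδh.trans ?_
    rw [hM]
    have h5 : 0 ≤ ε * C₅ := by positivity
    have h6 : C₁ * (C₄ * h + C₅) + C₁ = C₁ * C₄ * h + (C₁ + C₁ * C₅) := by ring
    rw [h6]
    linarith
  · intro l
    obtain ⟨z, hz⟩ := hbw l
    have h1 := apply_int_le_one v₀ z
    rw [← hz, map_mul, hv₀b, one_mul] at h1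
    exact h1
  · intro u hu
    have h1 := hval v₀ u
    have h2 : v₀ ((N u : ℕ) : ℚ) = 1 := by
      have := hv₀one _ (dN u hu)
      push_cast at this
      exact this
    rw [hv₀one _ (dm u hu), h2, hv₀b, one_pow, one_mul, one_mul] at h1
    exact h1.symm
  · intro hT
    have h1 := hv₀one _ (dT v₀ hT)
    push_cast at h1
    have h2 := (apply_lt_one_iff v₀ (pr v₀)).2 (dvd_refl _)
    linarith
  · intro c hc u hu
    constructor
    · intro v hv
      have hc1 : ∀ k, v ((b : ℚ) * ((c k : ℚ) * δ)) ≤ v δ := by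
        intro k
        rw [map_mul, map_mul, ← mul_assoc]
        apply mul_le_of_le_one_left (apply_nonneg v _)
        exact mul_le_one₀ (apply_le_one v b) (apply_nonneg v _) (apply_le_one v (c k))
      have hx1 : ∀ i : α ⊕ β, v ((b : ℚ) * Sum.elim w (fun k => (c k : ℚ) * δ) i) ≤ 1 := by
        rintro (l | k)
        · obtain ⟨z, hz⟩ := hbw l
          simp only [Sum.elim_inl]
          rw [hz]
          exact apply_int_le_one v z
        · exact (hc1 k).trans (hvδ v hv).le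
      have hy1 : ∀ i : α ⊕ β, v ((b : ℚ) * Sum.elim w (0 : β → ℚ) i) ≤ 1 := by
        intro i
        obtain ⟨z, hz⟩ := hby i
        rw [hz]
        exact apply_int_le_one v z
      have hxy : ∀ i : α ⊕ β, v ((b : ℚ) * (Sum.elim w (fun k => (c k : ℚ) * δ) i -
          Sum.elim w (0 : β → ℚ) i)) ≤ v δ := by
        rintro (l | k)
        · simp only [Sum.elim_inl, sub_self, mul_zero, map_zero]
          exact apply_nonneg v _
        · simp only [Sum.elim_inr, Pi.zero_apply, sub_zero]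
          exact hc1 k
      have h1 := hdiff u v _ _ b (v δ) (apply_nonneg v _) hx1 hy1 hxy
      have h2 : v δ < v (m u : ℚ) := (hvS v hv).trans_le (hvB v _ (dm u hu))
      have h3 := h1.trans_lt h2
      rw [hval, map_mul, map_mul, map_pow] at h3
      have h4 : 0 < v ((N u : ℕ) : ℚ) * v ((b : ℕ) : ℚ) ^ D u := by
        have h5 : 0 < v ((N u : ℕ) : ℚ) := FinitePlace.pos_iff.2 (hNq u)
        have h6 : 0 < v ((b : ℕ) : ℚ) := FinitePlace.pos_iff.2 hbq
        positivity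
      exact lt_of_mul_lt_mul_left h3 h4.le
    · have hc0r : (0 : ℝ) ≤ c₀ := Nat.cast_nonneg _
      set R : ℝ := Real.exp h * (c₀ + 1) with hRdef
      have hR1 : 1 ≤ R := one_le_mul_of_one_le_of_one_le hR (by linarith)
      have hRe : Real.exp h ≤ R := le_mul_of_one_le_right (Real.exp_pos h).le (by linarith)
      have hck : ∀ k, |(((c k : ℚ) * δ : ℚ) : ℝ)| ≤ (c₀ + 1) * δ := by
        intro k
        push_cast
        rw [abs_mul, Nat.abs_cast, abs_of_pos hδr]
        apply mul_le_mul_of_nonneg_right _ hδr.le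
        have : ((c k : ℕ) : ℝ) ≤ c₀ := by exact_mod_cast hc k
        linarith
      have hx1 : ∀ i : α ⊕ β, |((Sum.elim w (fun k => (c k : ℚ) * δ) i : ℚ) : ℝ)| ≤ R := by
        rintro (l | k)
        · exact ((K1c_coord w l).1).trans hRe
        · simp only [Sum.elim_inr]
          refine (hck k).trans ?_
          calc ((c₀ : ℝ) + 1) * δ ≤ (c₀ + 1) * 1 := mul_le_mul_of_nonneg_left hδ1 (by linarith)
            _ ≤ R := by
              rw [mul_one, hRdef]
              exact le_mul_of_one_le_left (by linarith) hR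
      have hxy : ∀ i : α ⊕ β, |((Sum.elim w (fun k => (c k : ℚ) * δ) i -
          Sum.elim w (0 : β → ℚ) i : ℚ) : ℝ)| ≤ (c₀ + 1) * δ := by
        rintro (l | k)
        · simp only [Sum.elim_inl, sub_self, Rat.cast_zero, abs_zero]
          positivity
        · simp only [Sum.elim_inr, Pi.zero_apply, sub_zero]
          exact hck k
      have h1 := hreal u _ _ R ((c₀ + 1) * δ) hR1 (by positivity) hx1 (fun i => (hyR i).trans hRe) hxy
      refine h1.trans ?_
      have hNr : (0 : ℝ) < N u := by exact_mod_cast Nat.pos_of_ne_zero (hN u)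
      have hbr : (0 : ℝ) < b := by exact_mod_cast Nat.pos_of_ne_zero hb0
      have hKr : (0 : ℝ) < K u := by have := hK u; linarith
      have hmu : (1 : ℝ) ≤ (N u : ℝ) * (b : ℝ) ^ D u * |((eval (Sum.elim w 0) u : ℚ) : ℝ)| := by
        have h2 : (m u : ℝ) = (N u : ℝ) * (b : ℝ) ^ D u * ((eval (Sum.elim w 0) u : ℚ) : ℝ) := by
          have h3 := congrArg (fun q : ℚ => (q : ℝ)) (hm u)
          push_cast at h3
          exact h3.symm
        have h3 : |(m u : ℝ)| = (N u : ℝ) * (b : ℝ) ^ D u * |((eval (Sum.elim w 0) u : ℚ) : ℝ)| := by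
          rw [h2, abs_mul, abs_mul, abs_pow, Nat.abs_cast, Nat.abs_cast]
        rw [← h3, ← Int.cast_abs]
        exact_mod_cast Int.one_le_abs (hm0 u hu)
      have hkey : 2 * (K u * R ^ D u * ((c₀ + 1) * δ)) * ((N u : ℝ) * (b : ℝ) ^ D u) ≤ 1 := by
        have hpos : 0 < 2 * (K u * R ^ D u * ((c₀ + 1) * δ)) * ((N u : ℝ) * (b : ℝ) ^ D u) := by
          positivity
        rw [← Real.log_nonpos_iff hpos.le]
        have h2 : 2 * (K u * R ^ D u * ((c₀ + 1) * δ)) * ((N u : ℝ) * (b : ℝ) ^ D u) =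
            (2 * K u * (c₀ + 1) * N u) * R ^ D u * (b : ℝ) ^ D u * δ := by ring
        have hRpos : 0 < R := by linarith
        have hx0 : (2 * K u * (c₀ + 1) * N u : ℝ) ≠ 0 := by positivity
        have hRl : Real.log R = h + Real.log ((c₀ : ℝ) + 1) := by
          rw [hRdef, Real.log_mul (by positivity) (by positivity), Real.log_exp]
        rw [h2, Real.log_mul (by positivity) hδr.ne', Real.log_mul (by positivity) (by positivity),
          Real.log_mul hx0 (by positivity), Real.log_pow, Real.log_pow, hRl]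
        have h3 : Real.log δ ≤ -(A * M) := by
          rw [← Real.log_exp (-(A * M))]
          exact Real.log_le_log hδr hδs
        have h4 : Real.log (2 * K u * (c₀ + 1) * N u) + D u * Real.log (c₀ + 1) ≤ E :=
          Finset.single_le_sum (f := fun u => Real.log (2 * K u * (c₀ + 1) * N u) +
            D u * Real.log (c₀ + 1)) (fun u _ => hterm u) hu
        have h5 : (D u : ℝ) * (n + 1) + 1 ≤ A := by
          have h8 : (D u : ℝ) * (n + 1) ≤ ∑ u ∈ U, ((D u : ℝ) * (n + 1)) :=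
            Finset.single_le_sum (f := fun u => (D u : ℝ) * (n + 1)) (fun u _ => by positivity) hu
          linarith
        have h6 : (D u : ℝ) * Real.log b ≤ D u * (n * h) := mul_le_mul_of_nonneg_left hlogb (Nat.cast_nonneg _)
        have h7 : (D u : ℝ) * (n + 1) * h ≤ D u * (n + 1) * M := mul_le_mul_of_nonneg_left hMh (by positivity)
        have h8 := mul_le_mul_of_nonneg_right h5 (by linarith : 0 ≤ M)
        have h9 : E ≤ M := by
          rw [hM]
          have : 0 ≤ C₄ * h := by positivity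
          linarith
        have h10 : (D u : ℝ) * (n + 1) * h = D u * (n * h) + D u * h := by ring
        linarith
      have h10 : 0 < (N u : ℝ) * (b : ℝ) ^ D u := by positivity
      rw [le_div_iff₀ (by norm_num : (0 : ℝ) < 2)]
      have h11 : K u * R ^ D u * ((c₀ + 1) * δ) * 2 * ((N u : ℝ) * (b : ℝ) ^ D u) ≤
          |((eval (Sum.elim w 0) u : ℚ) : ℝ)| * ((N u : ℝ) * (b : ℝ) ^ D u) := by
        calc K u * R ^ D u * ((c₀ + 1) * δ) * 2 * ((N u : ℝ) * (b : ℝ) ^ D u) =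
            2 * (K u * R ^ D u * ((c₀ + 1) * δ)) * ((N u : ℝ) * (b : ℝ) ^ D u) := by ring
          _ ≤ 1 := hkey
          _ ≤ (N u : ℝ) * (b : ℝ) ^ D u * |((eval (Sum.elim w 0) u : ℚ) : ℝ)| := hmu
          _ = _ := mul_comm _ _
      exact le_of_mul_le_mul_right h11 h10

/-- The choice of the new variables. -/
theorem sel {α β : Type} [Fintype α] [Fintype β] (U : Finset (MvPolynomial (α ⊕ β) ℚ)) (ε : ℝ) (hε : 0 < ε) :
    ∃ C₁ : ℝ, 0 ≤ C₁ ∧ ∀ (T : Finset (FinitePlace ℚ)) (c₀ : ℕ), ∃ C₂ : ℝ, 0 ≤ C₂ ∧ ∀ w : α → ℚ,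
      (∀ u ∈ U, eval (Sum.elim w fun _ => 0) u ≠ 0) → ∀ S : Set (FinitePlace ℚ),
      (∀ v ∈ S, (∃ u ∈ U, v (eval (Sum.elim w fun _ => 0) u) ≠ 1) ∨ (∃ l, 1 < v (w l)) ∨ v ∈ T) →
      (∀ v ∈ T, v ∈ S) →
      ∃ (v₀ : FinitePlace ℚ) (δ : ℚ), 0 < δ ∧ v₀ ∉ S ∧ (∀ l, v₀ (w l) ≤ 1) ∧
        (∀ u ∈ U, v₀ (eval (Sum.elim w fun _ => 0) u) = 1) ∧
        Real.log (Ideal.absNorm v₀.maximalIdeal.asIdeal) ≤ ε * logHeight (fun o : Option α => o.elim 1 w) + C₂ ∧
        (∀ v : FinitePlace ℚ, v ∉ S → v ≠ v₀ → v δ = 1) ∧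
        logHeight₁ δ ≤ C₁ * logHeight (fun o : Option α => o.elim 1 w) + C₂ ∧
        ∀ c : β → ℕ, (∀ k, c k ≤ c₀) → ∀ u ∈ U,
          (∀ v ∈ S, v (eval (Sum.elim w fun k => c k * δ) u - eval (Sum.elim w fun _ => 0) u) <
            v (eval (Sum.elim w fun _ => 0) u)) ∧
          |eval (Sum.elim w fun k => c k * δ) u - eval (Sum.elim w fun _ => 0) u| ≤
            |eval (Sum.elim w fun _ => 0) u| / 2 := by
  obtain ⟨C₁, hC₁, H⟩ := sel_aux U ε hε
  refine ⟨C₁, hC₁, fun T c₀ => ?_⟩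
  obtain ⟨C₂, hC₂, H⟩ := H T c₀
  refine ⟨C₂, hC₂, fun w hw S hS _ => ?_⟩
  obtain ⟨v₀, δ, h1, h2, h3, h4, _, h6, h7, h8, _, h10⟩ := H w hw S hS
  refine ⟨v₀, δ, h1, h2, h7, h8, h3, h4, h6, fun c hc u hu => ?_⟩
  obtain ⟨h11, h12⟩ := h10 c hc u hu
  refine ⟨h11, ?_⟩
  have h13 : ((|eval (Sum.elim w fun k => (c k : ℚ) * δ) u - eval (Sum.elim w fun _ => 0) u| : ℚ) : ℝ) ≤
      ((|eval (Sum.elim w fun _ => 0) u| / 2 : ℚ) : ℝ) := by
    rw [Rat.cast_abs, Rat.cast_div, Rat.cast_abs, Rat.cast_ofNat]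
    exact h12
  exact_mod_cast h13

end Pool.Agent.Lib.MP_17a322_nt.GQ
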