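import Pool.Agent.Lib.MP_17a322_nt.GQ.Defs
import Pool.Agent.Lib.MP_17a322_nt.GQ.K1b

/-!
Local estimates at the finite places at which all values are units.
-/

namespace Pool.Agent.Lib.MP_17a322_nt.GQ

open MvPolynomial Height NumberField

/-- At almost all places the coefficients of finitely many polynomials are integral. -/
theorem exists_int {ι : Type} (U : Finset (MvPolynomial ι ℚ)) : ∃ T : Finset (FinitePlace ℚ), ∀ v ∉ T, ∀ u ∈ U,
    ∀ m, v (coeff m u) ≤ 1 := by
  classical
  have hfin : ∀ c : ℚ, {v : FinitePlace ℚ | v c ≠ 1 ∧ c ≠ 0}.Finite := by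
    intro c
    by_cases hc : c = 0
    · refine Set.finite_empty.subset fun v hv => ?_
      exact absurd hc hv.2
    · refine (FinitePlace.hasFiniteMulSupport hc).subset fun v hv => ?_
      exact hv.1
  refine ⟨U.biUnion fun u => u.support.biUnion fun m => (hfin (coeff m u)).toFinset, fun v hv u hu m => ?_⟩
  by_contra hcon
  rw [not_le] at hcon
  apply hv
  have hc : coeff m u ≠ 0 := by
    intro h0
    rw [h0, map_zero] at hcon
    linarith
  rw [Finset.mem_biUnion]
  refine ⟨u, hu, ?_⟩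
  rw [Finset.mem_biUnion]
  refine ⟨m, mem_support_iff.2 hc, ?_⟩
  rw [Set.Finite.mem_toFinset]
  exact ⟨hcon.ne', hc⟩

private theorem K3d_sum {β : Type} (v : FinitePlace ℚ) (s : Finset β) (F : β → ℚ) (h : ∀ b ∈ s, v (F b) ≤ 1) :
    v (∑ b ∈ s, F b) ≤ 1 := by
  apply Finset.sum_induction F (fun x => v x ≤ 1)
  · intro a b ha hb
    exact (FinitePlace.add_le v a b).trans (max_le ha hb)
  · rw [map_zero]
    exact zero_le_one
  · exact h

private theorem K3d_prod {β : Type} (v : FinitePlace ℚ) (s : Finset β) (F : β → ℚ) (h : ∀ b ∈ s, v (F b) ≤ 1) :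
    v (∏ b ∈ s, F b) ≤ 1 := by
  rw [map_prod]
  exact Finset.prod_le_one (fun b _ => apply_nonneg v _) h

/-- The value of a polynomial with integral coefficients at an integral point is integral. -/
theorem eval_le_one {ι : Type} (v : FinitePlace ℚ) (u : MvPolynomial ι ℚ) (hu : ∀ m, v (coeff m u) ≤ 1) (x : ι → ℚ)
    (hx : ∀ i, v (x i) ≤ 1) : v (eval x u) ≤ 1 := by
  rw [eval_eq]
  apply K3d_sum
  intro m _
  rw [map_mul]
  refine mul_le_one₀ (hu m) (apply_nonneg v _) ?_
  apply K3d_prod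
  intro i _
  rw [map_pow]
  exact pow_le_one₀ (apply_nonneg v _) (hx i)

/-- At almost all places at which all values are units the determinants are integral. -/
theorem good_le {α : Type} [Fintype α] [DecidableEq α] (P : Finset (MvPolynomial α ℚ)) : ∃ T : Finset (FinitePlace ℚ),
    ∀ v ∉ T, ∀ w : α → ℚ, (∀ l, v (w l) ≤ 1) → (∀ p ∈ P, v (eval w p) = 1) → ∀ J, v (vec P w J) ≤ 1 := by
  classical
  obtain ⟨T, hT⟩ := exists_int ((P ×ˢ (Finset.univ : Finset α)).image fun x => pderiv x.2 x.1)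
  refine ⟨T, fun v hv w hw hp J => ?_⟩
  unfold vec
  rw [Matrix.det_apply]
  apply K3d_sum
  intro σ _
  have h1 : v (Equiv.Perm.sign σ • ∏ i, (Matrix.of fun k l => eval w (pderiv l (J k).1) / eval w (J k).1) (σ i) i) =
      v (∏ i, (Matrix.of fun k l => eval w (pderiv l (J k).1) / eval w (J k).1) (σ i) i) := by
    rcases Int.units_eq_one_or (Equiv.Perm.sign σ) with h2 | h2
    · rw [h2, one_smul]
    · rw [h2, Units.neg_smul, one_smul]
      exact v.1.map_neg _
  rw [h1]
  apply K3d_prod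
  intro i _
  rw [Matrix.of_apply, map_div₀, hp _ (J (σ i)).2, div_one]
  apply eval_le_one v _ _ w hw
  apply hT v hv
  rw [Finset.mem_image]
  exact ⟨((J (σ i)).1, i), Finset.mem_product.2 ⟨(J (σ i)).2, Finset.mem_univ _⟩, rfl⟩

end Pool.Agent.Lib.MP_17a322_nt.GQ
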