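import Pool.Agent.Lib.MP_17a322_nt.GQ.Sq

/-!
Straight-line programs: every finite set of polynomials is computed by the operations `a ^ 2 + b` and
`b - a ^ 2`, up to constants. The perturbed program is a triangular change of variables.
-/

namespace Pool.Agent.Lib.MP_17a322_nt.GQ

open MvPolynomial

/-- A straight-line program: the new variables are indexed by `B`; the relations `R k` are of the form
`x_i ^ 2 + x_j - x_k'`; `Φ` is the solution of the equations `R k = t_k`. -/
structure Prog (α B : Type) where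
  R : B → MvPolynomial (α ⊕ B) ℚ
  Φ : α ⊕ B → MvPolynomial (α ⊕ B) ℚ
  hl : ∀ l, Φ (Sum.inl l) = X (Sum.inl l)
  hR : ∀ k, aeval Φ (R k) = X (Sum.inr k)
  hm : ∀ k, ∃ i j k', R k = xo i ^ 2 + xo j - xo k'

variable {α B : Type}

/-- `Φ`, and `1` for the index `0`. -/
private noncomputable def Prog.Ψ (g : Prog α B) : Option (α ⊕ B) → MvPolynomial (α ⊕ B) ℚ := fun i => i.elim 1 g.Φ

/-- The polynomials which the program computes. -/
private noncomputable def Prog.nd (g : Prog α B) (i : Option (α ⊕ B)) : MvPolynomial α ℚ :=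
  aeval (Sum.elim X fun _ => 0) (g.Ψ i)

private abbrev em : α ⊕ B → α ⊕ Option B := Sum.map id some

/-- The extension of a program by one relation. -/
private noncomputable def Prog.ext (g : Prog α B) (Rn : MvPolynomial (α ⊕ Option B) ℚ) (Φn : MvPolynomial (α ⊕ Option B) ℚ)
    (h : aeval (Sum.elim (fun l => X (Sum.inl l)) fun k : Option B => k.elim Φn fun k => rename em (g.Φ (Sum.inr k))) Rn =
      X (Sum.inr none))
    (hm : ∃ i j k', Rn = xo i ^ 2 + xo j - xo k') : Prog α (Option B) where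
  R := fun k => k.elim Rn fun k => rename em (g.R k)
  Φ := Sum.elim (fun l => X (Sum.inl l)) fun k : Option B => k.elim Φn fun k => rename em (g.Φ (Sum.inr k))
  hl := fun l => rfl
  hR := by
    intro k
    cases k with
    | none => exact h
    | some k =>
      have h1 : (Sum.elim (fun l => X (Sum.inl l)) fun k : Option B => k.elim Φn fun k => rename em (g.Φ (Sum.inr k))) ∘ em =
          fun i => rename em (g.Φ i) := by
        funext i
        cases i with
        | inl l => simp [g.hl, em]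
        | inr k => simp [em]
      show aeval _ (rename em (g.R k)) = X (Sum.inr (some k))
      rw [aeval_rename, h1]
      have h2 : aeval (fun i => rename em (g.Φ i)) (g.R k) = rename (em : α ⊕ B → α ⊕ Option B) (aeval g.Φ (g.R k)) := by
        rw [← AlgHom.comp_apply, comp_aeval]
      rw [h2, g.hR, rename_X]
      rfl
  hm := by
    intro k
    cases k with
    | none => exact hm
    | some k =>
      have h1 : ∀ i : Option (α ⊕ B), rename em (xo i) = xo (i.map (em : α ⊕ B → α ⊕ Option B)) := by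
        intro i
        cases i with
        | none => simp [xo]
        | some i => simp [xo]
      obtain ⟨i, j, k', h2⟩ := g.hm k
      refine ⟨i.map em, j.map em, k'.map em, ?_⟩
      show rename em (g.R k) = _
      rw [h2, map_sub, map_add, map_pow, h1, h1, h1]

private theorem Slp_nd (g : Prog α B) (Rn : MvPolynomial (α ⊕ Option B) ℚ) (Φn : MvPolynomial (α ⊕ Option B) ℚ) (h hm)
    (i : Option (α ⊕ B)) : (g.ext Rn Φn h hm).nd (i.map em) = g.nd i := by
  have h2 : ((Sum.elim X fun _ => 0 : α ⊕ Option B → MvPolynomial α ℚ) ∘ (em : α ⊕ B → α ⊕ Option B)) =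
      (Sum.elim X fun _ => 0) := by
    funext i
    cases i with
    | inl l => rfl
    | inr k => rfl
  have h1 : (g.ext Rn Φn h hm).Ψ (i.map em) = rename em (g.Ψ i) := by
    cases i with
    | none => simp [Prog.Ψ]
    | some i =>
      cases i with
      | inl l =>
        show X (Sum.inl l) = rename em (g.Φ (Sum.inl l))
        rw [g.hl, rename_X]
        rfl
      | inr k => rfl
  unfold Prog.nd
  rw [h1, aeval_rename, h2]

/-- The relation for one more step. -/
private theorem Slp_step (g : Prog α B) (i j : Option (α ⊕ B)) :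
    (∃ r : Prog α (Option B), (∀ i, r.nd (i.map em) = g.nd i) ∧ r.nd (some (Sum.inr none)) = g.nd i ^ 2 + g.nd j) ∧
    ∃ r : Prog α (Option B), (∀ i, r.nd (i.map em) = g.nd i) ∧ r.nd (some (Sum.inr none)) = g.nd j - g.nd i ^ 2 := by
  have h2 : ((Sum.elim X fun _ => 0 : α ⊕ Option B → MvPolynomial α ℚ) ∘ (em : α ⊕ B → α ⊕ Option B)) =
      (Sum.elim X fun _ => 0) := by
    funext i
    cases i with
    | inl l => rfl
    | inr k => rfl
  have h3 : ∀ i : Option (α ⊕ B), aeval (Sum.elim X fun _ => 0 : α ⊕ Option B → MvPolynomial α ℚ)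
      (rename (em : α ⊕ B → α ⊕ Option B) (g.Ψ i)) = g.nd i := by
    intro i
    unfold Prog.nd
    rw [aeval_rename, h2]
  have h4 : ∀ (Φn : MvPolynomial (α ⊕ Option B) ℚ) (i : Option (α ⊕ B)),
      aeval (Sum.elim (fun l => X (Sum.inl l)) fun k : Option B => k.elim Φn fun k => rename em (g.Φ (Sum.inr k)))
        (xo (i.map (em : α ⊕ B → α ⊕ Option B))) = rename em (g.Ψ i) := by
    intro Φn i
    cases i with
    | none => simp [xo, Prog.Ψ]
    | some i =>
      cases i with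
      | inl l => simp [xo, Prog.Ψ, g.hl, em]
      | inr k => simp [xo, Prog.Ψ, em]
  have h5 : ∀ (Φn : MvPolynomial (α ⊕ Option B) ℚ),
      aeval (Sum.elim (fun l => X (Sum.inl l)) fun k : Option B => k.elim Φn fun k => rename em (g.Φ (Sum.inr k)))
        (xo (some (Sum.inr none)) : MvPolynomial (α ⊕ Option B) ℚ) = Φn := by
    intro Φn
    simp [xo]
  refine ⟨?_, ?_⟩
  · refine ⟨g.ext (xo (i.map em) ^ 2 + xo (j.map em) - xo (some (Sum.inr none)))
      (rename em (g.Ψ i) ^ 2 + rename em (g.Ψ j) - X (Sum.inr none)) ?_ ⟨_, _, _, rfl⟩, ?_, ?_⟩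
    · rw [map_sub, map_add, map_pow, h4, h4, h5]
      ring
    · intro i
      exact Slp_nd _ _ _ _ _ _
    · show aeval (Sum.elim X fun _ => 0 : α ⊕ Option B → MvPolynomial α ℚ)
        (rename em (g.Ψ i) ^ 2 + rename em (g.Ψ j) - X (Sum.inr none)) = _
      rw [map_sub, map_add, map_pow, h3, h3, aeval_X]
      simp
  · refine ⟨g.ext (xo (i.map em) ^ 2 + xo (some (Sum.inr none)) - xo (j.map em))
      (rename em (g.Ψ j) - rename em (g.Ψ i) ^ 2 + X (Sum.inr none)) ?_ ⟨_, _, _, rfl⟩, ?_, ?_⟩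
    · rw [map_sub, map_add, map_pow, h4, h4, h5]
      ring
    · intro i
      exact Slp_nd _ _ _ _ _ _
    · show aeval (Sum.elim X fun _ => 0 : α ⊕ Option B → MvPolynomial α ℚ)
        (rename em (g.Ψ j) - rename em (g.Ψ i) ^ 2 + X (Sum.inr none)) = _
      rw [map_add, map_sub, map_pow, h3, h3, aeval_X]
      simp

/-- Every program can be extended to one which computes `p` too. -/
private def Ext (p : MvPolynomial α ℚ) : Prop :=
  ∀ (B : Type) (_ : Fintype B) (g : Prog α B), ∃ (B' : Type) (_ : Fintype B') (r : Prog α B'),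
    (∀ i, ∃ i', r.nd (some i') = g.nd (some i)) ∧ ∃ i', r.nd i' = p

private theorem Slp_none (g : Prog α B) : g.nd none = 1 := by simp [Prog.nd, Prog.Ψ]

private theorem Slp_two {p s : MvPolynomial α ℚ} (hp : Ext p) (hq : Ext s) (B : Type) (hB : Fintype B) (g : Prog α B) :
    ∃ (B' : Type) (_ : Fintype B') (r : Prog α B'),
      (∀ i, ∃ i', r.nd (some i') = g.nd (some i)) ∧ (∃ i', r.nd i' = p) ∧ ∃ i', r.nd i' = s := by
  obtain ⟨B1, hB1, r1, h1, i1, h1'⟩ := hp B hB g
  obtain ⟨B2, hB2, r2, h2, i2, h2'⟩ := hq B1 hB1 r1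
  refine ⟨B2, hB2, r2, ?_, ?_, i2, h2'⟩
  · intro i
    obtain ⟨i', hi'⟩ := h1 i
    obtain ⟨i'', hi''⟩ := h2 i'
    exact ⟨i'', hi''.trans hi'⟩
  · cases i1 with
    | none => exact ⟨none, (Slp_none r2).trans ((Slp_none r1).symm.trans h1')⟩
    | some i1 =>
      obtain ⟨i', hi'⟩ := h2 i1
      exact ⟨some i', hi'.trans h1'⟩

private theorem Slp_hone : Ext (1 : MvPolynomial α ℚ) := by
  intro B hB g
  exact ⟨B, hB, g, fun i => ⟨i, rfl⟩, none, Slp_none g⟩

private theorem Slp_hsub (p s : MvPolynomial α ℚ) (hp : Ext p) (hq : Ext s) : Ext (s - p ^ 2) := by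
  intro B hB g
  obtain ⟨B1, hB1, r, h1, ⟨i, hi⟩, j, hj⟩ := Slp_two hp hq B hB g
  obtain ⟨r', h2, h3⟩ := (Slp_step r i j).2
  refine ⟨Option B1, inferInstance, r', ?_, some (Sum.inr none), ?_⟩
  · intro k
    obtain ⟨k', hk'⟩ := h1 k
    exact ⟨em k', (h2 (some k')).trans hk'⟩
  · rw [← hi, ← hj]
    exact h3

private theorem Slp_hadd (p s : MvPolynomial α ℚ) (hp : Ext p) (hq : Ext s) : Ext (p ^ 2 + s) := by
  intro B hB g
  obtain ⟨B1, hB1, r, h1, ⟨i, hi⟩, j, hj⟩ := Slp_two hp hq B hB g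
  obtain ⟨r', h2, h3⟩ := (Slp_step r i j).1
  refine ⟨Option B1, inferInstance, r', ?_, some (Sum.inr none), ?_⟩
  · intro k
    obtain ⟨k', hk'⟩ := h1 k
    exact ⟨em k', (h2 (some k')).trans hk'⟩
  · rw [← hi, ← hj]
    exact h3

private theorem Slp_hzero : Ext (0 : MvPolynomial α ℚ) := by
  have := Slp_hsub (α := α) 1 1 Slp_hone Slp_hone
  have h1 : (1 : MvPolynomial α ℚ) - 1 ^ 2 = 0 := by ring
  rwa [h1] at this

private theorem Slp_hsq (p : MvPolynomial α ℚ) (hp : Ext p) : Ext (p ^ 2) := by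
  have := Slp_hadd p 0 hp Slp_hzero
  rwa [add_zero] at this

/-- `s + 2 p = s + (p + 1) ^ 2 - p ^ 2 - 1`. -/
private theorem Slp_hadd2 (p s : MvPolynomial α ℚ) (hp : Ext p) (hq : Ext s) : Ext (s + 2 * p) := by
  have h1 : Ext (p + 1) := by
    have := Slp_hadd 1 p Slp_hone hp
    have h : (1 : MvPolynomial α ℚ) ^ 2 + p = p + 1 := by ring
    rwa [h] at this
  have h2 := Slp_hsub 1 _ Slp_hone (Slp_hsub p _ hp (Slp_hadd (p + 1) s h1 hq))
  have h : (p + 1) ^ 2 + s - p ^ 2 - 1 ^ 2 = s + 2 * p := by ring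
  rwa [h] at h2

/-- `s - 2 p = s + p ^ 2 + 1 - (p + 1) ^ 2`. -/
private theorem Slp_hsub2 (p s : MvPolynomial α ℚ) (hp : Ext p) (hq : Ext s) : Ext (s - 2 * p) := by
  have h1 : Ext (p + 1) := by
    have := Slp_hadd 1 p Slp_hone hp
    have h : (1 : MvPolynomial α ℚ) ^ 2 + p = p + 1 := by ring
    rwa [h] at this
  have h2 := Slp_hsub (p + 1) _ h1 (Slp_hadd 1 _ Slp_hone (Slp_hadd p s hp hq))
  have h : (1 : MvPolynomial α ℚ) ^ 2 + (p ^ 2 + s) - (p + 1) ^ 2 = s - 2 * p := by ring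
  rwa [h] at h2

private theorem Slp_hmul (p s : MvPolynomial α ℚ) (hp : Ext p) (hq : Ext s) : Ext (4 * (p * s)) := by
  have h0 : Ext (0 + 2 * p) := Slp_hadd2 p 0 hp Slp_hzero
  have h1 := Slp_hsub _ _ h0 (Slp_hsub s _ hq (Slp_hsq _ (Slp_hadd2 p s hp hq)))
  have h2 : (s + 2 * p) ^ 2 - s ^ 2 - (0 + 2 * p) ^ 2 = 4 * (p * s) := by ring
  rwa [h2] at h1

private theorem Slp_hnat (p s : MvPolynomial α ℚ) (hp : Ext p) (hs : Ext s) (n : ℕ) :
    Ext (s + ((2 * n : ℕ) : MvPolynomial α ℚ) * p) := by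
  induction n with
  | zero =>
    have h1 : s + ((2 * 0 : ℕ) : MvPolynomial α ℚ) * p = s := by simp
    rwa [h1]
  | succ n ih =>
    have h1 : s + ((2 * (n + 1) : ℕ) : MvPolynomial α ℚ) * p = s + ((2 * n : ℕ) : MvPolynomial α ℚ) * p + 2 * p := by
      push_cast
      ring
    rw [h1]
    exact Slp_hadd2 _ _ hp ih

private theorem Slp_mem (p : MvPolynomial α ℚ) (hp : p ∈ Subring.closure (Set.range (X : α → MvPolynomial α ℚ))) :
    ∃ n : ℕ, n ≠ 0 ∧ Ext ((n : MvPolynomial α ℚ) * p) := by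
  induction hp using Subring.closure_induction with
  | mem x hx =>
    obtain ⟨l, rfl⟩ := hx
    refine ⟨1, one_ne_zero, ?_⟩
    intro B hB g
    refine ⟨B, hB, g, fun i => ⟨i, rfl⟩, some (Sum.inl l), ?_⟩
    simp [Prog.nd, Prog.Ψ, g.hl]
  | zero =>
    refine ⟨1, one_ne_zero, ?_⟩
    rw [mul_zero]
    exact Slp_hzero
  | one =>
    refine ⟨1, one_ne_zero, ?_⟩
    rw [mul_one, Nat.cast_one]
    exact Slp_hone
  | neg p _ hp =>
    obtain ⟨n, hn, h⟩ := hp
    refine ⟨2 * n, by positivity, ?_⟩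
    have h1 := Slp_hsub2 _ 0 h Slp_hzero
    have h2 : ((2 * n : ℕ) : MvPolynomial α ℚ) * -p = 0 - 2 * ((n : MvPolynomial α ℚ) * p) := by
      push_cast
      ring
    rwa [h2]
  | add p s _ _ hp hq =>
    obtain ⟨n, hn, h⟩ := hp
    obtain ⟨m, hm, h'⟩ := hq
    refine ⟨2 * n * m, by positivity, ?_⟩
    have h1 := Slp_hnat _ _ h (Slp_hnat _ 0 h' Slp_hzero n) m
    have h2 : ((2 * n * m : ℕ) : MvPolynomial α ℚ) * (p + s) =
        0 + ((2 * n : ℕ) : MvPolynomial α ℚ) * ((m : MvPolynomial α ℚ) * s) +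
          ((2 * m : ℕ) : MvPolynomial α ℚ) * ((n : MvPolynomial α ℚ) * p) := by
      push_cast
      ring
    rwa [h2]
  | mul p s _ _ hp hq =>
    obtain ⟨n, hn, h⟩ := hp
    obtain ⟨m, hm, h'⟩ := hq
    refine ⟨4 * n * m, by positivity, ?_⟩
    have h1 := Slp_hmul _ _ h h'
    have h2 : ((4 * n * m : ℕ) : MvPolynomial α ℚ) * (p * s) =
        4 * ((n : MvPolynomial α ℚ) * p * ((m : MvPolynomial α ℚ) * s)) := by
      push_cast
      ring
    rwa [h2]

/-- Every polynomial has a multiple with integral coefficients. -/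
private theorem Slp_int (p : MvPolynomial α ℚ) :
    ∃ a : ℤ, a ≠ 0 ∧ C (a : ℚ) * p ∈ Subring.closure (Set.range (X : α → MvPolynomial α ℚ)) := by
  have hC : ∀ a : ℤ, (C (a : ℚ) : MvPolynomial α ℚ) ∈ Subring.closure (Set.range (X : α → MvPolynomial α ℚ)) := by
    intro a
    have : (C (a : ℚ) : MvPolynomial α ℚ) = (a : MvPolynomial α ℚ) := by simp
    rw [this]
    exact intCast_mem _ a
  induction p using MvPolynomial.induction_on with
  | C c =>
    refine ⟨c.den, by exact_mod_cast c.den_ne_zero, ?_⟩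
    rw [← C_mul]
    have : ((c.den : ℤ) : ℚ) * c = (c.num : ℤ) := by
      rw [mul_comm]
      push_cast
      exact Rat.mul_den_eq_num c
    rw [this]
    exact hC _
  | add p s hp hq =>
    obtain ⟨a, ha, ha'⟩ := hp
    obtain ⟨b, hb, hb'⟩ := hq
    refine ⟨a * b, mul_ne_zero ha hb, ?_⟩
    have : (C ((a * b : ℤ) : ℚ) : MvPolynomial α ℚ) * (p + s) =
        C (b : ℚ) * (C (a : ℚ) * p) + C (a : ℚ) * (C (b : ℚ) * s) := by
      push_cast
      rw [C_mul]
      ring
    rw [this]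
    exact add_mem (mul_mem (hC b) ha') (mul_mem (hC a) hb')
  | mul_X p l hp =>
    obtain ⟨a, ha, ha'⟩ := hp
    refine ⟨a, ha, ?_⟩
    rw [← mul_assoc]
    exact mul_mem ha' (Subring.subset_closure ⟨l, rfl⟩)

/-- Every finite set of polynomials is computed by a straight-line program, up to constants: for `p ∈ P` there
is an index `i` with `Φ i = a * p` for `t = 0`. -/
theorem exists_slp (P : Finset (MvPolynomial α ℚ)) :
    ∃ (B : Type) (_ : Fintype B) (g : Prog α B),
      ∀ p ∈ P, ∃ (i : α ⊕ B) (a : ℚ), a ≠ 0 ∧ aeval (Sum.elim X fun _ => 0 : α ⊕ B → MvPolynomial α ℚ) (g.Φ i) = C a * p := by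
  classical
  induction P using Finset.induction_on with
  | empty =>
    refine ⟨Empty, inferInstance, ⟨fun k => k.elim, fun i => X i, fun l => rfl, fun k => k.elim, fun k => k.elim⟩, ?_⟩
    simp
  | insert p P hp ih =>
    obtain ⟨B, hB, g, h⟩ := ih
    obtain ⟨a, ha, ha'⟩ := Slp_int p
    obtain ⟨n, hn, hn'⟩ := Slp_mem _ ha'
    obtain ⟨B1, hB1, r1, h1, ⟨j, hj⟩, i, hi⟩ := Slp_two hn' Slp_hzero B hB g
    obtain ⟨r', h2, h3⟩ := (Slp_step r1 i j).1
    have h4 : r1.nd i ^ 2 + r1.nd j = (n : MvPolynomial α ℚ) * (C (a : ℚ) * p) := by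
      rw [hi, hj]
      ring
    rw [h4] at h3
    refine ⟨Option B1, inferInstance, r', ?_⟩
    intro s hs
    rcases Finset.mem_insert.1 hs with rfl | hs
    · refine ⟨Sum.inr none, n * a, mul_ne_zero (by exact_mod_cast hn) (by exact_mod_cast ha), ?_⟩
      show r'.nd (some (Sum.inr none)) = _
      rw [h3, C_mul, mul_assoc]
      simp
    · obtain ⟨j, b, hb, hj⟩ := h s hs
      obtain ⟨j', hj'⟩ := h1 j
      exact ⟨em j', b, hb, ((h2 (some j')).trans hj').trans hj⟩

end Pool.Agent.Lib.MP_17a322_nt.GQ
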