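import Pool.Agent.Lib.MP_17a322_nt.GQ.SqA

/-!
The forms `X_i ^ 2 + X_0 X_j - X_0 X_k`: the determinants.
-/

namespace Pool.Agent.Lib.MP_17a322_nt.GQ

open MvPolynomial

variable {m : ℕ} {x : Fin (m + 1) → ℤ}

/-- The affine coordinates. -/
def aff (x : Fin (m + 1) → ℤ) : Fin m → ℚ := fun l => (x l.succ : ℚ) / (x 0 : ℚ)

theorem cast_eval (x : Fin (m + 1) → ℤ) (g : MvPolynomial (Fin (m + 1)) ℤ) :
    ((eval x g : ℤ) : ℚ) = aeval (fun i => (x i : ℚ)) g := by
  induction g using MvPolynomial.induction_on with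
  | C a => simp
  | add p q hp hq => rw [map_add, map_add, Int.cast_add, hp, hq]
  | mul_X p i hp => rw [map_mul, map_mul, Int.cast_mul, hp, eval_X, aeval_X]

theorem hat_aff (hx : x 0 ≠ 0) : (fun i => (x 0 : ℚ) * hat (aff x) i) = fun i => (x i : ℚ) := by
  have hx' : (x 0 : ℚ) ≠ 0 := by exact_mod_cast hx
  funext i
  refine Fin.cases ?_ (fun l => ?_) i
  · simp [hat]
  · simp only [hat, Fin.cons_succ, aff]
    field_simp

theorem eval_x {g : MvPolynomial (Fin (m + 1)) ℤ} {d : ℕ} (hg : g.IsHomogeneous d) (hx : x 0 ≠ 0) :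
    ((eval x g : ℤ) : ℚ) = (x 0 : ℚ) ^ d * eval (aff x) (dh g) := by
  rw [cast_eval, ← hat_aff hx, aeval_scale hg, eval_dh]

theorem eval_pderiv_x {g : MvPolynomial (Fin (m + 1)) ℤ} {d : ℕ} (hg : g.IsHomogeneous d) (hx : x 0 ≠ 0)
    (l : Fin m) : ((eval x (pderiv l.succ g) : ℤ) : ℚ) =
      (x 0 : ℚ) ^ (d - 1) * eval (aff x) (pderiv l (dh g)) := by
  rw [eval_x hg.pderiv hx, pderiv_dh]

theorem euler {g : MvPolynomial (Fin (m + 1)) ℤ} {d : ℕ} (hg : g.IsHomogeneous d) (x : Fin (m + 1) → ℤ) :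
    ∑ j, eval x (pderiv j g) * x j = d * eval x g := by
  have h1 := congrArg (eval x) hg.sum_X_mul_pderiv
  rw [map_sum] at h1
  simp only [map_mul, eval_X, nsmul_eq_mul, map_natCast] at h1
  rw [← h1]
  exact Finset.sum_congr rfl fun j _ => mul_comm _ _

/-- The matrix of the logarithmic derivatives. -/
noncomputable def lg (x : Fin (m + 1) → ℤ) (s : Fin (m + 1) → Fin (m + 1) × Fin (m + 1) × Fin (m + 1)) :
    Matrix (Fin (m + 1)) (Fin (m + 1)) ℚ :=
  Matrix.of fun i j => ((eval x (pderiv j (sqForm (s i))) : ℤ) : ℚ) / ((eval x (sqForm (s i)) : ℤ) : ℚ)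

/-- Dehomogenisation of `m` of the forms. -/
noncomputable def dhs (t : Fin m → Fin (m + 1) × Fin (m + 1) × Fin (m + 1)) : Fin m → sqPoly (Fin m) :=
  fun k => ⟨dh (sqForm (t k)), dh_mem (t k)⟩

theorem det_lg (hx : x 0 ≠ 0) (h0 : ∀ t, eval x (sqForm t) ≠ 0)
    (s : Fin (m + 1) → Fin (m + 1) × Fin (m + 1) × Fin (m + 1)) :
    (lg x s).det * (x 0 : ℚ) ^ (m + 1) =
      ∑ i : Fin (m + 1), (-1) ^ (i : ℕ) * 2 * vec (sqPoly (Fin m)) (aff x)
        (dhs fun k => s (i.succAbove k)) := by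
  have hx' : (x 0 : ℚ) ≠ 0 := by exact_mod_cast hx
  have hs0 : ∀ i, ((eval x (sqForm (s i)) : ℤ) : ℚ) ≠ 0 := fun i => by exact_mod_cast h0 (s i)
  have h1 : (lg x s).mulVec (fun j => (x j : ℚ)) = fun _ => (2 : ℚ) := by
    funext i
    rw [Matrix.mulVec, dotProduct]
    have h2 := euler (sqForm_hom (s i)) x
    have h3 : ∑ j, ((eval x (pderiv j (sqForm (s i))) : ℤ) : ℚ) * (x j : ℚ) =
        2 * ((eval x (sqForm (s i)) : ℤ) : ℚ) := by
      exact_mod_cast h2
    have h4 : ∀ j, lg x s i j * (x j : ℚ) = ((eval x (pderiv j (sqForm (s i))) : ℤ) : ℚ) * (x j : ℚ) /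
        ((eval x (sqForm (s i)) : ℤ) : ℚ) := fun j => by
      rw [lg, Matrix.of_apply]
      ring
    rw [Finset.sum_congr rfl fun j _ => h4 j, ← Finset.sum_div, h3, mul_div_assoc, div_self (hs0 i), mul_one]
  have h2 : (lg x s).det * (x 0 : ℚ) = ((lg x s).updateCol 0 fun _ => (2 : ℚ)).det := by
    rw [← h1, ← Matrix.cramer_apply, Matrix.cramer_eq_adjugate_mulVec, Matrix.mulVec_mulVec, Matrix.adjugate_mul,
      Matrix.smul_mulVec, Matrix.one_mulVec, Pi.smul_apply, smul_eq_mul]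
  rw [pow_succ', ← mul_assoc, h2, Matrix.det_succ_column_zero, Finset.sum_mul]
  apply Finset.sum_congr rfl
  intro i _
  rw [Matrix.updateCol_self]
  have h3 : ((((lg x s).updateCol 0 fun _ => (2 : ℚ)).submatrix i.succAbove Fin.succ).det) * (x 0 : ℚ) ^ m =
      vec (sqPoly (Fin m)) (aff x) (dhs fun k => s (i.succAbove k)) := by
    have h4 : ((lg x s).updateCol 0 fun _ => (2 : ℚ)).submatrix i.succAbove Fin.succ =
        (x 0 : ℚ)⁻¹ • Matrix.of fun k l => eval (aff x) (pderiv l (dhs (fun k => s (i.succAbove k)) k).1) /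
          eval (aff x) (dhs (fun k => s (i.succAbove k)) k).1 := by
      ext k l
      rw [Matrix.submatrix_apply, Matrix.updateCol_ne (Fin.succ_ne_zero l), Matrix.smul_apply, Matrix.of_apply, lg,
        Matrix.of_apply, eval_pderiv_x (sqForm_hom _) hx, eval_x (sqForm_hom _) hx, smul_eq_mul]
      have h6 : eval (aff x) (dh (sqForm (s (i.succAbove k)))) ≠ 0 := by
        intro h7
        have h8 := hs0 (i.succAbove k)
        rw [eval_x (sqForm_hom _) hx, h7, mul_zero] at h8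
        exact h8 rfl
      simp only [dhs]
      rw [show 2 - 1 = 1 from rfl, pow_one]
      field_simp
    rw [h4, Matrix.det_smul, Fintype.card_fin, vec, mul_comm, ← mul_assoc, ← mul_pow, mul_inv_cancel₀ hx', one_pow,
      one_mul]
  rw [← h3]
  ring

/-- The product of all the forms times the determinant of the logarithmic derivatives. -/
theorem cast_sqDet (h0 : ∀ t, eval x (sqForm t) ≠ 0)
    (s : Fin (m + 1) → Fin (m + 1) × Fin (m + 1) × Fin (m + 1)) :
    ((sqDet x s : ℤ) : ℚ) = ((∏ a, eval x (sqForm a) : ℤ) : ℚ) * (lg x s).det := by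
  have hs0 : ∀ i, ((eval x (sqForm (s i)) : ℤ) : ℚ) ≠ 0 := fun i => by exact_mod_cast h0 (s i)
  have h1 : ((Matrix.of fun i j => eval x (pderiv j (sqForm (s i)))).det : ℚ) =
      (∏ i, ((eval x (sqForm (s i)) : ℤ) : ℚ)) * (lg x s).det := by
    rw [Int.cast_det, ← Matrix.det_mul_column]
    congr 1
    ext i j
    rw [Matrix.map_apply, Matrix.of_apply, Matrix.of_apply, lg, Matrix.of_apply]
    rw [mul_div_cancel₀ _ (hs0 i)]
  by_cases hs : Function.Injective s
  · unfold sqDet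
    rw [Int.cast_mul, h1]
    have h2 : (∏ a, eval x (sqForm a)) =
        (∏ i, eval x (sqForm (s i))) * ∏ a ∈ (Finset.univ.image s)ᶜ, eval x (sqForm a) := by
      rw [← Finset.prod_mul_prod_compl (Finset.univ.image s), Finset.prod_image fun a _ b _ h => hs h]
    rw [h2]
    push_cast
    ring
  · have h3 : (lg x s).det = 0 := by
      rw [Function.Injective] at hs
      push Not at hs
      obtain ⟨a, b, hab, hne⟩ := hs
      apply Matrix.det_zero_of_row_eq hne
      funext j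
      rw [lg, Matrix.of_apply, Matrix.of_apply, hab]
    unfold sqDet
    rw [Int.cast_mul, h1, h3, mul_zero, mul_zero, zero_mul]

end Pool.Agent.Lib.MP_17a322_nt.GQ
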